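import Mathlib
set_option autoImplicit false
namespace Pool.Agent.MP64d899

noncomputable def tau : ℝ := (1 + Real.sqrt 5) / 2
noncomputable def pp : ℝ := tau - 1
noncomputable def cc : ℝ := tau ^ (2 - tau)

/-- Golomb's sequence: `f 1 = 1`, nondecreasing, `n` occurs `f n` times. -/
structure IsGol (f : ℕ → ℕ) : Prop where
  one : f 1 = 1
  mono : ∀ m n : ℕ, 1 ≤ m → m ≤ n → f m ≤ f n
  cnt : ∀ n : ℕ, 1 ≤ n → f n = Set.ncard {m : ℕ | 1 ≤ m ∧ f m = n}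

/-- `Fs f n = f 1 + ... + f n` -/
def Fs (f : ℕ → ℕ) (n : ℕ) : ℕ := ∑ k ∈ Finset.Icc 1 n, f k

/-- `Ns f j = F (F j)`, `Ms f j = F (F (F j))` -/
def Ns (f : ℕ → ℕ) (j : ℕ) : ℕ := Fs f (Fs f j)
def Ms (f : ℕ → ℕ) (j : ℕ) : ℕ := Fs f (Ns f j)

noncomputable def EE (f : ℕ → ℕ) (n : ℕ) : ℝ := (f n : ℝ) - cc * (n : ℝ) ^ pp
noncomputable def SS (f : ℕ → ℕ) (n : ℕ) : ℝ := ∑ k ∈ Finset.Icc 1 n, EE f k

noncomputable def WU (x : ℝ) : ℝ := x ^ tau / (tau * (Real.log x + 1.3))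
noncomputable def WL (x : ℝ) : ℝ := x ^ tau / (tau * (Real.log x - 0.6))

def Tbl : List ℕ := [1, 2, 2, 3, 3, 4, 4, 4, 5, 5, 5, 6, 6, 6, 6, 7, 7, 7, 7, 8, 8, 8, 8, 9, 9, 9, 9, 9, 10, 10, 10, 10, 10, 11, 11, 11, 11, 11, 12, 12, 12, 12, 12, 12, 13, 13, 13, 13, 13, 13, 14, 14, 14, 14, 14, 14, 15, 15, 15, 15, 15, 15, 16, 16, 16, 16, 16, 16, 16, 17, 17, 17, 17, 17, 17, 17, 18, 18, 18, 18, 18, 18, 18, 19, 19, 19, 19, 19, 19, 19, 20, 20, 20, 20, 20, 20, 20, 20, 21, 21, 21, 21, 21, 21, 21, 21, 22, 22, 22, 22, 22, 22, 22, 22, 23, 23, 23, 23, 23, 23, 23, 23, 24, 24, 24, 24, 24, 24, 24, 24, 24, 25, 25, 25, 25, 25, 25, 25, 25, 25, 26, 26, 26, 26, 26, 26, 26, 26, 26, 27, 27, 27, 27, 27, 27, 27, 27, 27, 28, 28, 28, 28, 28, 28, 28, 28, 28, 29, 29, 29, 29, 29, 29, 29, 29, 29, 29, 30, 30, 30, 30, 30, 30, 30, 30, 30, 30, 31, 31, 31, 31, 31, 31, 31, 31,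 31, 31, 32, 32, 32, 32, 32, 32, 32, 32, 32, 32, 33, 33, 33, 33, 33, 33, 33, 33, 33, 33, 34, 34, 34, 34, 34, 34, 34, 34, 34, 34, 34, 35, 35, 35, 35, 35, 35, 35, 35, 35, 35, 35, 36, 36, 36, 36, 36, 36, 36, 36, 36, 36, 36, 37, 37, 37, 37, 37, 37, 37, 37, 37, 37, 37, 38, 38, 38, 38, 38, 38, 38, 38, 38, 38, 38, 39, 39, 39, 39, 39, 39, 39, 39, 39, 39, 39, 39, 40, 40, 40, 40, 40, 40, 40, 40, 40, 40, 40, 40, 41, 41, 41, 41, 41, 41, 41, 41, 41, 41, 41, 41, 42, 42, 42, 42, 42, 42, 42, 42, 42, 42, 42, 42, 43, 43, 43, 43, 43, 43, 43, 43, 43, 43, 43, 43, 44, 44, 44]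

def chk (klo khi N M : ℕ) : Bool :=
  Nat.ble (klo ^ 2584 * M ^ 1597) ((10000000 * N) ^ 2584) &&
  Nat.ble ((10000000 * N) ^ 2584) (khi ^ 2584 * M ^ 1597)

def chk2 (kap j v F N M : ℕ) : Bool :=
  Nat.ble (10 * j * 61804 * N * (F + (v + 1))) (100000 * M * (10 * j + 18)) &&
  Nat.ble (10 * j * (v + 1)) (18 * F) &&
  Nat.ble ((j + 1) * (v + 1) * 18 * 10000000) (10 * j * kap * N)

/-- the test made at `j`, with `v = f j`, `F = F j`, `N = F (F j)`, `M = F (F (F j))` -/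
def tst (j v F N M : ℕ) : Bool :=
  if Nat.ble j 334 then true
  else if Nat.ble j 999 then chk 12016950 12019116 N M && chk2 440 j v F N M
  else chk 12016196 12016949 N M && chk2 50 j v F N M

def block (v : ℕ) (k : ℕ → ℕ → ℕ → ℕ → Bool) : ℕ → ℕ → ℕ → ℕ → ℕ → Bool
  | 0, j, F, N, M => k j F N M
  | (c+1), j, F, N, M =>
     tst (j+1) v (F + v) (N + (j+1) * v) (M + (j+1) * (v * F + v * (v+1) / 2)) &&
      block v k c (j+1) (F + v) (N + (j+1) * v) (M + (j+1) * (v * F + v * (v+1) / 2))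

def loop : List ℕ → ℕ → ℕ → ℕ → ℕ → ℕ → Bool
  | [], _, _, _, _, _ => true
  | cnt :: l, v, j, F, N, M => block v (loop l (v+1)) cnt j F N M

end Pool.Agent.MP64d899
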