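import Pool.Agent.MP64d899.Defs
set_option autoImplicit false
namespace Pool.Agent.MP64d899

theorem log_vals_log_vals_up (n : ℕ) (y : ℝ) (hy0 : 0 ≤ y) (hy1 : y ≤ 1) :
    Real.exp (n + y) ≤ (2.7182818286 : ℝ) ^ n *
      (1 + y + y ^ 2 / 2 + y ^ 3 / 6 + y ^ 4 / 24 + y ^ 5 / 120 + y ^ 6 * 7 / 4320) := by
  rw [Real.exp_add]
  have h1 : Real.exp (n : ℝ) = (Real.exp 1) ^ n := by
    rw [← Real.exp_nat_mul, mul_one]
  have h2 := Real.exp_bound' hy0 hy1 (n := 6) (by norm_num)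
  rw [h1]
  have h3 : Real.exp 1 ^ n ≤ (2.7182818286 : ℝ) ^ n :=
    pow_le_pow_left₀ (Real.exp_pos 1).le Real.exp_one_lt_d9.le n
  refine mul_le_mul h3 (h2.trans (le_of_eq ?_)) (Real.exp_pos y).le (by positivity)
  simp only [Finset.sum_range_succ, Finset.sum_range_zero, Nat.factorial]
  norm_num

theorem log_vals_log_vals_lo (n : ℕ) (y : ℝ) (hy0 : 0 ≤ y) :
    (2.7182818283 : ℝ) ^ n *
      (1 + y + y ^ 2 / 2 + y ^ 3 / 6 + y ^ 4 / 24 + y ^ 5 / 120) ≤ Real.exp (n + y) := by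
  rw [Real.exp_add]
  have h1 : Real.exp (n : ℝ) = (Real.exp 1) ^ n := by
    rw [← Real.exp_nat_mul, mul_one]
  have h2 := Real.sum_le_exp_of_nonneg hy0 6
  rw [h1]
  have h3 : (2.7182818283 : ℝ) ^ n ≤ Real.exp 1 ^ n :=
    pow_le_pow_left₀ (by norm_num) Real.exp_one_gt_d9.le n
  refine mul_le_mul h3 (le_trans (le_of_eq ?_) h2) (by positivity) (by positivity)
  simp only [Finset.sum_range_succ, Finset.sum_range_zero, Nat.factorial]
  norm_num

theorem log_vals : Real.exp 23.07 < 10534727210 ∧ (10534727210:ℝ) < Real.exp 23.08 ∧ Real.exp 27.7 < 1080076187880 ∧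
    (1080076187880:ℝ) < Real.exp 27.71 ∧ Real.exp 37.03 < 12241649551538241 ∧ (12241649551538241:ℝ) < Real.exp 37.05 ∧ Real.exp 20 < 10 ^ 9 := by
  refine ⟨?_, ?_, ?_, ?_, ?_, ?_, ?_⟩
  · have h := log_vals_log_vals_up 23 0.07 (by norm_num) (by norm_num)
    have e : ((23 : ℕ) : ℝ) + 0.07 = 23.07 := by norm_num
    rw [e] at h
    refine h.trans_lt ?_
    norm_num
  · have h := log_vals_log_vals_lo 23 0.08 (by norm_num)
    have e : ((23 : ℕ) : ℝ) + 0.08 = 23.08 := by norm_num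
    rw [e] at h
    refine lt_of_lt_of_le ?_ h
    norm_num
  · have h := log_vals_log_vals_up 27 0.7 (by norm_num) (by norm_num)
    have e : ((27 : ℕ) : ℝ) + 0.7 = 27.7 := by norm_num
    rw [e] at h
    refine h.trans_lt ?_
    norm_num
  · have h := log_vals_log_vals_lo 27 0.71 (by norm_num)
    have e : ((27 : ℕ) : ℝ) + 0.71 = 27.71 := by norm_num
    rw [e] at h
    refine lt_of_lt_of_le ?_ h
    norm_num
  · have h := log_vals_log_vals_up 37 0.03 (by norm_num) (by norm_num)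
    have e : ((37 : ℕ) : ℝ) + 0.03 = 37.03 := by norm_num
    rw [e] at h
    refine h.trans_lt ?_
    norm_num
  · have h := log_vals_log_vals_lo 37 0.05 (by norm_num)
    have e : ((37 : ℕ) : ℝ) + 0.05 = 37.05 := by norm_num
    rw [e] at h
    refine lt_of_lt_of_le ?_ h
    norm_num
  · have h := log_vals_log_vals_up 20 0 (by norm_num) (by norm_num)
    have e : ((20 : ℕ) : ℝ) + 0 = 20 := by norm_num
    rw [e] at h
    refine h.trans_lt ?_
    norm_num

end Pool.Agent.MP64d899
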