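import Pool.Agent.MP64d899.Defs
set_option autoImplicit false
namespace Pool.Agent.MP64d899

theorem tau_facts : 1.618033 < tau ∧ tau < 1.618034 ∧ tau ^ (2:ℕ) = tau + 1 ∧ pp * tau = 1 ∧ 0.618033 < pp ∧ pp < 0.618034 := by
  have h5 : Real.sqrt 5 ^ 2 = 5 := Real.sq_sqrt (by norm_num)
  have h0 : 0 ≤ Real.sqrt 5 := Real.sqrt_nonneg 5
  have h1 : 2.236066 < Real.sqrt 5 := by
    apply Real.lt_sqrt_of_sq_lt
    norm_num
  have h2 : Real.sqrt 5 < 2.236068 := by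
    rw [Real.sqrt_lt' (by norm_num)]
    norm_num
  have ht : tau = (1 + Real.sqrt 5) / 2 := rfl
  have hp : pp = tau - 1 := rfl
  refine ⟨?_, ?_, ?_, ?_, ?_, ?_⟩
  · rw [ht]; norm_num at h1 ⊢; linarith
  · rw [ht]; norm_num at h2 ⊢; linarith
  · rw [ht]; nlinarith
  · rw [hp, ht]; nlinarith
  · rw [hp, ht]; norm_num at h1 ⊢; linarith
  · rw [hp, ht]; norm_num at h2 ⊢; linarith

end Pool.Agent.MP64d899
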