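import Pool.Agent.MP64d899.Defs
import Pool.Agent.MP64d899.L_tau_facts
import Pool.Agent.MP64d899.L_log_vals
set_option autoImplicit false
namespace Pool.Agent.MP64d899

theorem D1_D1_deriv (t : ℝ) (ht : 0 < t) (hL : 0 < Real.log t + 1.3) :
    HasDerivAt WU (t ^ pp / (Real.log t + 1.3) * (1 - pp / (Real.log t + 1.3))) t := by
  obtain ⟨t1, t2, t3, t4, t5, t6⟩ := tau_facts
  have h1 : HasDerivAt (fun x : ℝ => x ^ tau) (tau * t ^ (tau - 1)) t :=
    Real.hasDerivAt_rpow_const (Or.inl ht.ne')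
  have h2 : HasDerivAt (fun x : ℝ => tau * (Real.log x + 1.3)) (tau * t⁻¹) t :=
    ((Real.hasDerivAt_log ht.ne').add_const _).const_mul tau
  have h3 : tau * (Real.log t + 1.3) ≠ 0 := by
    apply mul_ne_zero
    · linarith
    · exact hL.ne'
  have h4 := h1.div h2 h3
  have h5 : WU = (fun x : ℝ => x ^ tau) / (fun x : ℝ => tau * (Real.log x + 1.3)) := by
    funext x
    rfl
  rw [h5]
  refine h4.congr_deriv ?_
  have e1 : tau - 1 = pp := rfl
  have e2 : t ^ tau = t ^ pp * t := by
    rw [← Real.rpow_add_one ht.ne']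
    congr 1
    rw [← e1]
    ring
  rw [e1, e2]
  have e3 : pp = tau⁻¹ := eq_inv_of_mul_eq_one_left t4
  have e4 : tau ≠ 0 := by linarith
  set P := t ^ pp with hP
  set L := Real.log t + 1.3 with hLd
  rw [e3]
  field_simp

theorem D1_D1_point (x t : ℝ) (hx : 10 ^ 9 ≤ x) (h1 : x ≤ t) (h2 : t ≤ x + 1) :
    (x + 1) ^ pp / (Real.log (x + 1) + 2) ≤
      t ^ pp / (Real.log t + 1.3) * (1 - pp / (Real.log t + 1.3)) := by
  obtain ⟨t1, t2, t3, t4, t5, t6⟩ := tau_facts
  obtain ⟨-, -, -, -, -, -, hexp⟩ := log_vals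
  have ht : (0:ℝ) < t := by linarith
  have hl : 20 ≤ Real.log t := by
    rw [Real.le_log_iff_exp_le ht]
    linarith
  have hl2 : Real.log t ≤ t / 100 + 98 := by
    have e1 : Real.log t = Real.log (t / 100) + Real.log 100 := by
      rw [← Real.log_mul (by positivity) (by norm_num)]
      congr 1
      ring
    have e2 := Real.log_le_sub_one_of_pos (show 0 < t / 100 by positivity)
    have e3 := Real.log_le_sub_one_of_pos (show (0:ℝ) < 100 by norm_num)
    linarith
  have hlx : Real.log t ≤ Real.log (x + 1) := Real.log_le_log ht h2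
  set l := Real.log t with hld
  have hP : 0 < t ^ pp := Real.rpow_pos_of_pos ht _
  have hnum : (x + 1) ^ pp ≤ t ^ pp * (1 + 1 / t) := by
    have e1 : (x + 1) ^ pp ≤ (t * (1 + 1 / t)) ^ pp := by
      apply Real.rpow_le_rpow (by linarith) _ (by linarith)
      have : t * (1 + 1 / t) = t + 1 := by field_simp
      rw [this]
      linarith
    refine e1.trans ?_
    rw [Real.mul_rpow ht.le (by positivity)]
    apply mul_le_mul_of_nonneg_left _ hP.le
    have h3 : (1:ℝ) ≤ 1 + 1 / t := by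
      have : 0 < 1 / t := by positivity
      linarith
    calc (1 + 1 / t) ^ pp ≤ (1 + 1 / t) ^ (1:ℝ) := Real.rpow_le_rpow_of_exponent_le h3 (by linarith)
      _ = 1 + 1 / t := Real.rpow_one _
  calc (x + 1) ^ pp / (Real.log (x + 1) + 2) ≤ (t ^ pp * (1 + 1 / t)) / (l + 2) := by
        apply div_le_div₀ (by positivity) hnum (by linarith) (by linarith)
    _ ≤ t ^ pp / (l + 1.3) * (1 - pp / (l + 1.3)) := by
        have h4 : (0:ℝ) < l + 1.3 := by linarith
        have h5 : (0:ℝ) < l + 2 := by linarith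
        have e1 : t ^ pp / (l + 1.3) * (1 - pp / (l + 1.3)) =
            t ^ pp * ((l + 1.3 - pp) / (l + 1.3) ^ 2) := by
          field_simp
        have e2 : (t ^ pp * (1 + 1 / t)) / (l + 2) = t ^ pp * ((1 + 1 / t) / (l + 2)) := by ring
        rw [e1, e2]
        apply mul_le_mul_of_nonneg_left _ hP.le
        rw [div_le_div_iff₀ h5 (by positivity)]
        have h6 : 1 / t * (l + 1.3) ^ 2 ≤ 0.05 * (l + 1.3) := by
          have h7 : l + 1.3 ≤ 0.05 * t := by linarith
          have h8 : 1 / t * (l + 1.3) ≤ 0.05 := by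
            rw [one_div, inv_mul_le_iff₀ ht]
            linarith
          calc 1 / t * (l + 1.3) ^ 2 = (1 / t * (l + 1.3)) * (l + 1.3) := by ring
            _ ≤ 0.05 * (l + 1.3) := by gcongr
        have h9 : 0.618034 * (l + 2) ≥ pp * (l + 2) := by
          apply mul_le_mul_of_nonneg_right t6.le h5.le
        nlinarith


theorem D1 (x : ℝ) (hx : 10 ^ 9 ≤ x) : WU x + (x + 1) ^ pp / (Real.log (x + 1) + 2) ≤ WU (x + 1) := by
  have h20 : ∀ t : ℝ, x ≤ t → 0 < t ∧ 0 < Real.log t + 1.3 := by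
    intro t ht
    have h1 : (1:ℝ) ≤ t := by linarith
    have h2 := Real.log_nonneg h1
    exact ⟨by linarith, by linarith⟩
  obtain ⟨c, hc, hc2⟩ := exists_hasDerivAt_eq_slope WU
    (fun t => t ^ pp / (Real.log t + 1.3) * (1 - pp / (Real.log t + 1.3)))
    (show x < x + 1 by linarith)
    (fun t ht => (D1_D1_deriv t (h20 t ht.1).1 (h20 t ht.1).2).continuousAt.continuousWithinAt)
    (fun t ht => D1_D1_deriv t (h20 t ht.1.le).1 (h20 t ht.1.le).2)
  have h3 := D1_D1_point x c hx hc.1.le hc.2.le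
  rw [hc2, show x + 1 - x = 1 by ring, div_one] at h3
  linarith

end Pool.Agent.MP64d899
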