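import Pool.Agent.MP64d899.Defs
import Pool.Agent.MP64d899.L_tau_facts
import Pool.Agent.MP64d899.L_log_vals
set_option autoImplicit false
namespace Pool.Agent.MP64d899

theorem D2_D2_aux_hasDeriv (t : ℝ) (ht : 10 ^ 9 ≤ t) :
    HasDerivAt WL (t ^ pp / (Real.log t - 0.6) * (1 - pp / (Real.log t - 0.6))) t := by
  obtain ⟨h1, h2, h3, h4, h5, h6⟩ := tau_facts
  have htpos : (0:ℝ) < t := by linarith [show (0:ℝ) < 10 ^ 9 by norm_num]
  have hlog : 20 < Real.log t := by
    have h20 := log_vals.2.2.2.2.2.2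
    rw [Real.lt_log_iff_exp_lt htpos]
    linarith
  have hL : Real.log t - 0.6 ≠ 0 := by
    have : 0 < Real.log t - 0.6 := by norm_num; linarith
    exact ne_of_gt this
  have htau : tau ≠ 0 := by
    have : 0 < tau := by linarith
    exact ne_of_gt this
  have hd1 : HasDerivAt (fun y : ℝ => y ^ tau) (tau * t ^ (tau - 1)) t :=
    Real.hasDerivAt_rpow_const (Or.inl (ne_of_gt htpos))
  have hd2 : HasDerivAt (fun y : ℝ => tau * (Real.log y - 0.6)) (tau * (t⁻¹)) t := by
    have := (Real.hasDerivAt_log (ne_of_gt htpos)).sub_const (0.6:ℝ)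
    exact this.const_mul tau
  have hne : tau * (Real.log t - 0.6) ≠ 0 := mul_ne_zero htau hL
  have hd3 := hd1.div hd2 hne
  have hfun : WL = fun y : ℝ => y ^ tau / (tau * (Real.log y - 0.6)) := rfl
  rw [hfun]
  refine hd3.congr_deriv ?_
  have hpp : tau - 1 = pp := rfl
  have ht1 : t ^ tau = t ^ pp * t := by
    rw [← hpp, Real.rpow_sub_one (ne_of_gt htpos)]
    field_simp
  have hpt : pp = 1 / tau := by
    field_simp
    linarith
  rw [ht1, hpp]
  generalize hq : Real.log t - 0.6 = L at *
  generalize t ^ pp = A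
  have hp2 : pp / L = 1 / (tau * L) := by rw [hpt]; field_simp
  rw [hp2]
  field_simp

theorem D2_D2_aux_mono (t s : ℝ) (ht : 10 ^ 9 ≤ t) (hts : t ≤ s) :
    t ^ pp / Real.log t ≤ s ^ pp / Real.log s := by
  obtain ⟨h1, h2, h3, h4, h5, h6⟩ := tau_facts
  have htpos : (0:ℝ) < t := by linarith [show (0:ℝ) < 10 ^ 9 by norm_num]
  have hspos : 0 < s := by linarith
  have hlog : 20 < Real.log t := by
    have h20 := log_vals.2.2.2.2.2.2
    rw [Real.lt_log_iff_exp_lt htpos]
    linarith
  have hls : Real.log t ≤ Real.log s := Real.log_le_log htpos hts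
  have hls20 : 20 < Real.log s := by linarith
  rw [div_le_div_iff₀ (by linarith) (by linarith)]
  -- t^pp * log s ≤ s^pp * log t
  have hr : s ^ pp = t ^ pp * Real.exp (pp * (Real.log s - Real.log t)) := by
    rw [Real.rpow_def_of_pos hspos, Real.rpow_def_of_pos htpos, ← Real.exp_add]
    congr 1
    ring
  rw [hr]
  have hexp : pp * (Real.log s - Real.log t) + 1 ≤ Real.exp (pp * (Real.log s - Real.log t)) := Real.add_one_le_exp _
  have htp : 0 < t ^ pp := Real.rpow_pos_of_pos htpos _
  have key : Real.log s ≤ Real.exp (pp * (Real.log s - Real.log t)) * Real.log t := by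
    have h0 : (pp * (Real.log s - Real.log t) + 1) * Real.log t ≤ Real.exp (pp * (Real.log s - Real.log t)) * Real.log t :=
      mul_le_mul_of_nonneg_right hexp (by linarith)
    have h9 : 0 ≤ (Real.log s - Real.log t) * (pp * Real.log t - 1) := by
      apply mul_nonneg (by linarith)
      have : 0.6 * 20 ≤ pp * Real.log t := by
        apply mul_le_mul <;> linarith
      norm_num at this
      linarith
    nlinarith [h0, h9]
  calc t ^ pp * Real.log s ≤ t ^ pp * (Real.exp (pp * (Real.log s - Real.log t)) * Real.log t) :=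
        mul_le_mul_of_nonneg_left key htp.le
    _ = t ^ pp * Real.exp (pp * (Real.log s - Real.log t)) * Real.log t := by ring

theorem D2 (x : ℝ) (hx : 10 ^ 9 ≤ x) : WL (x + 1) - WL x ≤ (x + 1) ^ pp / Real.log (x + 1) := by
  obtain ⟨h1, h2, h3, h4, h5, h6⟩ := tau_facts
  have hderiv : ∀ t ∈ Set.Icc x (x+1), HasDerivAt WL (t ^ pp / (Real.log t - 0.6) * (1 - pp / (Real.log t - 0.6))) t := by
    intro t ht
    exact D2_D2_aux_hasDeriv t (le_trans hx ht.1)
  have hcont : ContinuousOn WL (Set.Icc x (x+1)) := fun t ht =>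
    (hderiv t ht).continuousAt.continuousWithinAt
  obtain ⟨c, hc, hceq⟩ := exists_hasDerivAt_eq_slope WL
    (fun t => t ^ pp / (Real.log t - 0.6) * (1 - pp / (Real.log t - 0.6))) (show x < x + 1 by linarith)
    hcont (fun t ht => hderiv t ⟨ht.1.le, ht.2.le⟩)
  have hden : (x + 1 - x) = 1 := by ring
  rw [hden, div_one] at hceq
  rw [← hceq]
  have hcx : 10 ^ 9 ≤ c := le_trans hx hc.1.le
  have hcpos : (0:ℝ) < c := by linarith [show (0:ℝ) < 10 ^ 9 by norm_num]
  have hlog : 20 < Real.log c := by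
    have h20 := log_vals.2.2.2.2.2.2
    rw [Real.lt_log_iff_exp_lt hcpos]
    linarith
  have hstep : c ^ pp / (Real.log c - 0.6) * (1 - pp / (Real.log c - 0.6)) ≤ c ^ pp / Real.log c := by
    have hcp : 0 < c ^ pp := Real.rpow_pos_of_pos hcpos _
    have hLpos : 0 < Real.log c - 0.6 := by norm_num; linarith
    have hlpos : 0 < Real.log c := by linarith
    have hid : c ^ pp / (Real.log c - 0.6) * (1 - pp / (Real.log c - 0.6))
        = c ^ pp * ((Real.log c - 0.6 - pp) / ((Real.log c - 0.6) ^ 2)) := by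
      field_simp
    rw [hid, div_eq_mul_inv (c ^ pp) (Real.log c)]
    apply mul_le_mul_of_nonneg_left _ hcp.le
    rw [inv_eq_one_div, div_le_div_iff₀ (by positivity) hlpos]
    generalize Real.log c = l at *
    norm_num at *
    nlinarith
  exact le_trans hstep (D2_D2_aux_mono c (x+1) hcx hc.2.le)

end Pool.Agent.MP64d899
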