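import Pool.Agent.MP64d899.Defs
import Pool.Agent.MP64d899.L_tau_facts
set_option autoImplicit false
namespace Pool.Agent.MP64d899

theorem cc_bounds_low_aux (t x : ℝ) (ht : 0 < t) (m n : ℕ) (hn : n ≠ 0) (h : x ^ n < t ^ m) :
    x < t ^ ((m : ℝ) / n) := by
  by_contra hc
  rw [not_lt] at hc
  have h1 : (t ^ ((m : ℝ) / n)) ^ n = t ^ m := by
    rw [← Real.rpow_natCast (t ^ ((m : ℝ) / n)) n, ← Real.rpow_mul ht.le,
      div_mul_cancel₀ _ (Nat.cast_ne_zero.2 hn), Real.rpow_natCast]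
  have h2 := pow_le_pow_left₀ (Real.rpow_nonneg ht.le _) hc n
  rw [h1] at h2
  exact absurd h (not_lt.2 h2)

theorem cc_bounds_up_aux (t x : ℝ) (ht : 0 < t) (hx : 0 ≤ x) (m n : ℕ) (hn : n ≠ 0) (h : t ^ m < x ^ n) :
    t ^ ((m : ℝ) / n) < x := by
  by_contra hc
  rw [not_lt] at hc
  have h1 : (t ^ ((m : ℝ) / n)) ^ n = t ^ m := by
    rw [← Real.rpow_natCast (t ^ ((m : ℝ) / n)) n, ← Real.rpow_mul ht.le,
      div_mul_cancel₀ _ (Nat.cast_ne_zero.2 hn), Real.rpow_natCast]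
  have h2 := pow_le_pow_left₀ hx hc n
  rw [h1] at h2
  exact absurd h (not_lt.2 h2)

theorem cc_bounds_pow_lt_aux (a b c d m n : ℕ) (hb : 0 < b) (hd : 0 < d) (h : c ^ n * b ^ m < a ^ m * d ^ n) :
    ((c : ℝ) / d) ^ n < ((a : ℝ) / b) ^ m := by
  have hb' : (0 : ℝ) < b := Nat.cast_pos.2 hb
  have hd' : (0 : ℝ) < d := Nat.cast_pos.2 hd
  rw [div_pow, div_pow, div_lt_div_iff₀ (pow_pos hd' _) (pow_pos hb' _)]
  exact_mod_cast h

theorem cc_bounds_num1 : 12017833 ^ 6765 * 10000000000 ^ 2584 < 16180339887 ^ 2584 * 10000000 ^ 6765 := by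
  decide +kernel

theorem cc_bounds_num2 : 16180339888 ^ 1597 * 10000000 ^ 4181 < 12017834 ^ 4181 * 10000000000 ^ 1597 := by
  decide +kernel

theorem cc_bounds : 1.2017833 < cc ∧ cc < 1.2017834 := by
  have hs1 : (2.2360679774 : ℝ) < Real.sqrt 5 := by
    rw [Real.lt_sqrt (by norm_num)]; norm_num
  have hs2 : Real.sqrt 5 < (2.2360679776 : ℝ) := by
    rw [Real.sqrt_lt' (by norm_num)]; norm_num
  have ht1 : (1.6180339887 : ℝ) < tau := by unfold tau; linarith
  have ht2 : tau < (1.6180339888 : ℝ) := by unfold tau; linarith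
  have ht0 : 0 < tau := by linarith
  have ht01 : 1 < tau := by linarith
  constructor
  · have h1 : (1.2017833 : ℝ) ^ 6765 < tau ^ 2584 := by
      have h2 := cc_bounds_pow_lt_aux 16180339887 10000000000 12017833 10000000 2584 6765 (by decide) (by decide) cc_bounds_num1
      have e1 : (((12017833 : ℕ) : ℝ) / ((10000000 : ℕ) : ℝ)) = 1.2017833 := by norm_num
      have e2 : (((16180339887 : ℕ) : ℝ) / ((10000000000 : ℕ) : ℝ)) = 1.6180339887 := by norm_num
      rw [e1, e2] at h2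
      exact h2.trans_le (pow_le_pow_left₀ (by norm_num) ht1.le _)
    have h3 := cc_bounds_low_aux tau 1.2017833 ht0 2584 6765 (by decide) h1
    refine h3.trans ?_
    unfold cc
    apply Real.rpow_lt_rpow_of_exponent_lt ht01
    have : (((2584 : ℕ) : ℝ) / ((6765 : ℕ) : ℝ)) < 2 - 1.6180339888 := by norm_num
    linarith
  · have h1 : tau ^ 1597 < (1.2017834 : ℝ) ^ 4181 := by
      have h2 := cc_bounds_pow_lt_aux 12017834 10000000 16180339888 10000000000 4181 1597 (by decide) (by decide) cc_bounds_num2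
      have e1 : (((12017834 : ℕ) : ℝ) / ((10000000 : ℕ) : ℝ)) = 1.2017834 := by norm_num
      have e2 : (((16180339888 : ℕ) : ℝ) / ((10000000000 : ℕ) : ℝ)) = 1.6180339888 := by norm_num
      rw [e1, e2] at h2
      exact (pow_le_pow_left₀ ht0.le ht2.le _).trans_lt h2
    have h3 := cc_bounds_up_aux tau 1.2017834 ht0 (by norm_num) 1597 4181 (by decide) h1
    refine lt_trans ?_ h3
    unfold cc
    apply Real.rpow_lt_rpow_of_exponent_lt ht01
    have : 2 - 1.6180339887 < (((1597 : ℕ) : ℝ) / ((4181 : ℕ) : ℝ)) := by norm_num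
    linarith

end Pool.Agent.MP64d899
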