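import Pool.Agent.MP64d899.Defs
import Pool.Agent.MP64d899.L_tau_facts
import Pool.Agent.MP64d899.L_cc_bounds
set_option autoImplicit false
namespace Pool.Agent.MP64d899

theorem sum_phi_sum_phi_tan {x y : ℝ} (hx : 0 < x) (hy : 0 ≤ y) :
    x ^ tau + tau * x ^ pp * (y - x) ≤ y ^ tau := by
  have ht := tau_facts
  have h1 : 1 + tau * ((y - x) / x) ≤ (1 + (y - x) / x) ^ tau := by
    refine one_add_mul_self_le_rpow_one_add ?_ (by linarith [ht.1])
    rw [le_div_iff₀ hx]
    linarith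
  have e1 : 1 + (y - x) / x = y / x := by
    field_simp
    ring
  rw [e1, Real.div_rpow hy hx.le] at h1
  have hxt : 0 < x ^ tau := Real.rpow_pos_of_pos hx _
  rw [le_div_iff₀ hxt] at h1
  refine le_trans (le_of_eq ?_) h1
  have e2 : x ^ pp = x ^ tau / x := by
    unfold pp
    rw [Real.rpow_sub hx, Real.rpow_one]
  rw [e2]
  field_simp

theorem sum_phi : ∀ n : ℕ, 1 ≤ n → cc / tau * (n : ℝ) ^ tau ≤ ∑ k ∈ Finset.Icc 1 n, cc * (k : ℝ) ^ pp ∧
    ∑ k ∈ Finset.Icc 1 n, cc * (k : ℝ) ^ pp ≤ cc / tau * (n : ℝ) ^ tau + cc * (n : ℝ) ^ pp := by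
  have ht := tau_facts
  have hc := cc_bounds
  have ht0 : 0 < tau := by linarith [ht.1]
  have hc0 : 0 < cc := by linarith [hc.1]
  have hct : 0 < cc / tau := div_pos hc0 ht0
  intro n hn
  induction n, hn using Nat.le_induction with
  | base =>
    simp only [Finset.Icc_self, Finset.sum_singleton, Nat.cast_one, Real.one_rpow, mul_one]
    refine ⟨?_, by linarith⟩
    rw [div_le_iff₀ ht0]
    nlinarith [ht.1]
  | succ n hn ih =>
    obtain ⟨ih1, ih2⟩ := ih
    have hn0 : (0 : ℝ) < n := by exact_mod_cast hn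
    rw [Finset.sum_Icc_succ_top (by omega)]
    have hcast : ((n + 1 : ℕ) : ℝ) = (n : ℝ) + 1 := by push_cast; ring
    rw [hcast]
    have t1 := sum_phi_sum_phi_tan (x := (n : ℝ) + 1) (y := n) (by linarith) hn0.le
    have t2 := sum_phi_sum_phi_tan (x := (n : ℝ)) (y := (n : ℝ) + 1) hn0 (by linarith)
    have e1 : ((n : ℝ) - ((n : ℝ) + 1)) = -1 := by ring
    have e2 : ((n : ℝ) + 1 - (n : ℝ)) = 1 := by ring
    rw [e1] at t1
    rw [e2] at t2
    have s1 : cc / tau * (((n : ℝ) + 1) ^ tau) ≤ cc / tau * (n : ℝ) ^ tau +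
        cc * ((n : ℝ) + 1) ^ pp := by
      have h := mul_le_mul_of_nonneg_left t1 hct.le
      have e : cc / tau * (((n : ℝ) + 1) ^ tau + tau * ((n : ℝ) + 1) ^ pp * -1) =
          cc / tau * ((n : ℝ) + 1) ^ tau - cc * ((n : ℝ) + 1) ^ pp := by
        field_simp
        ring
      rw [e] at h
      linarith
    have s2 : cc / tau * (n : ℝ) ^ tau + cc * (n : ℝ) ^ pp ≤
        cc / tau * ((n : ℝ) + 1) ^ tau := by
      have h := mul_le_mul_of_nonneg_left t2 hct.le
      have e : cc / tau * ((n : ℝ) ^ tau + tau * (n : ℝ) ^ pp * 1) =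
          cc / tau * (n : ℝ) ^ tau + cc * (n : ℝ) ^ pp := by
        field_simp
      rw [e] at h
      linarith
    constructor
    · linarith
    · linarith

end Pool.Agent.MP64d899
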