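import Pool.Agent.MP64d899.Defs
import Pool.Agent.MP64d899.L_sum_phi
set_option autoImplicit false
namespace Pool.Agent.MP64d899

theorem Fs_SS {f : ℕ → ℕ} (hf : IsGol f) : ∀ n : ℕ, 1 ≤ n → SS f n ≤ (Fs f n : ℝ) - cc / tau * (n : ℝ) ^ tau ∧
    (Fs f n : ℝ) - cc / tau * (n : ℝ) ^ tau ≤ SS f n + cc * (n : ℝ) ^ pp := by
  intro n hn
  obtain ⟨h1, h2⟩ := sum_phi n hn
  have h3 : SS f n = (Fs f n : ℝ) - ∑ k ∈ Finset.Icc 1 n, cc * (k : ℝ) ^ pp := by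
    unfold SS EE Fs
    rw [Finset.sum_sub_distrib]
    push_cast
    rfl
  rw [h3]
  constructor <;> linarith

end Pool.Agent.MP64d899
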