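import Pool.Agent.MP64d899.Defs
set_option autoImplicit false
namespace Pool.Agent.MP64d899

theorem gol_pos {f : ℕ → ℕ} (hf : IsGol f) : ∀ m, 1 ≤ m → 1 ≤ f m := by
  intro m hm
  have h := hf.mono 1 m le_rfl hm
  rw [hf.one] at h
  exact h

end Pool.Agent.MP64d899
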