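import Pool.Agent.MP64d899.Defs
import Pool.Agent.MP64d899.L_gol_pos
set_option autoImplicit false
namespace Pool.Agent.MP64d899

theorem gol_le_iff_gol_le_iff_card {f : ℕ → ℕ} (hf : IsGol f) : ∀ n : ℕ,
    {m : ℕ | 1 ≤ m ∧ f m ≤ n}.Finite ∧ {m : ℕ | 1 ≤ m ∧ f m ≤ n}.ncard = Fs f n := by
  intro n
  induction n with
  | zero =>
    have h : {m : ℕ | 1 ≤ m ∧ f m ≤ 0} = ∅ := by
      ext m
      simp only [Set.mem_setOf_eq, Set.mem_empty_iff_false, iff_false, not_and]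
      intro hm h
      have := gol_pos hf m hm
      omega
    rw [h]
    exact ⟨Set.finite_empty, by simp [Fs]⟩
  | succ n ih =>
    have h : {m : ℕ | 1 ≤ m ∧ f m ≤ n + 1}
        = {m : ℕ | 1 ≤ m ∧ f m ≤ n} ∪ {m : ℕ | 1 ≤ m ∧ f m = n + 1} := by
      ext m
      simp only [Set.mem_setOf_eq, Set.mem_union]
      omega
    have hc := hf.cnt (n + 1) (by omega)
    have hp := gol_pos hf (n + 1) (by omega)
    have hfin : {m : ℕ | 1 ≤ m ∧ f m = n + 1}.Finite := by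
      apply Set.finite_of_ncard_ne_zero
      omega
    have hdis : Disjoint {m : ℕ | 1 ≤ m ∧ f m ≤ n} {m : ℕ | 1 ≤ m ∧ f m = n + 1} := by
      rw [Set.disjoint_left]
      rintro m ⟨_, h1⟩ ⟨_, h2⟩
      omega
    rw [h]
    refine ⟨ih.1.union hfin, ?_⟩
    rw [Set.ncard_union_eq hdis ih.1 hfin, ih.2, ← hc]
    unfold Fs
    rw [Finset.sum_Icc_succ_top (by omega)]

theorem gol_le_iff {f : ℕ → ℕ} (hf : IsGol f) : ∀ m n : ℕ, 1 ≤ m → 1 ≤ n → (f m ≤ n ↔ m ≤ Fs f n) := by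
  intro m n hm hn
  obtain ⟨hfin, hcard⟩ := gol_le_iff_gol_le_iff_card hf n
  constructor
  · intro h
    have hsub : (Finset.Icc 1 m : Set ℕ) ⊆ {m : ℕ | 1 ≤ m ∧ f m ≤ n} := by
      intro x hx
      rw [Finset.mem_coe, Finset.mem_Icc] at hx
      exact ⟨hx.1, (hf.mono x m hx.1 hx.2).trans h⟩
    have := Set.ncard_le_ncard hsub hfin
    rw [Set.ncard_coe_finset, Nat.card_Icc, hcard] at this
    omega
  · intro h
    by_contra hlt
    have hsub : {m : ℕ | 1 ≤ m ∧ f m ≤ n} ⊆ (Finset.Icc 1 (m - 1) : Set ℕ) := by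
      rintro x ⟨hx1, hx2⟩
      rw [Finset.mem_coe, Finset.mem_Icc]
      refine ⟨hx1, ?_⟩
      by_contra hxm
      have := hf.mono m x hm (by omega)
      omega
    have := Set.ncard_le_ncard hsub (Finset.finite_toSet _)
    rw [Set.ncard_coe_finset, Nat.card_Icc, hcard] at this
    omega

end Pool.Agent.MP64d899
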