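import Pool.Agent.MP64d899.Defs
import Pool.Agent.MP64d899.L_gol_pos
import Pool.Agent.MP64d899.L_gol_le_iff
set_option autoImplicit false
namespace Pool.Agent.MP64d899

theorem gol_fiber {f : ℕ → ℕ} (hf : IsGol f) : ∀ n m : ℕ, Fs f n < m → m ≤ Fs f (n + 1) → f m = n + 1 := by
  intro n m h1 h2
  have hm : 1 ≤ m := by omega
  have h3 : f m ≤ n + 1 := (gol_le_iff hf m (n + 1) hm (by omega)).2 h2
  rcases Nat.eq_zero_or_pos n with h0 | h0
  · have h4 := gol_pos hf m hm
    omega
  · have h5 : ¬ f m ≤ n := fun h => by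
      have := (gol_le_iff hf m n hm h0).1 h
      omega
    omega

end Pool.Agent.MP64d899
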