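import Pool.Agent.MP64d899.Defs
import Pool.Agent.MP64d899.L_gol_pos
import Pool.Agent.MP64d899.L_gol_le_iff
import Pool.Agent.MP64d899.L_gol_fiber
set_option autoImplicit false
namespace Pool.Agent.MP64d899

lemma gol_next_Fs_succ' (f : ℕ → ℕ) (n : ℕ) : Fs f (n + 1) = Fs f n + f (n + 1) := by
  unfold Fs
  rw [Finset.sum_Icc_succ_top (by omega)]

lemma gol_next_gol_two {f : ℕ → ℕ} (hf : IsGol f) : f 2 = 2 := by
  -- count of 1 is f 1 = 1, so f 2 ≠ 1, hence f 2 ≥ 2; f 2 ≤ 2 by gol_fiber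
  have hF1 : Fs f 1 = 1 := by simp [Fs, hf.one]
  have hF2 : Fs f 2 = 1 + f 2 := by rw [gol_next_Fs_succ', hF1]
  have h2 := gol_pos hf 2 (by norm_num)
  have := gol_fiber hf 1 2 (by rw [hF1]; norm_num) (by rw [hF2]; omega)
  simpa using this

theorem gol_next {f : ℕ → ℕ} (hf : IsGol f) : (∀ j, 1 ≤ j → f (j + 1) ≤ f j + 1) ∧ (∀ n, 1 ≤ n → f (Fs f n) = n) ∧ (∀ n, Fs f n < Fs f (n + 1)) ∧ (∀ n, n ≤ Fs f n) ∧ (∀ n, 2 ≤ n → n < Fs f n) := by
  have hlt : ∀ n, Fs f n < Fs f (n + 1) := by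
    intro n
    rw [gol_next_Fs_succ']
    have := gol_pos hf (n + 1) (by omega)
    omega
  have hF : ∀ n, 1 ≤ n → f (Fs f n) = n := by
    intro n hn
    obtain ⟨m, rfl⟩ : ∃ m, n = m + 1 := ⟨n - 1, by omega⟩
    exact gol_fiber hf m (Fs f (m + 1)) (hlt m) le_rfl
  have hle : ∀ n, n ≤ Fs f n := by
    intro n
    induction n with
    | zero => omega
    | succ n ih => have := hlt n; omega
  refine ⟨?_, hF, hlt, hle, ?_⟩
  · intro j hj
    have h1 := gol_pos hf j hj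
    have hjle : j ≤ Fs f (f j) := (gol_le_iff hf j (f j) hj h1).1 le_rfl
    have h2 : j + 1 ≤ Fs f (f j + 1) := by have := hlt (f j); omega
    exact (gol_le_iff hf (j + 1) (f j + 1) (by omega) (by omega)).2 h2
  · intro n hn
    induction n, hn using Nat.le_induction with
    | base =>
      have hF1 : Fs f 1 = 1 := by simp [Fs, hf.one]
      have : Fs f 2 = 1 + f 2 := by rw [gol_next_Fs_succ', hF1]
      rw [this, gol_next_gol_two hf]; norm_num
    | succ n _ ih => have := hlt n; omega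

end Pool.Agent.MP64d899
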