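import Pool.Agent.MP64d899.Defs
import Pool.Agent.MP64d899.L_gol_pos
import Pool.Agent.MP64d899.L_gol_fiber
import Pool.Agent.MP64d899.L_gol_next
set_option autoImplicit false
namespace Pool.Agent.MP64d899

theorem Ns_succ_Nss_Fs_succ (f : ℕ → ℕ) (n : ℕ) : Fs f (n + 1) = Fs f n + f (n + 1) := by
  unfold Fs
  rw [Finset.sum_Icc_succ_top (by omega)]


theorem Ns_succ {f : ℕ → ℕ} (hf : IsGol f) : ∀ j, Ns f (j + 1) = Ns f j + (j + 1) * f (j + 1) := by
  intro j
  have key : ∀ c, c ≤ f (j + 1) → Fs f (Fs f j + c) = Fs f (Fs f j) + c * (j + 1) := by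
    intro c
    induction c with
    | zero => intro _; simp
    | succ c ih =>
      intro hc
      have h1 := ih (by omega)
      have h2 := gol_fiber hf j (Fs f j + c + 1) (by omega) (by rw [Ns_succ_Nss_Fs_succ]; omega)
      rw [← add_assoc, Ns_succ_Nss_Fs_succ, h1, h2]
      ring
  have h3 := key (f (j + 1)) (le_refl _)
  unfold Ns
  rw [Ns_succ_Nss_Fs_succ f j, h3]
  ring

end Pool.Agent.MP64d899
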