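import Pool.Agent.MP64d899.Defs
import Pool.Agent.MP64d899.L_gol_pos
import Pool.Agent.MP64d899.L_gol_le_iff
import Pool.Agent.MP64d899.L_gol_next
import Pool.Agent.MP64d899.L_Ns_succ
set_option autoImplicit false
namespace Pool.Agent.MP64d899

theorem Fs_between {f : ℕ → ℕ} (hf : IsGol f) : ∀ j n : ℕ, 1 ≤ j → Ns f j ≤ n → n ≤ Ns f (j + 1) →
    Ms f j + (n - Ns f j) * Fs f j ≤ Fs f n ∧ Fs f n ≤ Ms f j + (n - Ns f j) * Fs f (j + 1) ∧ Fs f n ≤ Ms f (j + 1) ∧
    Ms f (j + 1) ≤ Ms f j + (Ns f (j + 1) - Ns f j) * Fs f (j + 1) := by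
  intro j n hj h1 h2
  obtain ⟨_, _, g3, g4, _⟩ := gol_next hf
  have hmono : StrictMono (Fs f) := strictMono_nat_of_lt_succ g3
  have hFj : 1 ≤ Fs f j := le_trans hj (g4 j)
  have hFj1 : 1 ≤ Fs f (j + 1) := le_trans (by omega) (g4 (j + 1))
  have hstep : ∀ m, Fs f (m + 1) = Fs f m + f (m + 1) := by
    intro m
    unfold Fs
    rw [Finset.sum_Icc_succ_top (by omega)]
  have hk : ∀ k, Ns f j < k → k ≤ Ns f (j + 1) → Fs f j ≤ f k ∧ f k ≤ Fs f (j + 1) := by
    intro k hk1 hk2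
    have hkpos : 1 ≤ k := by omega
    constructor
    · by_contra hcon
      push Not at hcon
      have := (gol_le_iff hf k (Fs f j) hkpos hFj).1 hcon.le
      have h3 : Fs f (Fs f j) = Ns f j := rfl
      omega
    · exact (gol_le_iff hf k (Fs f (j + 1)) hkpos hFj1).2 hk2
  have key : ∀ t, Ns f j + t ≤ Ns f (j + 1) → Ms f j + t * Fs f j ≤ Fs f (Ns f j + t) ∧
      Fs f (Ns f j + t) ≤ Ms f j + t * Fs f (j + 1) := by
    intro t
    induction t with
    | zero =>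
      intro _
      simp only [Nat.zero_mul, Nat.add_zero]
      exact ⟨le_rfl, le_rfl⟩
    | succ t ih =>
      intro ht
      obtain ⟨i1, i2⟩ := ih (by omega)
      obtain ⟨k1, k2⟩ := hk (Ns f j + t + 1) (by omega) (by omega)
      have e1 : Fs f (Ns f j + (t + 1)) = Fs f (Ns f j + t) + f (Ns f j + t + 1) :=
        hstep (Ns f j + t)
      rw [e1]
      have e2 : (t + 1) * Fs f j = t * Fs f j + Fs f j := by ring
      have e3 : (t + 1) * Fs f (j + 1) = t * Fs f (j + 1) + Fs f (j + 1) := by ring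
      rw [e2, e3]
      omega
  obtain ⟨a1, a2⟩ := key (n - Ns f j) (by omega)
  have e4 : Ns f j + (n - Ns f j) = n := by omega
  rw [e4] at a1 a2
  obtain ⟨b1, b2⟩ := key (Ns f (j + 1) - Ns f j) (by omega)
  have e5 : Ns f j + (Ns f (j + 1) - Ns f j) = Ns f (j + 1) := by omega
  rw [e5] at b1 b2
  exact ⟨a1, a2, hmono.monotone h2, b2⟩

end Pool.Agent.MP64d899
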