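import Pool.Agent.MP64d899.Defs
import Pool.Agent.MP64d899.L_tau_facts
import Pool.Agent.MP64d899.L_cc_bounds
set_option autoImplicit false
namespace Pool.Agent.MP64d899

theorem key_E (x F : ℝ) (hx : 1 ≤ x) (hF : 0 < F) :
    -((F - cc / tau * x ^ tau) / (cc * x ^ pp)) ≤ x - cc * F ^ pp ∧
    x - cc * F ^ pp ≤ -((F - cc / tau * x ^ tau) / (cc * x ^ pp)) * ((cc / tau * x ^ tau) / F) := by
  obtain ⟨ht1, ht2, ht3, ht4, hp1, hp2⟩ := tau_facts
  obtain ⟨hc1, hc2⟩ := cc_bounds
  have hc : 0 < cc := by linarith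
  have ht : 0 < tau := by linarith
  have hp : 0 < pp := by linarith
  have hx0 : 0 < x := by linarith
  have hcc : cc ^ tau = tau ^ pp := by
    have h1 : cc = tau ^ (2 - tau) := rfl
    rw [h1, ← Real.rpow_mul ht.le]
    congr 1
    have : pp = tau - 1 := rfl
    rw [this]
    nlinarith
  obtain ⟨I, hI⟩ : ∃ I, I = cc / tau * x ^ tau := ⟨_, rfl⟩
  have hIpos : 0 < I := by rw [hI]; positivity
  have hIp : cc * I ^ pp = x := by
    rw [hI, Real.mul_rpow (by positivity) (by positivity), Real.div_rpow hc.le ht.le,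
      ← Real.rpow_mul hx0.le, mul_comm tau pp, ht4, Real.rpow_one]
    have h2 : cc * cc ^ pp = tau ^ pp := by
      rw [← hcc]
      have : tau = 1 + pp := by
        have : pp = tau - 1 := rfl
        rw [this]; ring
      rw [this, Real.rpow_add hc, Real.rpow_one]
    have h3 : tau ^ pp ≠ 0 := (Real.rpow_pos_of_pos ht pp).ne'
    field_simp
    rw [h2]
  have hxI : I / (cc * x ^ pp) = pp * x := by
    have h1 : x ^ tau = x ^ pp * x := by
      have : tau = pp + 1 := by
        have : pp = tau - 1 := rfl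
        rw [this]; ring
      rw [this, Real.rpow_add hx0, Real.rpow_one]
    have h2 : x ^ pp ≠ 0 := (Real.rpow_pos_of_pos hx0 pp).ne'
    rw [hI, h1]
    have h3 : pp = 1 / tau := by
      rw [eq_div_iff ht.ne']; exact ht4
    have h4 : cc / tau * (x ^ pp * x) / (cc * x ^ pp) = (1 / tau) * x := by
      field_simp
    rw [h4, ← h3]
  obtain ⟨t, htt⟩ : ∃ t, t = F / I - 1 := ⟨_, rfl⟩
  have hF1 : F = I * (1 + t) := by rw [htt]; field_simp; ring
  have h1t : 0 < 1 + t := by
    have : 0 < F / I := div_pos hF hIpos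
    rw [htt]; linarith
  have hFp : cc * F ^ pp = x * (1 + t) ^ pp := by
    rw [hF1, Real.mul_rpow hIpos.le h1t.le, ← mul_assoc, hIp]
  have hd : (F - I) / (cc * x ^ pp) = pp * x * t := by
    have : F - I = I * t := by rw [hF1]; ring
    rw [this, mul_div_right_comm, hxI]
  rw [← hI, hd, hFp]
  have hb1 : (1 + t) ^ pp ≤ 1 + pp * t :=
    rpow_one_add_le_one_add_mul_self (by linarith) hp.le (by linarith)
  constructor
  · nlinarith [mul_le_mul_of_nonneg_left hb1 hx0.le]
  · have hIF : I / F = 1 / (1 + t) := by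
      rw [hF1]; field_simp
    rw [hIF]
    obtain ⟨z, hz⟩ : ∃ z, z = pp * (t / (1 + t)) := ⟨_, rfl⟩
    have hb2 : ((1 + t)⁻¹) ^ pp ≤ 1 - z := by
      have h5 : (1 + t)⁻¹ = 1 + (-(t / (1 + t))) := by field_simp; ring
      have h6 : (-1 : ℝ) ≤ -(t / (1 + t)) := by
        have : 0 < (1 + t)⁻¹ := inv_pos.2 h1t
        linarith
      have h7 := rpow_one_add_le_one_add_mul_self h6 hp.le (by linarith : pp ≤ 1)
      rw [← h5] at h7
      rw [hz]; linarith
    have hup : 0 < (1 + t) ^ pp := Real.rpow_pos_of_pos h1t pp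
    rw [Real.inv_rpow h1t.le] at hb2
    have hz1 : 0 < 1 - z := lt_of_lt_of_le (inv_pos.2 hup) hb2
    have hb3 : 1 + z ≤ (1 + t) ^ pp := by
      have h8 : (1 - z)⁻¹ ≤ (1 + t) ^ pp := by
        rw [inv_le_comm₀ hz1 hup]; exact hb2
      refine le_trans ?_ h8
      rw [← one_div, le_div_iff₀ hz1]
      nlinarith [sq_nonneg z]
    have e : -(pp * x * t) * (1 / (1 + t)) = -(x * z) := by
      rw [hz]; field_simp
    rw [e]
    nlinarith [mul_le_mul_of_nonneg_left hb3 hx0.le]

end Pool.Agent.MP64d899
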