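import Pool.Agent.MP64d899.Defs
import Pool.Agent.MP64d899.L_tau_facts
import Pool.Agent.MP64d899.L_cc_bounds
set_option autoImplicit false
namespace Pool.Agent.MP64d899

theorem log_ct_log_ct_tau : 0.4812 < Real.log tau ∧ Real.log tau < 0.48123 := by
  obtain ⟨h1, h2, h3, -, -, -⟩ := tau_facts
  have h0 : 0 < tau := by linarith
  have h4 : tau ^ 4 = 3 * tau + 2 := by
    have : tau ^ 4 = (tau ^ 2) ^ 2 := by ring
    rw [this, h3]
    have : (tau + 1) ^ 2 = tau ^ 2 + 2 * tau + 1 := by ring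
    rw [this, h3]
    ring
  have h8 : tau ^ 8 = 21 * tau + 13 := by
    have : tau ^ 8 = (tau ^ 4) ^ 2 := by ring
    rw [this, h4]
    have : (3 * tau + 2) ^ 2 = 9 * tau ^ 2 + 12 * tau + 4 := by ring
    rw [this, h3]
    ring
  have h13 : tau ^ 13 = 233 * tau + 144 := by
    have : tau ^ 13 = tau ^ 8 * tau ^ 4 * tau := by ring
    rw [this, h8, h4]
    have : (21 * tau + 13) * (3 * tau + 2) * tau = 63 * (tau ^ 2) * tau + 81 * tau ^ 2 + 26 * tau := by
      ring
    rw [this, h3]
    have : 63 * (tau + 1) * tau + 81 * (tau + 1) + 26 * tau = 63 * tau ^ 2 + 170 * tau + 81 := by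
      ring
    rw [this, h3]
    ring
  have hlog : 13 * Real.log tau = 9 * Real.log 2 + Real.log (tau ^ 13 / 512) := by
    rw [Real.log_div (by positivity) (by norm_num), Real.log_pow]
    have : (512 : ℝ) = 2 ^ 9 := by norm_num
    rw [this, Real.log_pow]
    push_cast
    ring
  have hb1 : (1.01758 : ℝ) < tau ^ 13 / 512 := by
    rw [h13, lt_div_iff₀ (by norm_num)]
    linarith
  have hb2 : tau ^ 13 / 512 < (1.01759 : ℝ) := by
    rw [h13, div_lt_iff₀ (by norm_num)]
    linarith
  have hpos : 0 < tau ^ 13 / 512 := by linarith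
  have hu := Real.log_le_sub_one_of_pos hpos
  have hl := Real.one_sub_inv_le_log_of_pos hpos
  have hinv : (tau ^ 13 / 512)⁻¹ ≤ (1.01758 : ℝ)⁻¹ := inv_anti₀ (by norm_num) hb1.le
  have hinv2 : (1.01758 : ℝ)⁻¹ ≤ 0.98273 := by norm_num
  have l1 := Real.log_two_gt_d9
  have l2 := Real.log_two_lt_d9
  constructor
  · linarith
  · linarith

theorem log_ct : -0.2975 < Real.log (cc / tau) ∧ Real.log (cc / tau) < -0.2973 := by
  obtain ⟨h1, h2, -, -, -, -⟩ := tau_facts
  obtain ⟨l1, l2⟩ := log_ct_log_ct_tau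
  have h0 : 0 < tau := by linarith
  have h3 : Real.log (cc / tau) = -((tau - 1) * Real.log tau) := by
    unfold cc
    rw [Real.log_div (by positivity) h0.ne', Real.log_rpow h0]
    ring
  rw [h3]
  constructor
  · nlinarith
  · nlinarith

end Pool.Agent.MP64d899
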