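import Pool.Agent.MP64d899.Defs
import Pool.Agent.MP64d899.L_tau_facts
import Pool.Agent.MP64d899.L_cc_bounds
import Pool.Agent.MP64d899.L_log_ct
import Pool.Agent.MP64d899.L_log_vals
import Pool.Agent.MP64d899.L_key_E
set_option autoImplicit false
namespace Pool.Agent.MP64d899

theorem G2_g2_a {L l s x : ℝ} (h0 : L = 2 * l) (h : l ≤ s - 1) (h' : 31622 * s ≤ x) :
    15811 * L ≤ x := by linarith

theorem G2_g2_b {L x y : ℝ} (h0 : 0 ≤ L) (h : 15811 * L ≤ x) (h' : y ≤ 1.9446 * L) :
    y ≤ 0.000124 * x := by linarith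

theorem G2_g2_c {E a b : ℝ} (h : E ≤ -(a * b)) : E + a ≤ a * (1 - b) := by
  rw [mul_sub, mul_one]
  linarith

theorem G2_g2_d {L : ℝ} (h : 20 ≤ L) : 0.007 ≤ 0.00035 * L := by linarith

theorem G2_g2_e {s q : ℝ} (h : q ≤ 0.00035) : (s + 1) * q ≤ q * s + 1 := by
  rw [add_mul, one_mul, mul_comm s q]
  linarith

theorem G2_g2_f {E t L x : ℝ} (h : E ≤ 1.00035 * t + 2) (h1 : t * L ≤ 0.00361 * x)
    (h2 : 15811 * L ≤ x) (h0 : 0 ≤ L) : E * L ≤ 0.004 * x := by
  have h3 := mul_le_mul_of_nonneg_right h h0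
  have e : (1.00035 * t + 2) * L = 1.00035 * (t * L) + 2 * L := by ring
  rw [e] at h3
  linarith

theorem G2 (x S F : ℝ) (hx : 10 ^ 9 ≤ x) (hS : |S| ≤ 0.007 * WU x) (h1 : S ≤ F - cc / tau * x ^ tau)
    (h2 : F - cc / tau * x ^ tau ≤ S + cc * x ^ pp) :
    0 < F ∧ |(x - cc * F ^ pp) + S / (cc * x ^ pp)| ≤ 0.007 / Real.log x * (|S| / (cc * x ^ pp)) + 2 ∧
    |S| / (cc * x ^ pp) ≤ 0.007 / (cc * tau) * x / (Real.log x + 1.3) ∧
    |x - cc * F ^ pp| ≤ 0.004 * x / Real.log x ∧
    tau * Real.log x - 0.3 ≤ Real.log F ∧ Real.log F ≤ tau * Real.log x - 0.29 := by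
  obtain ⟨ht1, ht2, ht3, ht4, ht5, ht6⟩ := tau_facts
  obtain ⟨hc1, hc2⟩ := cc_bounds
  obtain ⟨hl1, hl2⟩ := log_ct
  have hexp20 : Real.exp 20 < 10 ^ 9 := log_vals.2.2.2.2.2.2
  have hxpos : 0 < x := by linarith [show (0:ℝ) < 10 ^ 9 by norm_num]
  have hx1 : 1 ≤ x := by linarith [show (1:ℝ) ≤ 10 ^ 9 by norm_num]
  have hL : 20 ≤ Real.log x := by
    rw [Real.le_log_iff_exp_le hxpos]
    linarith
  have hLdef : Real.log x = 2 * Real.log (Real.sqrt x) := by
    rw [Real.log_sqrt hxpos.le]; ring
  have hsq : Real.sqrt x * Real.sqrt x = x := Real.mul_self_sqrt hxpos.le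
  have hsqpos : 0 < Real.sqrt x := Real.sqrt_pos.mpr hxpos
  have hsq2 : (31622:ℝ) ≤ Real.sqrt x := by
    apply Real.le_sqrt_of_sq_le
    have : (31622:ℝ) ^ 2 ≤ 10 ^ 9 := by norm_num
    linarith
  have hLx : 15811 * Real.log x ≤ x := by
    have h := Real.log_le_sub_one_of_pos hsqpos
    have h' := mul_le_mul_of_nonneg_right hsq2 hsqpos.le
    rw [hsq] at h'
    exact G2_g2_a hLdef h h'
  set L := Real.log x with hLd
  set P := x ^ pp with hP
  have hPpos : 0 < P := Real.rpow_pos_of_pos hxpos _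
  have htau : x ^ tau = x * P := by
    have : tau = 1 + pp := by unfold pp; ring
    rw [this, Real.rpow_add hxpos, Real.rpow_one]
  have hcpos : 0 < cc := by linarith
  have htpos : 0 < tau := by linarith
  have hWU : WU x = x * P / (tau * (L + 1.3)) := by
    unfold WU; rw [htau]
  rw [hWU] at hS
  rw [htau] at h1 h2
  have hkey := fun hF => key_E x F hx1 hF
  rw [htau, ← hP] at hkey
  have hL13 : 0 < L + 1.3 := by linarith
  have hLpos : 0 < L := by linarith
  set I := cc / tau * (x * P) with hI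
  have hIpos : 0 < I := by positivity
  have hPhi : 0 < cc * P := by positivity
  have h3 : |S| / (cc * P) ≤ 0.007 / (cc * tau) * x / (L + 1.3) := by
    rw [div_le_iff₀ hPhi]
    calc |S| ≤ _ := hS
      _ = _ := by field_simp
  -- bound for |S| * L * tau
  have hSL : |S| * (L * tau) ≤ 0.007 * (x * P) := by
    have h : |S| * (L * tau) ≤ 0.007 * (x * P / (tau * (L + 1.3))) * (L * tau) :=
      mul_le_mul_of_nonneg_right hS (by positivity)
    have h' : 0.007 * (x * P / (tau * (L + 1.3))) * (L * tau) = 0.007 * (x * P) * (L / (L + 1.3)) := by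
      field_simp
    have h'' : L / (L + 1.3) ≤ 1 := by
      rw [div_le_one hL13]; linarith
    have h5 : 0.007 * (x * P) * (L / (L + 1.3)) ≤ 0.007 * (x * P) * 1 :=
      mul_le_mul_of_nonneg_left h'' (by positivity)
    linarith
  have hPL : cc * P * (L * tau) ≤ 0.000124 * (x * P) := by
    have h1 : cc * tau ≤ 1.9446 :=
      (mul_le_mul hc2.le ht2.le htpos.le (by norm_num)).trans (by norm_num)
    have h2 : cc * tau * L ≤ 0.000124 * x := by
      have : cc * tau * L ≤ 1.9446 * L := mul_le_mul_of_nonneg_right h1 hLpos.le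
      exact G2_g2_b hLpos.le hLx this
    calc cc * P * (L * tau) = (cc * tau * L) * P := by ring
      _ ≤ (0.000124 * x) * P := mul_le_mul_of_nonneg_right h2 hPpos.le
      _ = _ := by ring
  have hGabs : |F - I| ≤ |S| + cc * P := by
    rw [abs_le]
    constructor
    · linarith [neg_abs_le S]
    · linarith [le_abs_self S]
  have hGI : |F - I| * L ≤ 0.006 * I := by
    have hx : |F - I| * (L * tau) ≤ (|S| + cc * P) * (L * tau) :=
      mul_le_mul_of_nonneg_right hGabs (by positivity)
    have hIt : I * tau = cc * (x * P) := by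
      rw [hI]; field_simp
    have hxP : 0 < x * P := by positivity
    have : |F - I| * L * tau ≤ 0.006 * I * tau := by
      have e1 : 0.006 * I * tau = 0.006 * (cc * (x * P)) := by rw [← hIt]; ring
      rw [e1]
      have e2 : |F - I| * (L * tau) = |F - I| * L * tau := by ring
      have e3 : (|S| + cc * P) * (L * tau) = |S| * (L * tau) + cc * P * (L * tau) := by ring
      have e4 : 1.2017833 * (x * P) ≤ cc * (x * P) := mul_le_mul_of_nonneg_right hc1.le hxP.le
      linarith
    exact le_of_mul_le_mul_right this htpos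
  have hGI2 : |F - I| ≤ 0.0003 * I := by
    have := mul_le_mul_of_nonneg_left hL (abs_nonneg (F - I))
    linarith
  have hFpos : 0 < F := by
    have := (abs_le.mp hGI2).1
    linarith
  have hFI : 0.9997 * I ≤ F := by
    have := (abs_le.mp hGI2).1
    linarith
  have hFI2 : F ≤ 1.0003 * I := by
    have := (abs_le.mp hGI2).2
    linarith
  have hGF : |F - I| / F ≤ 0.007 / L := by
    rw [div_le_div_iff₀ hFpos hLpos]
    linarith
  obtain ⟨hk1, hk2⟩ := hkey hFpos
  set E0 := x - cc * F ^ pp with hE0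
  have hupper : E0 + (F - I) / (cc * P) ≤ (|F - I| / (cc * P)) * (|F - I| / F) := by
    have e : (|F - I| / (cc * P)) * (|F - I| / F) = ((F - I) / (cc * P)) * ((F - I) / F) := by
      rw [div_mul_div_comm, div_mul_div_comm, abs_mul_abs_self]
    have e2 : (F - I) / F = 1 - I / F := by
      field_simp
    rw [e, e2]
    have : -((F - I) / (cc * P)) * (I / F) = - ((F - I) / (cc * P) * (I / F)) := by ring
    rw [this] at hk2
    exact G2_g2_c hk2
  have hlower : 0 ≤ E0 + (F - I) / (cc * P) := by linarith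
  have hq1 : 0 ≤ ((F - I) - S) / (cc * P) := div_nonneg (by linarith) hPhi.le
  have hq2 : ((F - I) - S) / (cc * P) ≤ 1 := by
    rw [div_le_one hPhi]; linarith
  have hq : ((F - I) - S) / (cc * P) = (F - I) / (cc * P) - S / (cc * P) := by ring
  have hGPhi : |F - I| / (cc * P) ≤ |S| / (cc * P) + 1 := by
    rw [div_add_one hPhi.ne', div_le_div_iff_of_pos_right hPhi]
    exact hGabs
  have hSn : 0 ≤ |S| / (cc * P) := by positivity
  have h07 : 0 < 0.007 / L := by positivity
  have h07' : 0.007 / L ≤ 0.00035 := by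
    rw [div_le_iff₀ hLpos]; exact G2_g2_d hL
  have hprod : (|F - I| / (cc * P)) * (|F - I| / F) ≤ 0.007 / L * (|S| / (cc * P)) + 1 := by
    calc (|F - I| / (cc * P)) * (|F - I| / F) ≤ (|S| / (cc * P) + 1) * (0.007 / L) :=
          mul_le_mul hGPhi hGF (by positivity) (by positivity)
      _ ≤ _ := G2_g2_e h07'
  have hsecond : |E0 + S / (cc * P)| ≤ 0.007 / L * (|S| / (cc * P)) + 2 := by
    have hn : 0 ≤ 0.007 / L * (|S| / (cc * P)) := by positivity
    rw [abs_le]
    constructor
    · linarith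
    · linarith
  refine ⟨hFpos, hsecond, h3, ?_, ?_, ?_⟩
  · -- |E0| ≤ 0.004 x / L
    have hSPhi : |S / (cc * P)| = |S| / (cc * P) := by
      rw [abs_div, abs_of_pos hPhi]
    have htri : |E0| ≤ |E0 + S / (cc * P)| + |S / (cc * P)| := by
      have := abs_sub (E0 + S / (cc * P)) (S / (cc * P))
      simpa using this
    have hb : |E0| ≤ 1.00035 * (|S| / (cc * P)) + 2 := by
      rw [hSPhi] at htri
      have := mul_le_mul_of_nonneg_right h07' hSn
      linarith
    have hSx : |S| / (cc * P) * L ≤ 0.00361 * x := by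
      have hS' : |S| * L ≤ 0.00361 * x * (cc * P) := by
        have : |S| * L * tau ≤ 0.00361 * x * (cc * P) * tau := by
          have hct : 1.9445 ≤ cc * tau :=
            le_trans (by norm_num) (mul_le_mul hc1.le ht1.le (by norm_num) hcpos.le)
          have hxP : 0 < x * P := by positivity
          have e1 : |S| * L * tau = |S| * (L * tau) := by ring
          have e2 : 0.00361 * x * (cc * P) * tau = 0.00361 * ((cc * tau) * (x * P)) := by ring
          have e3 : 1.9445 * (x * P) ≤ (cc * tau) * (x * P) := mul_le_mul_of_nonneg_right hct hxP.le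
          rw [e1, e2]
          linarith
        exact le_of_mul_le_mul_right this htpos
      rw [div_mul_eq_mul_div, div_le_iff₀ hPhi]
      exact hS'
    rw [le_div_iff₀ hLpos]
    exact G2_g2_f hb hSx hLx hLpos.le
  · have hlogI : Real.log I = Real.log (cc / tau) + tau * L := by
      rw [hI, ← htau, Real.log_mul (by positivity) (by positivity), Real.log_rpow hxpos]
    have : Real.log (0.9997 * I) ≤ Real.log F := Real.log_le_log (by positivity) hFI
    rw [Real.log_mul (by norm_num) hIpos.ne', hlogI] at this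
    have h9 : -0.0004 ≤ Real.log 0.9997 := by
      have := Real.one_sub_inv_le_log_of_pos (show (0:ℝ) < 0.9997 by norm_num)
      have h' : (-0.0004:ℝ) ≤ 1 - (0.9997:ℝ)⁻¹ := by norm_num
      linarith
    linarith
  · have hlogI : Real.log I = Real.log (cc / tau) + tau * L := by
      rw [hI, ← htau, Real.log_mul (by positivity) (by positivity), Real.log_rpow hxpos]
    have : Real.log F ≤ Real.log (1.0003 * I) := Real.log_le_log hFpos hFI2
    rw [Real.log_mul (by norm_num) hIpos.ne', hlogI] at this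
    have h9 : Real.log 1.0003 ≤ 0.0003 := by
      have := Real.log_le_sub_one_of_pos (show (0:ℝ) < 1.0003 by norm_num)
      linarith
    linarith

end Pool.Agent.MP64d899
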