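import Pool.Agent.MP64d899.Defs
import Pool.Agent.MP64d899.L_tau_facts
import Pool.Agent.MP64d899.L_cc_bounds
import Pool.Agent.MP64d899.L_log_vals
import Pool.Agent.MP64d899.L_G2
set_option autoImplicit false
namespace Pool.Agent.MP64d899

/-! helper lemmas for G3 -/
theorem G3_G3_aux1 (l t : ℝ) (ht1 : 1.618033 < t) :
    t * l + 2.1034 ≤ t * (l + 1.3) := by
  have : t * (l + 1.3) = t * l + t * 1.3 := by ring
  linarith

theorem G3_G3_aux2 (l L t : ℝ) (ht1 : 1.618033 < t) (ht2 : t < 1.618034) (hL : L ≤ l + 1e-9) :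
    t * L + 1.71 ≤ t * l + 1.7101 := by
  have h : t * L ≤ t * (l + 1e-9) := mul_le_mul_of_nonneg_left hL (by linarith)
  have : t * (l + 1e-9) = t * l + t * 1e-9 := by ring
  linarith

theorem G3_G3_aux3 (y l t : ℝ) (ht1 : 1.618033 < t) (ht2 : t < 1.618034) (hl : 20 ≤ l)
    (hq : 173288 * l ^ 2 ≤ y) (hy : 0 < y) :
    y * (l + 0.007) * (t * l + 1.7101) + 516 * (l * (t * l + 2.1034) * (t * l + 1.7101))
      ≤ y * (l - 0.004) * (t * l + 2.1034) := by
  have hl0 : 0 < l := by linarith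
  have hta : t * l ≤ 1.618034 * l := mul_le_mul_of_nonneg_right ht2.le hl0.le
  have hta0 : 0 < t * l := mul_pos (by linarith) hl0
  have k1 : (l - 0.004) * (t * l + 2.1034) - (l + 0.007) * (t * l + 1.7101) = 0.3933 * l - 0.011 * (t * l) - 0.0203843 := by
    ring
  have k2 : 0.37 * l ≤ (l - 0.004) * (t * l + 2.1034) - (l + 0.007) * (t * l + 1.7101) := by
    rw [k1]; linarith
  have m1 : t * l + 2.1034 ≤ 1.73 * l := by linarith
  have m2 : t * l + 1.7101 ≤ 1.73 * l := by linarith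
  have m3 : (t * l + 2.1034) * (t * l + 1.7101) ≤ (1.73 * l) * (1.73 * l) :=
    mul_le_mul m1 m2 (by linarith) (by positivity)
  have k3 : 516 * ((t * l + 2.1034) * (t * l + 1.7101)) ≤ 0.37 * y := by
    have e : (1.73 * l) * (1.73 * l) = 2.9929 * l ^ 2 := by ring
    rw [e] at m3
    have hl2 : 0 ≤ l ^ 2 := sq_nonneg l
    linarith
  have k4 := mul_le_mul_of_nonneg_left k2 hy.le
  have k5 := mul_le_mul_of_nonneg_left k3 hl0.le
  have r1 : y * ((l - 0.004) * (t * l + 2.1034) - (l + 0.007) * (t * l + 1.7101))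
    = y * (l - 0.004) * (t * l + 2.1034) - y * (l + 0.007) * (t * l + 1.7101) := by ring
  have r2 : l * (516 * ((t * l + 2.1034) * (t * l + 1.7101))) = 516 * (l * (t * l + 2.1034) * (t * l + 1.7101)) := by ring
  have r3 : y * (0.37 * l) = l * (0.37 * y) := by ring
  rw [r1, r3] at k4
  rw [r2] at k5
  linarith

theorem G3_G3_aux4 (y l t : ℝ) (ht1 : 1.618033 < t) (ht2 : t < 1.618034) (hl : 20 ≤ l)
    (hq : 173288 * l ^ 2 ≤ y) (hy : 0 < y) :
    (1 + 0.007 / l) * (y / (t * l + 2.1034)) + 516 ≤ (y - 0.004 * y / l) / (t * l + 1.7101) := by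
  have hl0 : 0 < l := by linarith
  have ha : 0 < t * l := mul_pos (by linarith) hl0
  have hA : 0 < t * l + 2.1034 := by linarith
  have hB : 0 < t * l + 1.7101 := by linarith
  have key := G3_G3_aux3 y l t ht1 ht2 hl hq hy
  have e1 : (1 + 0.007 / l) * (y / (t * l + 2.1034)) = y * (l + 0.007) / (l * (t * l + 2.1034)) := by
    field_simp
  have e2 : (y - 0.004 * y / l) / (t * l + 1.7101) = y * (l - 0.004) / (l * (t * l + 1.7101)) := by
    field_simp
  have e3 : y * (l + 0.007) / (l * (t * l + 2.1034)) + 516 = (y * (l + 0.007) + 516 * (l * (t * l + 2.1034))) / (l * (t * l + 2.1034)) := by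
    field_simp
  rw [e1, e2, e3, div_le_div_iff₀ (by positivity) (by positivity)]
  have k := mul_le_mul_of_nonneg_left key hl0.le
  have r1 : (y * (l + 0.007) + 516 * (l * (t * l + 2.1034))) * (l * (t * l + 1.7101))
    = l * (y * (l + 0.007) * (t * l + 1.7101) + 516 * (l * (t * l + 2.1034) * (t * l + 1.7101))) := by ring
  have r2 : y * (l - 0.004) * (l * (t * l + 2.1034)) = l * (y * (l - 0.004) * (t * l + 2.1034)) := by ring
  rw [r1, r2]
  exact k

theorem G3_G3_G3_aux (y l L t : ℝ) (ht1 : 1.618033 < t) (ht2 : t < 1.618034) (hy : 10 ^ 9 ≤ y) (hl : 20 ≤ l)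
    (hq : 173288 * l ^ 2 ≤ y) (hL : L ≤ l + 1e-9) (hL0 : l ≤ L) :
    (1 + 0.007 / l) * (y / (t * (l + 1.3))) + 516 ≤ (y - 0.004 * y / l) / (t * L + 1.71) := by
  have hl0 : 0 < l := by linarith
  have hy0 : 0 < y := lt_of_lt_of_le (by norm_num) hy
  have ha : 0 < t * l := mul_pos (by linarith) hl0
  have hD1 := G3_G3_aux1 l t ht1
  have hD2 := G3_G3_aux2 l L t ht1 ht2 hL
  have hD20 : 0 < t * L + 1.71 := by
    have : 0 ≤ t * L := mul_nonneg (by linarith) (by linarith)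
    linarith
  have h1 : (1 + 0.007 / l) * (y / (t * (l + 1.3))) ≤ (1 + 0.007 / l) * (y / (t * l + 2.1034)) := by
    have : y / (t * (l + 1.3)) ≤ y / (t * l + 2.1034) :=
      div_le_div_of_nonneg_left hy0.le (by linarith) hD1
    have h2 : 0 ≤ 1 + 0.007 / l := by positivity
    exact mul_le_mul_of_nonneg_left this h2
  have h3 : (y - 0.004 * y / l) / (t * l + 1.7101) ≤ (y - 0.004 * y / l) / (t * L + 1.71) := by
    apply div_le_div_of_nonneg_left _ hD20 hD2
    have : 0.004 * y / l ≤ y := by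
      rw [div_le_iff₀ hl0]
      have h5 : y * 1 ≤ y * l := mul_le_mul_of_nonneg_left (by linarith) hy0.le
      linarith
    linarith
  have h4 := G3_G3_aux4 y l t ht1 ht2 hl hq hy0
  exact (add_le_add_left h1 516).trans (h4.trans h3)

theorem G3_G3_logq (y : ℝ) (hx : 10 ^ 9 ≤ y) (hl20 : 20 ≤ Real.log y) : 173288 * (Real.log y) ^ 2 ≤ y := by
  have hy0 : 0 < y := lt_of_lt_of_le (by norm_num) hx
  have e1 : Real.exp (Real.log y / 4) ^ 4 = y := by
    rw [← Real.exp_nat_mul]; rw [show ((4:ℕ):ℝ) * (Real.log y / 4) = Real.log y by push_cast; ring]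
    exact Real.exp_log hy0
  have e2 : 1 + Real.log y / 4 + (Real.log y / 4) ^ 2 / 2 ≤ Real.exp (Real.log y / 4) :=
    Real.quadratic_le_exp_of_nonneg (by linarith)
  have q0 : 0 < Real.exp (Real.log y / 4) := Real.exp_pos _
  generalize Real.exp (Real.log y / 4) = q at *
  generalize Real.log y = l at *
  have q1 : 177 ≤ q := by
    by_contra hc
    push Not at hc
    have : q ^ 4 < 177 ^ 4 := by gcongr
    rw [e1] at this
    norm_num at this hx
    linarith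
  have e3 : l ^ 2 ≤ 32 * q := by
    have : (l / 4) ^ 2 / 2 = l ^ 2 / 32 := by ring
    rw [this] at e2
    linarith
  have e4 : 177 ^ 3 * q ≤ q ^ 4 := by
    have h3 : (177:ℝ) ^ 3 ≤ q ^ 3 := by gcongr
    have h4 : q ^ 4 = q ^ 3 * q := by ring
    rw [h4]
    exact mul_le_mul_of_nonneg_right h3 q0.le
  rw [e1] at e4
  norm_num at e4
  linarith

theorem G3_G3_hXX (x y l L t : ℝ) (hxy : x = y + 1) (hy : 0 < y) (hl : 20 ≤ l) (hL : l ≤ L) (ht : 1 ≤ t) :
    x / (t * (L + 1.3)) ≤ y / (t * (l + 1.3)) + 1 := by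
  have ht0 : 0 < t := by linarith
  have hP : 0 < t * (l + 1.3) := mul_pos ht0 (by linarith)
  have g1 : x / (t * (L + 1.3)) ≤ x / (t * (l + 1.3)) :=
    div_le_div_of_nonneg_left (by linarith) hP (mul_le_mul_of_nonneg_left (by linarith) ht0.le)
  have g2 : x / (t * (l + 1.3)) = y / (t * (l + 1.3)) + 1 / (t * (l + 1.3)) := by
    rw [hxy]; ring
  have g3 : 1 / (t * (l + 1.3)) ≤ 1 := by
    rw [div_le_one hP]
    exact one_le_mul_of_one_le_of_one_le ht (by linarith)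
  linarith

theorem G3_G3_hR (y l L t c U W B : ℝ) (hc : 0 < c) (hUW : U ≤ W) (hW : 0 < W) (hl0 : 0 < l) (ht : 0 < t)
    (d5 : y - c * U ≤ 0.004 * y / l) (a5 : t * l - 0.3 ≤ B) (n3 : B + 2 ≤ t * L + 1.71) :
    0.007 / c * ((y - 0.004 * y / l) / (t * L + 1.71)) ≤ 0.007 * W / (B + 2) := by
  have n1 : y - 0.004 * y / l ≤ c * W := by
    have := mul_le_mul_of_nonneg_left hUW hc.le
    linarith
  have n2 : 0 < B + 2 := by
    have := mul_pos ht hl0
    linarith
  have n4 : 0.007 / c * ((y - 0.004 * y / l) / (t * L + 1.71)) ≤ 0.007 / c * ((c * W) / (t * L + 1.71)) :=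
    mul_le_mul_of_nonneg_left (div_le_div_of_nonneg_right n1 (by linarith)) (by positivity)
  have n5 : 0.007 / c * ((c * W) / (t * L + 1.71)) = 0.007 * W / (t * L + 1.71) := by
    have : t * L + 1.71 ≠ 0 := by linarith
    field_simp
  have n6 : 0.007 * W / (t * L + 1.71) ≤ 0.007 * W / (B + 2) :=
    div_le_div_of_nonneg_left (by positivity) n2 n3
  linarith

theorem G3_G3_low (x c V W s2 r2 e e' K Y X R Q : ℝ) (hc : 0 < c) (hV : W ≤ V)
    (d2 : -(e' * s2 + 2) ≤ x - c * V + r2) (d4 : r2 ≤ s2) (hs2n : 0 ≤ s2)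
    (hll : e' ≤ e) (he0 : 0 ≤ e) (he1 : e ≤ 1) (hk : 0.005823 ≤ K)
    (X2 : s2 ≤ K * X) (hXX : X ≤ Y + 1) (hR : K * Q ≤ R) (hM : K * ((1 + e) * Y + 516) ≤ K * Q) :
    -R ≤ x - c * W := by
  have hkk : 0 ≤ K := by linarith
  have f1 : c * W ≤ c * V := mul_le_mul_of_nonneg_left hV hc.le
  have g1 : (1 + e') * s2 ≤ (1 + e) * s2 := mul_le_mul_of_nonneg_right (by linarith) hs2n
  have g2 : (1 + e) * s2 ≤ (1 + e) * (K * (Y + 1)) :=
    mul_le_mul_of_nonneg_left (X2.trans (mul_le_mul_of_nonneg_left hXX hkk)) (by linarith)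
  have g3 : (1 + e) * (K * (Y + 1)) = K * ((1 + e) * Y) + K + K * e := by ring
  have hKe : K * e ≤ K * 1 := mul_le_mul_of_nonneg_left he1 hkk
  have f3 : (1 + e') * s2 = s2 + e' * s2 := by ring
  have f5 : K * ((1 + e) * Y + 516) = K * ((1 + e) * Y) + 516 * K := by ring
  linarith

theorem G3_G3_up (x y c U W s1 r1 e K Y R Q : ℝ) (hxy : x = y + 1) (hc : 0 < c) (hU : U ≤ W)
    (d1 : y - c * U + r1 ≤ e * s1 + 2) (d3 : -s1 ≤ r1)
    (he0 : 0 ≤ e) (hk : 0.005823 ≤ K)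
    (X1 : s1 ≤ K * Y) (hR : K * Q ≤ R) (hM : K * ((1 + e) * Y + 516) ≤ K * Q) :
    x - c * W ≤ R := by
  have f1 : c * U ≤ c * W := mul_le_mul_of_nonneg_left hU hc.le
  have h1 : (1 + e) * s1 ≤ (1 + e) * (K * Y) := mul_le_mul_of_nonneg_left X1 (by linarith)
  have h2 : (1 + e) * (K * Y) = K * ((1 + e) * Y) := by ring
  have f3 : (1 + e) * s1 = s1 + e * s1 := by ring
  have f5 : K * ((1 + e) * Y + 516) = K * ((1 + e) * Y) + 516 * K := by ring
  linarith


theorem G3 (x S1 S2 F1 F2 m : ℝ) (hx : 10 ^ 9 ≤ x - 1) (hS1 : |S1| ≤ 0.007 * WU (x - 1)) (h11 : S1 ≤ F1 - cc / tau * (x - 1) ^ tau)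
    (h12 : F1 - cc / tau * (x - 1) ^ tau ≤ S1 + cc * (x - 1) ^ pp) (hS2 : |S2| ≤ 0.007 * WU x) (h21 : S2 ≤ F2 - cc / tau * x ^ tau)
    (h22 : F2 - cc / tau * x ^ tau ≤ S2 + cc * x ^ pp) (hm1 : F1 ≤ m) (hm2 : m ≤ F2) :
    |x - cc * m ^ pp| ≤ 0.007 * m ^ pp / (Real.log m + 2) := by
  obtain ⟨t1, t2, -, -, p1, p2⟩ := tau_facts
  obtain ⟨c1, c2⟩ := cc_bounds
  have hx' : (10:ℝ) ^ 9 ≤ x := by linarith only [hx]
  obtain ⟨a1, a2, a3, a4, a5, a6⟩ := G2 (x - 1) S1 F1 hx hS1 h11 h12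
  obtain ⟨b1, b2, b3, b4, b5, b6⟩ := G2 x S2 F2 hx' hS2 h21 h22
  clear hS1 h11 h12 hS2 h21 h22 b4 b5 a6
  have hm0 : 0 < m := lt_of_lt_of_le a1 hm1
  have hpp : 0 < pp := by linarith only [p1]
  have hU : F1 ^ pp ≤ m ^ pp := Real.rpow_le_rpow a1.le hm1 hpp.le
  have hV : m ^ pp ≤ F2 ^ pp := Real.rpow_le_rpow hm0.le hm2 hpp.le
  have hlm : Real.log m ≤ Real.log F2 := Real.log_le_log hm0 hm2
  have hlm1 : Real.log F1 ≤ Real.log m := Real.log_le_log a1 hm1
  obtain ⟨y, hy⟩ : ∃ y, y = x - 1 := ⟨_, rfl⟩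
  rw [← hy] at hx a2 a3 a4 a5
  have hxy : x = y + 1 := by rw [hy]; ring
  have hy0 : 0 < y := lt_of_lt_of_le (by norm_num) hx
  have hx0 : 0 < x := by linarith only [hxy, hy0]
  have hypp : 0 < y ^ pp := Real.rpow_pos_of_pos hy0 _
  have hxpp : 0 < x ^ pp := Real.rpow_pos_of_pos hx0 _
  have hl20 : 20 ≤ Real.log y := by
    rw [Real.le_log_iff_exp_le hy0]; exact log_vals.2.2.2.2.2.2.le.trans hx
  have hLl : Real.log y ≤ Real.log x := Real.log_le_log hy0 (by linarith only [hxy])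
  have hLl2 : Real.log x ≤ Real.log y + 1e-9 := by
    have h1 : Real.log (x / y) ≤ x / y - 1 := Real.log_le_sub_one_of_pos (by positivity)
    rw [Real.log_div hx0.ne' hy0.ne'] at h1
    have h2 : x / y - 1 = 1 / y := by rw [hxy]; field_simp; ring
    have h3 : 1 / y ≤ 1e-9 := by
      rw [div_le_iff₀ hy0]; linarith only [hx]
    linarith only [h1, h2, h3]
  have hq := G3_G3_logq y hx hl20
  have haux := G3_G3_G3_aux y (Real.log y) (Real.log x) tau t1 t2 hx hl20 hq hLl2 hLl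
  have hl0 : 0 < Real.log y := by linarith only [hl20]
  have hL0 : 0 < Real.log x := by linarith only [hLl, hl0]
  have hcc : 0 < cc := by linarith only [c1]
  have htau : 0 < tau := by linarith only [t1]
  have hs1 : |S1 / (cc * y ^ pp)| = |S1| / (cc * y ^ pp) := by
    rw [abs_div, abs_of_pos (by positivity : 0 < cc * y ^ pp)]
  have hs2 : |S2 / (cc * x ^ pp)| = |S2| / (cc * x ^ pp) := by
    rw [abs_div, abs_of_pos (by positivity : 0 < cc * x ^ pp)]
  have hs2n : 0 ≤ |S2| / (cc * x ^ pp) := by positivity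
  have d1 := (abs_le.mp a2).2
  have d2 := (abs_le.mp b2).1
  have d3 := (abs_le.mp hs1.le).1
  have d4 := (abs_le.mp hs2.le).2
  have d5 := (abs_le.mp a4).2
  have X1 : |S1| / (cc * y ^ pp) ≤ 0.007 / cc * (y / (tau * (Real.log y + 1.3))) := by
    refine a3.trans (le_of_eq ?_)
    have : Real.log y + 1.3 ≠ 0 := by positivity
    field_simp
  have X2 : |S2| / (cc * x ^ pp) ≤ 0.007 / cc * (x / (tau * (Real.log x + 1.3))) := by
    refine b3.trans (le_of_eq ?_)
    have : Real.log x + 1.3 ≠ 0 := by positivity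
    field_simp
  have hW : 0 < m ^ pp := Real.rpow_pos_of_pos hm0 _
  have hR := G3_G3_hR y (Real.log y) (Real.log x) tau cc (F1 ^ pp) (m ^ pp) (Real.log m) hcc hU hW hl0 htau d5
    (a5.trans hlm1) (by linarith only [hlm, b6])
  have hkk : 0 < 0.007 / cc := by positivity
  have hM := mul_le_mul_of_nonneg_left haux hkk.le
  have hk : 0.005823 ≤ 0.007 / cc := by
    rw [le_div_iff₀ hcc]; linarith only [c2]
  have hXX := G3_G3_hXX x y (Real.log y) (Real.log x) tau hxy hy0 hl20 hLl (by linarith only [t1])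
  have hll : 0.007 / Real.log x ≤ 0.007 / Real.log y := div_le_div_of_nonneg_left (by norm_num) hl0 hLl
  have hll0 : 0 ≤ 0.007 / Real.log y := by positivity
  have hll1 : 0.007 / Real.log y ≤ 1 := by rw [div_le_one hl0]; linarith only [hl20]
  rw [abs_le]
  exact ⟨G3_G3_low _ _ _ _ _ _ _ _ _ _ _ _ _ hcc hV d2 d4 hs2n hll hll0 hll1 hk X2 hXX hR hM,
    G3_G3_up _ _ _ _ _ _ _ _ _ _ _ _ hxy hcc hU d1 d3 hll0 hk X1 hR hM⟩

end Pool.Agent.MP64d899
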