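import Pool.Agent.MP64d899.Defs
import Pool.Agent.MP64d899.L_gol_pos
import Pool.Agent.MP64d899.L_gol_fiber
import Pool.Agent.MP64d899.L_gol_next
import Pool.Agent.MP64d899.L_Ns_succ
set_option autoImplicit false
namespace Pool.Agent.MP64d899

theorem Ms_succ_Ms_succ_Fs (f : ℕ → ℕ) (j : ℕ) : Fs f (j + 1) = Fs f j + f (j + 1) := by
  unfold Fs
  rw [Finset.sum_Icc_succ_top (by omega)]

theorem Ms_succ_Ms_succ_aux {f : ℕ → ℕ} (hf : IsGol f) (j : ℕ) : ∀ c, c ≤ f (j + 1) →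
    Ns f (Fs f j + c) = Ns f (Fs f j) + (j + 1) * (c * Fs f j + c * (c + 1) / 2) := by
  intro c
  induction c with
  | zero => intro _; simp
  | succ c ih =>
    intro hc
    have h1 := ih (by omega)
    have h2 := Ns_succ hf (Fs f j + c)
    have h3 : f (Fs f j + c + 1) = j + 1 := by
      refine gol_fiber hf j _ (by omega) ?_
      rw [Ms_succ_Ms_succ_Fs]
      omega
    rw [← add_assoc, h2, h1, h3]
    have h4 : (c + 1) * (c + 1 + 1) / 2 = c * (c + 1) / 2 + (c + 1) := by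
      have h5 : (c + 1) * (c + 1 + 1) = c * (c + 1) + 2 * (c + 1) := by ring
      rw [h5, Nat.add_mul_div_left _ _ (by norm_num)]
    rw [h4]
    ring

theorem Ms_succ {f : ℕ → ℕ} (hf : IsGol f) : ∀ j, Ms f (j + 1) = Ms f j + (j + 1) * (f (j + 1) * Fs f j + f (j + 1) * (f (j + 1) + 1) / 2) := by
  intro j
  have h1 := Ms_succ_Ms_succ_aux hf j (f (j + 1)) le_rfl
  rw [← Ms_succ_Ms_succ_Fs] at h1
  exact h1

end Pool.Agent.MP64d899
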