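import Pool.Agent.MP64d899.Defs
import Pool.Agent.MP64d899.L_gol_pos
import Pool.Agent.MP64d899.L_gol_le_iff
import Pool.Agent.MP64d899.L_gol_fiber
import Pool.Agent.MP64d899.L_gol_next
set_option autoImplicit false
namespace Pool.Agent.MP64d899

theorem Tbl_correct_tbl_check : ∀ i, i < 335 → 2 ≤ i → 1 ≤ Tbl.getD i 0 ∧ Tbl.getD i 0 ≤ i ∧
    (Tbl.take (Tbl.getD i 0 - 1)).sum < i + 1 ∧ i + 1 ≤ (Tbl.take (Tbl.getD i 0)).sum := by
  decide +kernel

theorem Tbl_correct_Fs_take (f : ℕ → ℕ) (l : List ℕ) (n : ℕ) (h : ∀ k, k < n → f (k + 1) = l.getD k 0) :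
    Fs f n = (l.take n).sum := by
  induction n with
  | zero => simp [Fs]
  | succ n ih =>
    have ih' := ih (fun k hk => h k (by omega))
    have h1 : Fs f (n + 1) = Fs f n + f (n + 1) := by
      unfold Fs
      exact Finset.sum_Icc_succ_top (by omega) _
    rw [h1, ih', h n (by omega), List.take_add_one, List.sum_append, List.getD_eq_getElem?_getD]
    congr 1
    cases l[n]? <;> simp

theorem Tbl_correct {f : ℕ → ℕ} (hf : IsGol f) : ∀ i, i < 335 → f (i + 1) = Tbl.getD i 0 := by
  intro i
  induction i using Nat.strong_induction_on with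
  | _ i ih =>
    intro hi
    have key : ∀ k, k < i → f (k + 1) = Tbl.getD k 0 := fun k hk => ih k hk (by omega)
    rcases Nat.lt_or_ge i 2 with h2 | h2
    · have h01 : i = 0 ∨ i = 1 := by omega
      rcases h01 with rfl | rfl
      · rw [hf.one]
        rfl
      · have h3 := (gol_next hf).1 1 le_rfl
        rw [hf.one] at h3
        have h4 := gol_le_iff hf 2 1 (by norm_num) le_rfl
        have h5 : Fs f 1 = 1 := by
          simp [Fs, hf.one]
        rw [h5] at h4
        have h6 : ¬ f 2 ≤ 1 := fun h => by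
          have := h4.1 h
          omega
        have h7 : f 2 = 2 := by
          have : f (1 + 1) = f 2 := rfl
          omega
        show f 2 = Tbl.getD 1 0
        rw [h7]
        rfl
    · obtain ⟨c1, c2, c3, c4⟩ := Tbl_correct_tbl_check i hi h2
      have e1 : Fs f (Tbl.getD i 0 - 1) = (Tbl.take (Tbl.getD i 0 - 1)).sum :=
        Tbl_correct_Fs_take f Tbl _ (fun k hk => key k (by omega))
      have e2 : Fs f (Tbl.getD i 0) = (Tbl.take (Tbl.getD i 0)).sum :=
        Tbl_correct_Fs_take f Tbl _ (fun k hk => key k (by omega))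
      have e3 : Tbl.getD i 0 - 1 + 1 = Tbl.getD i 0 := by omega
      have h := gol_fiber hf (Tbl.getD i 0 - 1) (i + 1) (by rw [e1]; exact c3)
        (by rw [e3, e2]; exact c4)
      rw [e3] at h
      exact h

end Pool.Agent.MP64d899
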