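import Pool.Agent.MP64d899.Defs
set_option autoImplicit false
namespace Pool.Agent.MP64d899

set_option maxRecDepth 1000000 in
theorem loop_true : loop Tbl 1 0 0 0 0 = true := by decide +kernel

end Pool.Agent.MP64d899
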