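import Pool.Agent.MP64d899.Defs
import Pool.Agent.MP64d899.L_loop_true
import Pool.Agent.MP64d899.L_gol_pos
import Pool.Agent.MP64d899.L_gol_le_iff
import Pool.Agent.MP64d899.L_gol_fiber
import Pool.Agent.MP64d899.L_gol_next
import Pool.Agent.MP64d899.L_Ns_succ
import Pool.Agent.MP64d899.L_Ms_succ
import Pool.Agent.MP64d899.L_Tbl_correct
set_option autoImplicit false
namespace Pool.Agent.MP64d899

theorem loop_sound_loop_sound_aux_Fs (f : ℕ → ℕ) (n : ℕ) : Fs f (n + 1) = Fs f n + f (n + 1) := by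
  unfold Fs
  rw [Finset.sum_Icc_succ_top (by omega)]

theorem loop_sound_loop_sound_aux_block {f : ℕ → ℕ} (hf : IsGol f) (v : ℕ) (k : ℕ → ℕ → ℕ → ℕ → Bool) :
    ∀ c j : ℕ, (∀ t, j < t → t ≤ j + c → f t = v) →
      block v k c j (Fs f j) (Ns f j) (Ms f j) = true →
      (∀ t, j < t → t ≤ j + c → tst t (f t) (Fs f t) (Ns f t) (Ms f t) = true) ∧
        k (j + c) (Fs f (j + c)) (Ns f (j + c)) (Ms f (j + c)) = true := by
  intro c
  induction c with
  | zero =>
    intro j _ hb
    refine ⟨fun t h1 h2 => by omega, ?_⟩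
    simpa [block] using hb
  | succ c ih =>
    intro j hv hb
    have hv1 : f (j + 1) = v := hv (j + 1) (by omega) (by omega)
    rw [block, Bool.and_eq_true] at hb
    have e1 : Fs f j + v = Fs f (j + 1) := by rw [loop_sound_loop_sound_aux_Fs, hv1]
    have e2 : Ns f j + (j + 1) * v = Ns f (j + 1) := by rw [Ns_succ hf, hv1]
    have e3 : Ms f j + (j + 1) * (v * Fs f j + v * (v + 1) / 2) = Ms f (j + 1) := by
      rw [Ms_succ hf, hv1]
    rw [e1, e2, e3] at hb
    obtain ⟨hb1, hb2⟩ := hb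
    obtain ⟨g1, g2⟩ := ih (j + 1) (fun t h1 h2 => hv t (by omega) (by omega)) hb2
    refine ⟨?_, ?_⟩
    · intro t h1 h2
      by_cases ht : t = j + 1
      · subst ht
        rw [hv1]
        exact hb1
      · exact g1 t (by omega) (by omega)
    · have e4 : j + 1 + c = j + (c + 1) := by omega
      rw [e4] at g2
      exact g2

theorem loop_sound_loop_sound_aux_loop {f : ℕ → ℕ} (hf : IsGol f) (L : List ℕ)
    (h0 : loop L 1 0 0 0 0 = true) (hL : ∀ i, i < L.length → f (i + 1) = L.getD i 0) :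
    ∀ i, i ≤ L.length →
      loop (L.drop i) (i + 1) (Fs f i) (Fs f (Fs f i)) (Ns f (Fs f i)) (Ms f (Fs f i)) = true ∧
      ∀ t, 1 ≤ t → t ≤ Fs f i → tst t (f t) (Fs f t) (Ns f t) (Ms f t) = true := by
  intro i
  induction i with
  | zero =>
    intro _
    have z1 : Fs f 0 = 0 := by simp [Fs]
    have z2 : Ns f 0 = 0 := by simp [Ns, z1]
    have z3 : Ms f 0 = 0 := by simp [Ms, z1, z2]
    refine ⟨?_, ?_⟩
    · rw [z1, z1, z2, z3]
      exact h0
    · intro t h1 h2
      rw [z1] at h2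
      omega
  | succ i ih =>
    intro hi
    obtain ⟨ih1, ih2⟩ := ih (by omega)
    have hlt : i < L.length := by omega
    rw [List.drop_eq_getElem_cons hlt, loop] at ih1
    have hc : L[i] = f (i + 1) := by
      rw [hL i hlt, List.getD_eq_getElem L 0 hlt]
    rw [hc] at ih1
    have hfib : ∀ t, Fs f i < t → t ≤ Fs f i + f (i + 1) → f t = i + 1 := by
      intro t h1 h2
      exact gol_fiber hf i t h1 (by rw [loop_sound_loop_sound_aux_Fs]; exact h2)
    obtain ⟨g1, g2⟩ := loop_sound_loop_sound_aux_block hf (i + 1) _ (f (i + 1)) (Fs f i) hfib ih1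
    rw [← loop_sound_loop_sound_aux_Fs] at g1 g2
    refine ⟨g2, ?_⟩
    intro t h1 h2
    by_cases ht : t ≤ Fs f i
    · exact ih2 t h1 ht
    · exact g1 t (by omega) h2

theorem loop_sound {f : ℕ → ℕ} (hf : IsGol f) : ∀ j, 1 ≤ j → j ≤ Fs f 335 → tst j (f j) (Fs f j) (Ns f j) (Ms f j) = true := by
  have hlen : Tbl.length = 335 := by decide +kernel
  have h := loop_sound_loop_sound_aux_loop hf Tbl loop_true
    (fun i hi => Tbl_correct hf i (by rw [hlen] at hi; exact hi)) 335 (by rw [hlen])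
  exact h.2

end Pool.Agent.MP64d899
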