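import Pool.Agent.MP64d899.Defs
import Pool.Agent.MP64d899.L_tau_facts
import Pool.Agent.MP64d899.L_log_vals
set_option autoImplicit false
namespace Pool.Agent.MP64d899

theorem chk_real_chk_real_pow (q p : ℕ) (hq : q ≠ 0) (k M : ℝ) (hM : 0 ≤ M) :
    (k * M ^ ((p : ℝ) / q)) ^ q = k ^ q * M ^ p := by
  have hq' : (q : ℝ) ≠ 0 := by exact_mod_cast hq
  rw [mul_pow, ← Real.rpow_natCast (M ^ ((p : ℝ) / q)) q, ← Real.rpow_mul hM,
    div_mul_cancel₀ _ hq', Real.rpow_natCast]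

theorem chk_real_chk_real_le1 (q p : ℕ) (hq : q ≠ 0) (k M x : ℝ) (hk : 0 ≤ k) (hM : 0 ≤ M) (hx : 0 ≤ x)
    (h : k ^ q * M ^ p ≤ x ^ q) : k * M ^ ((p : ℝ) / q) ≤ x := by
  rw [← chk_real_chk_real_pow q p hq k M hM] at h
  exact (pow_le_pow_iff_left₀ (by positivity) hx hq).1 h

theorem chk_real_chk_real_le2 (q p : ℕ) (hq : q ≠ 0) (k M x : ℝ) (hk : 0 ≤ k) (hM : 0 ≤ M) (hx : 0 ≤ x)
    (h : x ^ q ≤ k ^ q * M ^ p) : x ≤ k * M ^ ((p : ℝ) / q) := by
  rw [← chk_real_chk_real_pow q p hq k M hM] at h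
  exact (pow_le_pow_iff_left₀ hx (by positivity) hq).1 h

theorem chk_real_chk_real_cast (q p k c N M : ℕ) (h : k ^ q * M ^ p ≤ (c * N) ^ q) :
    (k : ℝ) ^ q * (M : ℝ) ^ p ≤ ((c : ℝ) * N) ^ q := by exact_mod_cast h

theorem chk_real_chk_real_cast' (q p k c N M : ℕ) (h : (c * N) ^ q ≤ k ^ q * M ^ p) :
    ((c : ℝ) * N) ^ q ≤ (k : ℝ) ^ q * (M : ℝ) ^ p := by exact_mod_cast h

theorem chk_real_chk_real_pp : pp < (1597 : ℝ) / 2584 ∧ (1597 : ℝ) / 2584 - pp < 6.7e-8 := by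
  unfold pp tau
  have h1 : Real.sqrt 5 < 5778 / 2584 := by
    rw [Real.sqrt_lt' (by norm_num)]
    norm_num
  have h2 : 5778 / 2584 - 1.34e-7 < Real.sqrt 5 := by
    rw [Real.lt_sqrt (by norm_num)]
    norm_num
  constructor
  · linarith
  · linarith


theorem chk_real (klo khi N M : ℕ) (h : chk klo khi N M = true) (hM : 1 ≤ M) (hM2 : M ≤ 12241649551538241) :
    (klo : ℝ) * (M : ℝ) ^ pp ≤ 10000000 * N ∧ 10000000 * (N : ℝ) ≤ khi * (1 + 0.0000026) * (M : ℝ) ^ pp := by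
  unfold chk at h
  rw [Bool.and_eq_true, Nat.ble_eq, Nat.ble_eq] at h
  obtain ⟨ha, hb⟩ := h
  have ha' := chk_real_chk_real_cast 2584 1597 klo 10000000 N M ha
  have hb' := chk_real_chk_real_cast' 2584 1597 khi 10000000 N M hb
  have hM0 : (1 : ℝ) ≤ M := by exact_mod_cast hM
  have hM0' : (0 : ℝ) ≤ M := by linarith
  have hq : (2584 : ℕ) ≠ 0 := by norm_num
  have hx : (0 : ℝ) ≤ ((10000000 : ℕ) : ℝ) * N := by positivity
  have h1 := chk_real_chk_real_le1 2584 1597 hq klo M _ (Nat.cast_nonneg _) hM0' hx ha'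
  have h2 := chk_real_chk_real_le2 2584 1597 hq khi M _ (Nat.cast_nonneg _) hM0' hx hb'
  have e1 : ((1597 : ℕ) : ℝ) / ((2584 : ℕ) : ℝ) = 1597 / 2584 := by norm_num
  have e2 : ((10000000 : ℕ) : ℝ) = 10000000 := by norm_num
  rw [e1, e2] at h1 h2
  obtain ⟨p1, p2⟩ := chk_real_chk_real_pp
  constructor
  · refine le_trans ?_ h1
    exact mul_le_mul_of_nonneg_left (Real.rpow_le_rpow_of_exponent_le hM0 p1.le) (Nat.cast_nonneg _)
  · refine le_trans h2 ?_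
    have e3 : (M : ℝ) ^ ((1597 : ℝ) / 2584) = (M : ℝ) ^ pp * (M : ℝ) ^ ((1597 : ℝ) / 2584 - pp) := by
      rw [← Real.rpow_add (by linarith)]
      congr 1
      ring
    have hlogM : Real.log M ≤ 37.05 := by
      rw [Real.log_le_iff_le_exp (by linarith)]
      refine le_trans ?_ log_vals.2.2.2.2.2.1.le
      exact_mod_cast hM2
    have hlog0 : 0 ≤ Real.log M := Real.log_nonneg hM0
    have e4 : (M : ℝ) ^ ((1597 : ℝ) / 2584 - pp) ≤ 1 + 0.0000026 := by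
      rw [Real.rpow_def_of_pos (by linarith)]
      have h5 : Real.log M * ((1597 : ℝ) / 2584 - pp) ≤ 2.483e-6 := by
        have : Real.log M * ((1597 : ℝ) / 2584 - pp) ≤ 37.05 * 6.7e-8 :=
          mul_le_mul hlogM p2.le (by linarith) (by norm_num)
        refine le_trans this (by norm_num)
      have h6 := Real.exp_le_exp.mpr h5
      refine le_trans h6 ?_
      have h7 := Real.abs_exp_sub_one_sub_id_le (x := 2.483e-6) (by rw [abs_of_pos] <;> norm_num)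
      have h8 := (abs_le.mp h7).2
      norm_num at h8 ⊢
      linarith
    rw [e3]
    have h9 : (0 : ℝ) ≤ khi * (M : ℝ) ^ pp := by positivity
    calc (khi : ℝ) * ((M : ℝ) ^ pp * (M : ℝ) ^ ((1597 : ℝ) / 2584 - pp))
        = (khi * (M : ℝ) ^ pp) * (M : ℝ) ^ ((1597 : ℝ) / 2584 - pp) := by ring
      _ ≤ (khi * (M : ℝ) ^ pp) * (1 + 0.0000026) := mul_le_mul_of_nonneg_left e4 h9
      _ = khi * (1 + 0.0000026) * (M : ℝ) ^ pp := by ring

end Pool.Agent.MP64d899
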