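import Pool.Agent.MP64d899.Defs
import Pool.Agent.MP64d899.L_tau_facts
set_option autoImplicit false
namespace Pool.Agent.MP64d899

theorem chord_lower (M N F' L y x e : ℝ) (hM : 0 < M) (hN : 0 ≤ N) (hx1 : N ≤ x) (hF : 0 < F') (hL : 0 < L) (hy0 : 0 ≤ y)
    (hy : y ≤ M + (x - N) * F') (h1 : L * M ^ pp ≤ N) (h2 : 0.61804 * N * F' ≤ (1 + e) * M) : L * y ^ pp ≤ x + (x - N) * e := by
  obtain ⟨_, _, _, _, hp1, hp2⟩ := tau_facts
  have hp0 : 0 ≤ pp := by linarith
  have hxN : 0 ≤ x - N := by linarith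
  have hs : 0 ≤ (x - N) * F' / M := by positivity
  have e1 : M + (x - N) * F' = M * (1 + (x - N) * F' / M) := by
    field_simp
  have e2 : y ^ pp ≤ M ^ pp * (1 + pp * ((x - N) * F' / M)) := by
    calc y ^ pp ≤ (M * (1 + (x - N) * F' / M)) ^ pp :=
          Real.rpow_le_rpow hy0 (by rw [← e1]; exact hy) hp0
      _ = M ^ pp * (1 + (x - N) * F' / M) ^ pp := Real.mul_rpow hM.le (by linarith)
      _ ≤ M ^ pp * (1 + pp * ((x - N) * F' / M)) :=
          mul_le_mul_of_nonneg_left
            (_root_.rpow_one_add_le_one_add_mul_self (by linarith) hp0 (by linarith))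
            (Real.rpow_nonneg hM.le _)
  have e3 : L * y ^ pp ≤ N * (1 + pp * ((x - N) * F' / M)) := by
    calc L * y ^ pp ≤ L * (M ^ pp * (1 + pp * ((x - N) * F' / M))) :=
          mul_le_mul_of_nonneg_left e2 hL.le
      _ = (L * M ^ pp) * (1 + pp * ((x - N) * F' / M)) := by ring
      _ ≤ N * (1 + pp * ((x - N) * F' / M)) :=
          mul_le_mul_of_nonneg_right h1 (by positivity)
  have e4 : N * F' * pp / M ≤ 1 + e := by
    rw [div_le_iff₀ hM]
    have : N * F' * pp ≤ N * F' * 0.61804 :=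
      mul_le_mul_of_nonneg_left (by linarith) (by positivity)
    linarith
  have e5 : N * (1 + pp * ((x - N) * F' / M)) = N + (x - N) * (N * F' * pp / M) := by
    field_simp
  rw [e5] at e3
  have e6 : (x - N) * (N * F' * pp / M) ≤ (x - N) * (1 + e) := mul_le_mul_of_nonneg_left e4 hxN
  linarith

end Pool.Agent.MP64d899
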