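import Pool.Agent.MP64d899.Defs
import Pool.Agent.MP64d899.L_tau_facts
set_option autoImplicit false
namespace Pool.Agent.MP64d899

theorem chord_upper (M M' N N' F F' H y x : ℝ) (hM : 0 < M) (hMM : M < M') (hx1 : N ≤ x) (hx2 : x ≤ N')
    (hF : 0 < F) (hFF : F ≤ F') (hH : 0 < H) (hy1 : M + (x - N) * F ≤ y) (hy2 : y ≤ M') (hM' : M' ≤ M + (N' - N) * F')
    (h1 : N ≤ H * M ^ pp) (h2 : N' ≤ H * M' ^ pp) : x ≤ H * y ^ pp + (N' - N) * ((F' - F) / F') := by
  obtain ⟨-, -, -, -, hp1, hp2⟩ := tau_facts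
  have hD : 0 < M' - M := by linarith
  have hF' : 0 < F' := lt_of_lt_of_le hF hFF
  have hL : 0 < N' - N := by
    by_contra h
    push Not at h
    have : (N' - N) * F' ≤ 0 := mul_nonpos_of_nonpos_of_nonneg h hF'.le
    linarith
  have hxN : 0 ≤ x - N := by linarith
  have hyM : M ≤ y := by
    have : 0 ≤ (x - N) * F := mul_nonneg hxN hF.le
    linarith
  set lam : ℝ := (y - M) / (M' - M) with hlam
  have hl0 : 0 ≤ lam := div_nonneg (by linarith) hD.le
  have hl1 : lam ≤ 1 := (div_le_one hD).2 (by linarith)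
  have hy : y = (1 - lam) * M + lam * M' := by
    have : lam * (M' - M) = y - M := div_mul_cancel₀ _ hD.ne'
    linarith
  have hconc := (Real.concaveOn_rpow (p := pp) (by linarith) (by linarith)).2
    (show M ∈ Set.Ici (0:ℝ) from hM.le) (show M' ∈ Set.Ici (0:ℝ) from (hM.trans hMM).le)
    (show (0:ℝ) ≤ 1 - lam by linarith) hl0 (by ring)
  simp only [smul_eq_mul] at hconc
  rw [← hy] at hconc
  have h3 : N + lam * (N' - N) ≤ H * y ^ pp := by
    have a1 : (1 - lam) * N ≤ (1 - lam) * (H * M ^ pp) :=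
      mul_le_mul_of_nonneg_left h1 (by linarith)
    have a2 : lam * N' ≤ lam * (H * M' ^ pp) := mul_le_mul_of_nonneg_left h2 hl0
    have a3 : H * ((1 - lam) * M ^ pp + lam * M' ^ pp) ≤ H * y ^ pp :=
      mul_le_mul_of_nonneg_left hconc hH.le
    nlinarith
  have h4 : (x - N) * F ≤ lam * (N' - N) * F' := by
    have b1 : (x - N) * F ≤ y - M := by linarith
    have b2 : y - M = lam * (M' - M) := (div_mul_cancel₀ _ hD.ne').symm
    have b3 : lam * (M' - M) ≤ lam * ((N' - N) * F') :=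
      mul_le_mul_of_nonneg_left (by linarith) hl0
    nlinarith
  have h5 : (x - N) * (F / F') ≤ lam * (N' - N) := by
    rw [← mul_div_assoc, div_le_iff₀ hF']
    exact h4
  have h6 : (F' - F) / F' = 1 - F / F' := by
    rw [sub_div, div_self hF'.ne']
  have h7 : 0 ≤ 1 - F / F' := by
    have : F / F' ≤ 1 := (div_le_one hF').2 hFF
    linarith
  rw [h6]
  have h8 : (x - N) * (1 - F / F') ≤ (N' - N) * (1 - F / F') :=
    mul_le_mul_of_nonneg_right (by linarith) h7
  nlinarith

end Pool.Agent.MP64d899
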