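import Pool.Agent.MP64d899.Defs
import Pool.Agent.MP64d899.L_gol_pos
import Pool.Agent.MP64d899.L_gol_le_iff
import Pool.Agent.MP64d899.L_gol_fiber
import Pool.Agent.MP64d899.L_gol_next
import Pool.Agent.MP64d899.L_Ns_succ
import Pool.Agent.MP64d899.L_Ms_succ
import Pool.Agent.MP64d899.L_Tbl_correct
set_option autoImplicit false
namespace Pool.Agent.MP64d899

def vals_vblk (T : ℕ → ℕ → ℕ → ℕ → Bool) (v : ℕ) (k : ℕ → ℕ → ℕ → ℕ → Bool) :
    ℕ → ℕ → ℕ → ℕ → ℕ → Bool
  | 0, j, F, N, M => k j F N M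
  | (c+1), j, F, N, M =>
     T (j+1) (F + v) (N + (j+1) * v) (M + (j+1) * (v * F + v * (v+1) / 2)) &&
      vals_vblk T v k c (j+1) (F + v) (N + (j+1) * v) (M + (j+1) * (v * F + v * (v+1) / 2))

def vals_vlp (T : ℕ → ℕ → ℕ → ℕ → Bool) : List ℕ → ℕ → ℕ → ℕ → ℕ → ℕ → Bool
  | [], _, _, _, _, _ => true
  | cnt :: l, v, j, F, N, M => vals_vblk T v (vals_vlp T l (v+1)) cnt j F N M

def vals_vchk (j F N M : ℕ) : Bool :=
  (Nat.ble 1 F && (Nat.ble 1 N && Nat.ble 1 M)) &&
  (cond (Nat.beq j 335) (Nat.beq F 9066 && (Nat.beq N 1880161 && Nat.beq M 10534727210)) true &&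
  (cond (Nat.beq j 1000) (Nat.beq N 32875989 && Nat.beq M 1080076187880) true &&
  cond (Nat.beq j 9066) (Nat.beq N 10534727210 && Nat.beq M 12241649551538241) true))

theorem vals_vFs_succ (f : ℕ → ℕ) (j : ℕ) : Fs f (j + 1) = Fs f j + f (j + 1) := by
  unfold Fs
  rw [Finset.sum_Icc_succ_top (by omega)]

theorem vals_vblk_ok {f : ℕ → ℕ} (hf : IsGol f) (T : ℕ → ℕ → ℕ → ℕ → Bool) (v : ℕ)
    (k : ℕ → ℕ → ℕ → ℕ → Bool) : ∀ c j : ℕ,
    vals_vblk T v k c j (Fs f j) (Ns f j) (Ms f j) = true →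
    (∀ i, 1 ≤ i → i ≤ c → f (j + i) = v) →
    (∀ i, 1 ≤ i → i ≤ c → T (j + i) (Fs f (j + i)) (Ns f (j + i)) (Ms f (j + i)) = true) ∧
      k (j + c) (Fs f (j + c)) (Ns f (j + c)) (Ms f (j + c)) = true := by
  intro c
  induction c with
  | zero =>
    intro j h _
    refine ⟨fun i h1 h2 => by omega, ?_⟩
    simpa [vals_vblk] using h
  | succ c ih =>
    intro j h hv
    have h1 : f (j + 1) = v := hv 1 le_rfl (by omega)
    have e1 : Fs f j + v = Fs f (j + 1) := by rw [vals_vFs_succ, h1]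
    have e2 : Ns f j + (j + 1) * v = Ns f (j + 1) := by rw [Ns_succ hf, h1]
    have e3 : Ms f j + (j + 1) * (v * Fs f j + v * (v + 1) / 2) = Ms f (j + 1) := by
      rw [Ms_succ hf, h1]
    rw [vals_vblk, e1, e2, e3, Bool.and_eq_true] at h
    obtain ⟨h2, h3⟩ := ih (j + 1) h.2 (fun i hi1 hi2 => by
      rw [show j + 1 + i = j + (i + 1) by ring]
      exact hv (i + 1) (by omega) (by omega))
    refine ⟨fun i hi1 hi2 => ?_, ?_⟩
    · rcases Nat.eq_or_lt_of_le hi1 with h4 | h4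
      · subst h4
        exact h.1
      · have := h2 (i - 1) (by omega) (by omega)
        rwa [show j + 1 + (i - 1) = j + i by omega] at this
    · rwa [show j + 1 + c = j + (c + 1) by ring] at h3

theorem vals_vlp_ok {f : ℕ → ℕ} (hf : IsGol f) (T : ℕ → ℕ → ℕ → ℕ → Bool) : ∀ (l : List ℕ) (u : ℕ),
    vals_vlp T l (u + 1) (Fs f u) (Fs f (Fs f u)) (Ns f (Fs f u)) (Ms f (Fs f u)) = true →
    (∀ i, i < l.length → f (u + 1 + i) = l.getD i 0) →
    ∀ m, Fs f u < m → m ≤ Fs f (u + l.length) →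
      T m (Fs f m) (Ns f m) (Ms f m) = true := by
  intro l
  induction l with
  | nil =>
    intro u _ _ m h1 h2
    simp at h2
    omega
  | cons cnt l ih =>
    intro u h hl m h1 h2
    have hc : f (u + 1) = cnt := by simpa using hl 0 (by simp)
    have e1 : Fs f u + cnt = Fs f (u + 1) := by rw [vals_vFs_succ, hc]
    rw [vals_vlp] at h
    obtain ⟨h3, h4⟩ := vals_vblk_ok hf T (u + 1) _ cnt (Fs f u) h (fun i hi1 hi2 =>
      gol_fiber hf u (Fs f u + i) (by omega) (by omega))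
    rw [e1] at h4
    by_cases hm : m ≤ Fs f (u + 1)
    · have := h3 (m - Fs f u) (by omega) (by omega)
      rwa [show Fs f u + (m - Fs f u) = m by omega] at this
    · refine ih (u + 1) h4 (fun i hi => ?_) m (by omega) ?_
      · have := hl (i + 1) (by simp; omega)
        rw [show u + 1 + 1 + i = u + 1 + (i + 1) by ring, this]
        simp
      · rwa [List.length_cons, show u + (l.length + 1) = u + 1 + l.length by ring] at h2

set_option maxRecDepth 100000 in
theorem vals_vlp_eval : vals_vlp vals_vchk Tbl 1 0 0 0 0 = true := by decide +kernel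

theorem vals_vTbl_length : Tbl.length = 335 := by decide +kernel


theorem vals {f : ℕ → ℕ} (hf : IsGol f) : Fs f 335 = 9066 ∧ Ns f 335 = 1880161 ∧ Ms f 335 = 10534727210 ∧
    Ns f 1000 = 32875989 ∧ Ms f 1000 = 1080076187880 ∧ Ns f 9066 = 10534727210 ∧ Ms f 9066 = 12241649551538241 := by
  have h0 : Fs f 0 = 0 := by simp [Fs]
  have hN0 : Ns f 0 = 0 := by rw [Ns, h0, h0]
  have hM0 : Ms f 0 = 0 := by rw [Ms, hN0, h0]
  have key : ∀ m, 0 < m → m ≤ Fs f 335 → vals_vchk m (Fs f m) (Ns f m) (Ms f m) = true := by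
    intro m h1 h2
    refine vals_vlp_ok hf vals_vchk Tbl 0 ?_ ?_ m ?_ ?_
    · rw [h0, h0, hN0, hM0]
      exact vals_vlp_eval
    · intro i hi
      rw [vals_vTbl_length] at hi
      have := Tbl_correct hf i hi
      rwa [show 0 + 1 + i = i + 1 by ring]
    · rw [h0]; exact h1
    · rw [vals_vTbl_length, zero_add]; exact h2
  have h335 : 335 ≤ Fs f 335 := (gol_next hf).2.2.2.1 335
  have k1 := key 335 (by norm_num) h335
  simp only [vals_vchk, Bool.and_eq_true, Nat.beq_eq] at k1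
  obtain ⟨_, k1, _, _⟩ := k1
  rw [show Nat.beq 335 335 = true from rfl, cond_true, Bool.and_eq_true, Bool.and_eq_true,
    Nat.beq_eq, Nat.beq_eq, Nat.beq_eq] at k1
  obtain ⟨a1, a2, a3⟩ := k1
  have k2 := key 1000 (by norm_num) (by rw [a1]; norm_num)
  simp only [vals_vchk, Bool.and_eq_true] at k2
  obtain ⟨_, _, k2, _⟩ := k2
  rw [show Nat.beq 1000 1000 = true from rfl, cond_true, Bool.and_eq_true,
    Nat.beq_eq, Nat.beq_eq] at k2
  have k3 := key 9066 (by norm_num) (by rw [a1])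
  simp only [vals_vchk, Bool.and_eq_true] at k3
  obtain ⟨_, _, _, k3⟩ := k3
  rw [show Nat.beq 9066 9066 = true from rfl, cond_true, Bool.and_eq_true,
    Nat.beq_eq, Nat.beq_eq] at k3
  exact ⟨a1, a2, a3, k2.1, k2.2, k3.1, k3.2⟩

end Pool.Agent.MP64d899
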