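import Pool.Agent.MP64d899.Defs
import Pool.Agent.MP64d899.L_tau_facts
import Pool.Agent.MP64d899.L_gol_pos
import Pool.Agent.MP64d899.L_gol_next
import Pool.Agent.MP64d899.L_Ns_succ
import Pool.Agent.MP64d899.L_vals
import Pool.Agent.MP64d899.L_chk_real
import Pool.Agent.MP64d899.L_chord_upper
import Pool.Agent.MP64d899.L_chord_lower
import Pool.Agent.MP64d899.L_Fs_between
set_option autoImplicit false
namespace Pool.Agent.MP64d899

theorem node_interval_node_interval_key (j v kap N n : ℝ) (rj : 335 ≤ j) (rk0 : 0 ≤ kap) (rn1 : N ≤ n)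
    (rd3 : (j + 1) * (v + 1) * 18 * 10000000 ≤ 10 * j * kap * N) :
    (j + 1) * (v + 1) * (1.8 / j) ≤ kap * 0.0000001 * n := by
  have rjp : (0:ℝ) < j := by linarith
  have key : (j + 1) * (v + 1) * (1.8 / j) ≤ kap * 0.0000001 * N := by
    rw [mul_div_assoc', div_le_iff₀ rjp]
    linarith [rd3]
  exact le_trans key (mul_le_mul_of_nonneg_left rn1 (by positivity))

theorem node_interval_node_interval_low (j v v' kap klo N N' F F' M y n : ℝ) (rj : 335 ≤ j) (rv0 : 0 ≤ v)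
    (rv0' : 0 ≤ v') (hy0 : 0 ≤ y)
    (rk0 : 0 ≤ kap) (rklo : 0 < klo) (rNj : j ≤ N) (rFj : j ≤ F) (rMj : j ≤ M)
    (rn1 : N ≤ n) (rn2 : n ≤ N') (rv : v' ≤ v + 1) (rFs : F' = F + v') (rNs : N' = N + (j + 1) * v')
    (rb2 : y ≤ M + (n - N) * F') (c1 : klo * M ^ pp ≤ 10000000 * N)
    (rd1 : 10 * j * 61804 * N * (F + (v + 1)) ≤ 100000 * M * (10 * j + 18))
    (key2 : (j + 1) * (v + 1) * (1.8 / j) ≤ kap * 0.0000001 * n) :
    klo * 0.0000001 * y ^ pp ≤ n * (1 + kap * 0.0000001) := by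
  have rjp : (0:ℝ) < j := by linarith
  have he0 : (0:ℝ) ≤ 1.8 / j := by positivity
  have hNN : n - N ≤ (j + 1) * (v + 1) := by
    have : (j+1) * v' ≤ (j+1) * (v + 1) :=
      mul_le_mul_of_nonneg_left rv (by linarith)
    linarith
  have h3 : (n - N) * (1.8 / j) ≤ (j + 1) * (v + 1) * (1.8 / j) :=
    mul_le_mul_of_nonneg_right hNN he0
  have hN0 : 0 ≤ N := by linarith
  have h2 : 0.61804 * N * F' ≤ (1 + 1.8 / j) * M := by
    have hA : 0.61804 * N * F' ≤ 0.61804 * N * (F + (v + 1)) := by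
      apply mul_le_mul_of_nonneg_left _ (by positivity)
      rw [rFs]; linarith
    refine le_trans hA ?_
    have : (1 + 1.8 / j) * M = ((10 * j + 18) * M) / (10 * j) := by
      field_simp
      ring
    rw [this, le_div_iff₀ (by positivity)]
    linarith [rd1]
  have hc := chord_lower M N F' (klo * 0.0000001) y n (1.8 / j)
    (by linarith) hN0 rn1 (by rw [rFs]; linarith) (by positivity) hy0
    rb2 (by linarith [c1]) h2
  refine le_trans hc ?_
  have : n * (1 + kap * 0.0000001) = n + kap * 0.0000001 * n := by ring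
  rw [this]
  linarith

theorem node_interval_node_interval_up (j v v' kap khi N N' F F' M M' y n : ℝ) (rj : 335 ≤ j) (rv0 : 0 ≤ v)
    (rv0' : 0 ≤ v') (rkhi : 0 < khi) (rFj : j ≤ F) (rMj : j ≤ M)
    (rn1 : N ≤ n) (rn2 : n ≤ N') (rv : v' ≤ v + 1) (rFs : F' = F + v') (rNs : N' = N + (j + 1) * v')
    (rMM : M < M') (rb1 : M + (n - N) * F ≤ y) (rb3 : y ≤ M') (rb4 : M' ≤ M + (N' - N) * F')
    (c2 : 10000000 * N ≤ khi * (1 + 0.0000026) * M ^ pp)
    (c3 : 10000000 * N' ≤ khi * (1 + 0.0000026) * M' ^ pp)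
    (rd2 : 10 * j * (v + 1) ≤ 18 * F)
    (key2 : (j + 1) * (v + 1) * (1.8 / j) ≤ kap * 0.0000001 * n) :
    n * (1 - kap * 0.0000001) ≤ khi * 0.0000001 * (1 + 0.0000026) * y ^ pp := by
  have rjp : (0:ℝ) < j := by linarith
  have hNN : N' - N ≤ (j + 1) * (v + 1) := by
    have : (j+1) * v' ≤ (j+1) * (v + 1) :=
      mul_le_mul_of_nonneg_left rv (by linarith)
    linarith
  have hH : (0:ℝ) < khi * 0.0000001 * (1 + 0.0000026) := by positivity
  have hc := chord_upper M M' N N' F F'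
    (khi * 0.0000001 * (1 + 0.0000026)) y n (by linarith) rMM rn1 rn2 (by linarith)
    (by rw [rFs]; linarith) hH rb1 rb3 rb4 (by linarith [c2]) (by linarith [c3])
  have hFp : (0:ℝ) < F := by linarith
  have hFp' : (0:ℝ) < F' := by rw [rFs]; linarith
  have hq : (F' - F) / F' ≤ 1.8 / j := by
    rw [div_le_div_iff₀ hFp' rjp]
    have e1 : F' - F = v' := by rw [rFs]; ring
    rw [e1]
    have e2 := mul_le_mul_of_nonneg_right rv rjp.le
    linarith
  have h3 : (N' - N) * ((F' - F) / F') ≤ (j + 1) * (v + 1) * (1.8 / j) := by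
    apply mul_le_mul hNN hq
    · apply div_nonneg
      · rw [rFs]; linarith
      · exact hFp'.le
    · positivity
  have : n * (1 - kap * 0.0000001) = n - kap * 0.0000001 * n := by ring
  rw [this]
  linarith

theorem node_interval {f : ℕ → ℕ} (hf : IsGol f) (kap klo khi j n : ℕ) (hj : 335 ≤ j) (hj2 : j + 1 ≤ 9066)
    (h1 : chk klo khi (Ns f j) (Ms f j) = true) (h1' : chk 0 khi (Ns f (j+1)) (Ms f (j+1)) = true)
    (h2 : chk2 kap j (f j) (Fs f j) (Ns f j) (Ms f j) = true) (hn1 : Ns f j ≤ n) (hn2 : n ≤ Ns f (j + 1)) :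
    (klo : ℝ) * 0.0000001 * (Fs f n : ℝ) ^ pp ≤ n * (1 + kap * 0.0000001) ∧
    (n : ℝ) * (1 - kap * 0.0000001) ≤ khi * 0.0000001 * (1 + 0.0000026) * (Fs f n : ℝ) ^ pp := by
  obtain ⟨hg1, hg2, hg3, hg4, hg5⟩ := gol_next hf
  have hF : StrictMono (Fs f) := strictMono_nat_of_lt_succ hg3
  have hN : StrictMono (Ns f) := hF.comp hF
  have hM : StrictMono (Ms f) := hF.comp hN
  have hMv : Ms f 9066 = 12241649551538241 := (vals hf).2.2.2.2.2.2
  have hMj : Ms f j ≤ 12241649551538241 := by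
    rw [← hMv]; exact hM.monotone (by omega)
  have hMj' : Ms f (j+1) ≤ 12241649551538241 := by
    rw [← hMv]; exact hM.monotone hj2
  have hFj : j ≤ Fs f j := hg4 j
  have hNj : j ≤ Ns f j := le_trans hFj (hg4 _)
  have hMjj : j ≤ Ms f j := le_trans hNj (hg4 _)
  have hFj' : j + 1 ≤ Fs f (j+1) := hg4 (j+1)
  have hMjj' : j + 1 ≤ Ms f (j+1) := le_trans (le_trans hFj' (hg4 _)) (hg4 _)
  obtain ⟨c1, c2⟩ := chk_real klo khi (Ns f j) (Ms f j) h1 (by omega) hMj
  obtain ⟨-, c3⟩ := chk_real 0 khi (Ns f (j+1)) (Ms f (j+1)) h1' (by omega) hMj'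
  obtain ⟨b1, b2, b3, b4⟩ := Fs_between hf j n (by omega) hn1 hn2
  have hv : f (j+1) ≤ f j + 1 := hg1 j (by omega)
  have hNs : Ns f (j+1) = Ns f j + (j+1) * f (j+1) := Ns_succ hf j
  have hFs : Fs f (j+1) = Fs f j + f (j+1) := by
    unfold Fs
    rw [Finset.sum_Icc_succ_top (by omega)]
  -- chk2
  unfold chk2 at h2
  simp only [Bool.and_eq_true, Nat.ble_eq] at h2
  obtain ⟨⟨d1, d2⟩, d3⟩ := h2
  -- khi positive
  have hkhi : 0 < khi := by
    rcases Nat.eq_zero_or_pos khi with h0 | h0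
    · exfalso
      unfold chk at h1
      simp only [Bool.and_eq_true, Nat.ble_eq] at h1
      have := h1.2
      rw [h0, zero_pow (by norm_num), zero_mul] at this
      have hpos : 0 < (10000000 * Ns f j) ^ 2584 := by
        apply Nat.pow_pos
        omega
      omega
    · exact h0
  clear h1 h1' hMj hMj' hMv
  -- casts
  have rj : (335:ℝ) ≤ j := by exact_mod_cast hj
  have rFj : (j:ℝ) ≤ Fs f j := by exact_mod_cast hFj
  have rNj : (j:ℝ) ≤ Ns f j := by exact_mod_cast hNj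
  have rMj : (j:ℝ) ≤ Ms f j := by exact_mod_cast hMjj
  have rv : (f (j+1) : ℝ) ≤ f j + 1 := by exact_mod_cast hv
  have rNs : (Ns f (j+1) : ℝ) = Ns f j + (j+1) * f (j+1) := by rw [hNs]; push_cast; ring
  have rFs : (Fs f (j+1) : ℝ) = Fs f j + f (j+1) := by rw [hFs]; push_cast; ring
  have rn1 : (Ns f j : ℝ) ≤ n := by exact_mod_cast hn1
  have rn2 : (n : ℝ) ≤ Ns f (j+1) := by exact_mod_cast hn2
  have rb1 : (Ms f j : ℝ) + (n - Ns f j) * Fs f j ≤ Fs f n := by
    have : ((Ms f j + (n - Ns f j) * Fs f j : ℕ) : ℝ) ≤ Fs f n := by exact_mod_cast b1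
    push_cast [Nat.cast_sub hn1] at this
    exact this
  have rb2 : (Fs f n : ℝ) ≤ (Ms f j : ℝ) + (n - Ns f j) * Fs f (j+1) := by
    have : (Fs f n : ℝ) ≤ ((Ms f j + (n - Ns f j) * Fs f (j+1) : ℕ) : ℝ) := by exact_mod_cast b2
    push_cast [Nat.cast_sub hn1] at this
    exact this
  have rb3 : (Fs f n : ℝ) ≤ Ms f (j+1) := by exact_mod_cast b3
  have rb4 : (Ms f (j+1) : ℝ) ≤ (Ms f j : ℝ) + (Ns f (j+1) - Ns f j) * Fs f (j+1) := by
    have hle : Ns f j ≤ Ns f (j+1) := hN.monotone (by omega)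
    have : (Ms f (j+1) : ℝ) ≤ ((Ms f j + (Ns f (j+1) - Ns f j) * Fs f (j+1) : ℕ) : ℝ) := by exact_mod_cast b4
    push_cast [Nat.cast_sub hle] at this
    exact this
  have rMM : (Ms f j : ℝ) < Ms f (j+1) := by exact_mod_cast hM (Nat.lt_succ_self j)
  have rd1 : (10:ℝ) * j * 61804 * Ns f j * (Fs f j + (f j + 1)) ≤ 100000 * Ms f j * (10 * j + 18) := by
    exact_mod_cast d1
  have rd2 : (10:ℝ) * j * (f j + 1) ≤ 18 * Fs f j := by exact_mod_cast d2
  have rd3 : ((j:ℝ) + 1) * (f j + 1) * 18 * 10000000 ≤ 10 * j * kap * Ns f j := by exact_mod_cast d3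
  have rf0 : (0:ℝ) ≤ f (j+1) := Nat.cast_nonneg _
  have rfj0 : (0:ℝ) ≤ f j := Nat.cast_nonneg _
  have rk0 : (0:ℝ) ≤ kap := Nat.cast_nonneg _
  have rkhi : (0:ℝ) < khi := by exact_mod_cast hkhi
  have key2 := node_interval_node_interval_key j (f j) kap (Ns f j) n rj rk0 rn1 rd3
  constructor
  · rcases Nat.eq_zero_or_pos klo with h0 | h0
    · rw [h0]; simp only [Nat.cast_zero, zero_mul]; positivity
    · have rklo : (0:ℝ) < klo := by exact_mod_cast h0
      exact node_interval_node_interval_low j (f j) (f (j+1)) kap klo (Ns f j) (Ns f (j+1)) (Fs f j) (Fs f (j+1))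
        (Ms f j) (Fs f n) n rj rfj0 rf0 (Nat.cast_nonneg _) rk0 rklo rNj rFj rMj rn1 rn2 rv rFs rNs
        rb2 c1 rd1 key2
  · exact node_interval_node_interval_up j (f j) (f (j+1)) kap khi (Ns f j) (Ns f (j+1)) (Fs f j) (Fs f (j+1))
        (Ms f j) (Ms f (j+1)) (Fs f n) n rj rfj0 rf0 rkhi rFj rMj rn1 rn2 rv rFs rNs
        rMM rb1 rb3 rb4 c2 c3 rd2 key2

end Pool.Agent.MP64d899
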