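import Pool.Agent.MP64d899.Defs
import Pool.Agent.MP64d899.L_gol_pos
import Pool.Agent.MP64d899.L_gol_next
import Pool.Agent.MP64d899.L_Ns_succ
import Pool.Agent.MP64d899.L_loop_sound
import Pool.Agent.MP64d899.L_vals
import Pool.Agent.MP64d899.L_node_interval
set_option autoImplicit false
namespace Pool.Agent.MP64d899

theorem NAC_NAC_step (g : ℕ → ℕ) (a n : ℕ) (ha : g a ≤ n) : ∀ d : ℕ, n ≤ g (a + d + 1) →
    ∃ j, a ≤ j ∧ j < a + d + 1 ∧ g j ≤ n ∧ n ≤ g (j + 1) := by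
  intro d
  induction d with
  | zero => intro h; exact ⟨a, le_rfl, by omega, ha, h⟩
  | succ d ih =>
    intro h
    by_cases h' : n ≤ g (a + d + 1)
    · obtain ⟨j, h1, h2, h3, h4⟩ := ih h'
      exact ⟨j, h1, by omega, h3, h4⟩
    · exact ⟨a + d + 1, by omega, by omega, (not_le.mp h').le, h⟩

theorem NAC_NAC_mono (klo khi khi' N M : ℕ) (h : chk klo khi N M = true) (hk : khi ≤ khi') :
    chk 0 khi' N M = true := by
  unfold chk at h ⊢
  rw [Bool.and_eq_true, Nat.ble_eq, Nat.ble_eq] at h ⊢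
  refine ⟨?_, h.2.trans (Nat.mul_le_mul_right _ (Nat.pow_le_pow_left hk _))⟩
  rw [Nat.zero_pow (by norm_num), Nat.zero_mul]
  exact Nat.zero_le _

theorem NAC_NAC_f1 (X n : ℝ) (hX : 0 ≤ X) (hn : 0 ≤ n)
    (h1 : (12016950 : ℝ) * 0.0000001 * X ≤ n * (1 + 440 * 0.0000001))
    (h2 : n * (1 - 440 * 0.0000001) ≤ (12019116 : ℝ) * 0.0000001 * (1 + 0.0000026) * X) :
    1.20164 * X ≤ n ∧ n ≤ 1.20197 * X := by
  constructor <;> linarith

theorem NAC_NAC_f2 (X n : ℝ) (hX : 0 ≤ X) (hn : 0 ≤ n)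
    (h1 : (12016196 : ℝ) * 0.0000001 * X ≤ n * (1 + 50 * 0.0000001))
    (h2 : n * (1 - 50 * 0.0000001) ≤ (12016949 : ℝ) * 0.0000001 * (1 + 0.0000026) * X) :
    1.20161 * X ≤ n ∧ n ≤ 1.201705 * X := by
  constructor <;> linarith

theorem NAC_NAC_lo (j v F N M : ℕ) (h1 : 335 ≤ j) (h2 : j ≤ 999) (h : tst j v F N M = true) :
    chk 12016950 12019116 N M = true ∧ chk2 440 j v F N M = true := by
  unfold tst at h
  rw [if_neg (by rw [Nat.ble_eq]; omega), if_pos (by rw [Nat.ble_eq]; omega), Bool.and_eq_true] at h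
  exact h

theorem NAC_NAC_hi (j v F N M : ℕ) (h1 : 1000 ≤ j) (h : tst j v F N M = true) :
    chk 12016196 12016949 N M = true ∧ chk2 50 j v F N M = true := by
  unfold tst at h
  rw [if_neg (by rw [Nat.ble_eq]; omega), if_neg (by rw [Nat.ble_eq]; omega), Bool.and_eq_true] at h
  exact h

theorem NAC {f : ℕ → ℕ} (hf : IsGol f) :
    (∀ n : ℕ, 1880161 ≤ n → n ≤ 32875989 → 1.20164 * (Fs f n : ℝ) ^ pp ≤ n ∧ (n : ℝ) ≤ 1.20197 * (Fs f n : ℝ) ^ pp) ∧
    (∀ n : ℕ, 32875989 ≤ n → n ≤ 10534727210 → 1.20161 * (Fs f n : ℝ) ^ pp ≤ n ∧ (n : ℝ) ≤ 1.201705 * (Fs f n : ℝ) ^ pp) := by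
  obtain ⟨hF335, hN335, hM335, hN1000, hM1000, hN9066, hM9066⟩ := vals hf
  have hsound := loop_sound hf
  rw [hF335] at hsound
  constructor
  · intro n hn1 hn2
    obtain ⟨j, hj1, hj2, hj3, hj4⟩ := NAC_NAC_step (Ns f) 335 n (by rw [hN335]; exact hn1) 664
      (by rw [show 335 + 664 + 1 = 1000 from rfl, hN1000]; exact hn2)
    have hj2' : j ≤ 999 := by omega
    obtain ⟨ha, hb⟩ := NAC_NAC_lo j _ _ _ _ hj1 hj2' (hsound j (by omega) (by omega))
    have hc : chk 0 12019116 (Ns f (j + 1)) (Ms f (j + 1)) = true := by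
      have ht := hsound (j + 1) (by omega) (by omega)
      by_cases h : j + 1 ≤ 999
      · exact NAC_NAC_mono _ _ _ _ _ (NAC_NAC_lo (j + 1) _ _ _ _ (by omega) h ht).1 le_rfl
      · exact NAC_NAC_mono _ _ _ _ _ (NAC_NAC_hi (j + 1) _ _ _ _ (by omega) ht).1 (by norm_num)
    obtain ⟨h1, h2⟩ := node_interval hf 440 12016950 12019116 j n hj1 (by omega) ha hc hb hj3 hj4
    have hF : 0 ≤ (Fs f n : ℝ) ^ pp := Real.rpow_nonneg (Nat.cast_nonneg _) _
    exact NAC_NAC_f1 _ _ hF (Nat.cast_nonneg _) (by exact_mod_cast h1) (by exact_mod_cast h2)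
  · intro n hn1 hn2
    obtain ⟨j, hj1, hj2, hj3, hj4⟩ := NAC_NAC_step (Ns f) 1000 n (by rw [hN1000]; exact hn1) 8065
      (by rw [show 1000 + 8065 + 1 = 9066 from rfl, hN9066]; exact hn2)
    obtain ⟨ha, hb⟩ := NAC_NAC_hi j _ _ _ _ hj1 (hsound j (by omega) (by omega))
    have hc : chk 0 12016949 (Ns f (j + 1)) (Ms f (j + 1)) = true := by
      have ht := hsound (j + 1) (by omega) (by omega)
      exact NAC_NAC_mono _ _ _ _ _ (NAC_NAC_hi (j + 1) _ _ _ _ (by omega) ht).1 le_rfl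
    obtain ⟨h1, h2⟩ := node_interval hf 50 12016196 12016949 j n (by omega) (by omega) ha hc hb hj3 hj4
    have hF : 0 ≤ (Fs f n : ℝ) ^ pp := Real.rpow_nonneg (Nat.cast_nonneg _) _
    exact NAC_NAC_f2 _ _ hF (Nat.cast_nonneg _) (by exact_mod_cast h1) (by exact_mod_cast h2)

end Pool.Agent.MP64d899
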