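import Pool.Agent.MP64d899.Defs
import Pool.Agent.MP64d899.L_tau_facts
import Pool.Agent.MP64d899.L_cc_bounds
import Pool.Agent.MP64d899.L_gol_pos
import Pool.Agent.MP64d899.L_gol_le_iff
import Pool.Agent.MP64d899.L_gol_next
import Pool.Agent.MP64d899.L_vals
import Pool.Agent.MP64d899.L_NAC
set_option autoImplicit false
namespace Pool.Agent.MP64d899

theorem MAC_MAC_aux {f : ℕ → ℕ} (hf : IsGol f) (n0 n1 m0 m1 : ℕ) (h0 : 1 ≤ n0) (h1 : 1 ≤ n1)
    (hm0 : 1 ≤ m0)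
    (e0 : Fs f n0 = m0) (e1 : Fs f n1 = m1) (a b : ℝ) (ha : 0 < a) (hb : 0 < b)
    (h : ∀ n : ℕ, n0 ≤ n → n ≤ n1 → a * (Fs f n : ℝ) ^ pp ≤ n ∧ (n : ℝ) ≤ b * (Fs f n : ℝ) ^ pp)
    (m : ℕ) (hm : m0 < m) (hm' : m ≤ m1) :
    a * (m : ℝ) ^ pp ≤ f m ∧ (f m : ℝ) - 1 ≤ b * (m : ℝ) ^ pp ∧ (n0 : ℝ) ≤ b * (m : ℝ) ^ pp ∧
      0 ≤ (m : ℝ) ^ pp := by
  have hpp : 0 ≤ pp := by
    have := tau_facts.2.2.2.2.1
    linarith
  have hm1 : 1 ≤ m := by omega
  have hn0 : n0 < f m := by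
    by_contra hc
    have := (gol_le_iff hf m n0 hm1 h0).1 (not_lt.1 hc)
    omega
  have hn1 : f m ≤ n1 := (gol_le_iff hf m n1 hm1 h1).2 (by omega)
  have hmF : m ≤ Fs f (f m) := (gol_le_iff hf m (f m) hm1 (by omega)).1 le_rfl
  have hFm : Fs f (f m - 1) < m := by
    by_contra hc
    have := (gol_le_iff hf m (f m - 1) hm1 (by omega)).2 (not_lt.1 hc)
    omega
  have k1 := (h (f m) (by omega) hn1).1
  have k2 := (h (f m - 1) (by omega) (by omega)).2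
  have k3 : (m : ℝ) ^ pp ≤ (Fs f (f m) : ℝ) ^ pp :=
    Real.rpow_le_rpow (Nat.cast_nonneg _) (by exact_mod_cast hmF) hpp
  have k4 : (Fs f (f m - 1) : ℝ) ^ pp ≤ (m : ℝ) ^ pp :=
    Real.rpow_le_rpow (Nat.cast_nonneg _) (by exact_mod_cast hFm.le) hpp
  have k5 : ((f m - 1 : ℕ) : ℝ) = (f m : ℝ) - 1 := by
    rw [Nat.cast_sub (by omega), Nat.cast_one]
  rw [k5] at k2
  have k6 : (n0 : ℝ) ≤ (f m : ℝ) - 1 := by
    have : n0 + 1 ≤ f m := hn0
    have h2 : ((n0 : ℕ) : ℝ) + 1 ≤ f m := by exact_mod_cast this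
    linarith
  have k7 := mul_le_mul_of_nonneg_left k3 ha.le
  have k8 := mul_le_mul_of_nonneg_left k4 hb.le
  exact ⟨k7.trans k1, k2.trans k8, k6.trans (k2.trans k8), Real.rpow_nonneg (Nat.cast_nonneg _) _⟩


theorem MAC {f : ℕ → ℕ} (hf : IsGol f) :
    (∀ m : ℕ, 10534727210 < m → m ≤ 1080076187880 → |EE f m| ≤ 0.000195 * (m : ℝ) ^ pp) ∧
    (∀ m : ℕ, 1080076187880 < m → m ≤ 12241649551538241 → -0.000174 * (m : ℝ) ^ pp ≤ EE f m ∧ EE f m ≤ -0.000078 * (m : ℝ) ^ pp) := by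
  obtain ⟨v1, v2, v3, v4, v5, v6, v7⟩ := vals hf
  obtain ⟨c1, c2⟩ := cc_bounds
  obtain ⟨N1, N2⟩ := NAC hf
  have e1 : Fs f 1880161 = 10534727210 := by
    have h : Ms f 335 = Fs f (Ns f 335) := rfl
    rw [v2, v3] at h
    exact h.symm
  have e2 : Fs f 32875989 = 1080076187880 := by
    have h : Ms f 1000 = Fs f (Ns f 1000) := rfl
    rw [v4, v5] at h
    exact h.symm
  have e3 : Fs f 10534727210 = 12241649551538241 := by
    have h : Ms f 9066 = Fs f (Ns f 9066) := rfl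
    rw [v6, v7] at h
    exact h.symm
  constructor
  · intro m hm hm'
    obtain ⟨h1, h2, h3, h4⟩ := MAC_MAC_aux hf 1880161 32875989 10534727210 1080076187880 (by norm_num)
      (by norm_num) (by norm_num) e1 e2 1.20164 1.20197 (by norm_num) (by norm_num) N1 m hm hm'
    have h5 := mul_le_mul_of_nonneg_right c1.le h4
    have h6 := mul_le_mul_of_nonneg_right c2.le h4
    have h7 : (1880161 : ℝ) ≤ 1.20197 * (m : ℝ) ^ pp := by exact_mod_cast h3
    rw [EE, abs_le]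
    constructor
    · linarith
    · linarith
  · intro m hm hm'
    obtain ⟨h1, h2, h3, h4⟩ := MAC_MAC_aux hf 32875989 10534727210 1080076187880 12241649551538241
      (by norm_num) (by norm_num) (by norm_num) e2 e3 1.20161 1.201705 (by norm_num) (by norm_num)
      N2 m hm hm'
    have h5 := mul_le_mul_of_nonneg_right c1.le h4
    have h6 := mul_le_mul_of_nonneg_right c2.le h4
    have h7 : (32875989 : ℝ) ≤ 1.201705 * (m : ℝ) ^ pp := by exact_mod_cast h3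
    rw [EE]
    constructor
    · linarith
    · linarith

end Pool.Agent.MP64d899
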