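import Pool.Agent.MP64d899.Defs
import Pool.Agent.MP64d899.L_tau_facts
import Pool.Agent.MP64d899.L_cc_bounds
import Pool.Agent.MP64d899.L_log_vals
import Pool.Agent.MP64d899.L_vals
import Pool.Agent.MP64d899.L_NAC
import Pool.Agent.MP64d899.L_Fs_SS
import Pool.Agent.MP64d899.L_key_E
set_option autoImplicit false
namespace Pool.Agent.MP64d899

theorem S_base_S_base_core (S N M P a L c t : ℝ) (hN : 100000 < N) (hM0 : 0 < M) (hP : 0 < P) (ha : 0 < a)
    (t1 : 1.618033 < t) (t2 : t < 1.618034) (c1 : 1.2017833 < c) (c2 : c < 1.2017834)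
    (hL1 : 23.07 < L) (hL2 : L < 23.08)
    (n1 : 1.20161 * a ≤ N) (n2 : N ≤ 1.201705 * a)
    (f1 : S ≤ M - c / t * (P * N)) (f2 : M - c / t * (P * N) ≤ S + c * P)
    (k1 : -((M - c / t * (P * N)) / (c * P)) ≤ N - c * a)
    (k2 : N - c * a ≤ -((M - c / t * (P * N)) / (c * P)) * ((c / t * (P * N)) / M)) :
    |S| ≤ 0.007 * (P * N / (t * (L + 1.3))) := by
  have hN0 : 0 < N := by linarith
  have htau : 0 < t := by linarith
  have hcc : 0 < c := by linarith
  obtain ⟨u, hu⟩ : ∃ u : ℝ, P * N = t * u := ⟨P * N / t, by field_simp⟩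
  have hu0 : 0 < u := by
    have h1 : 0 < t * u := by rw [← hu]; exact mul_pos hP hN0
    exact (mul_pos_iff_of_pos_left htau).1 h1
  have hI : c / t * (P * N) = c * u := by
    rw [hu]; field_simp
  rw [hI] at f1 f2 k1 k2
  have hΦ : 0 < c * P := mul_pos hcc hP
  have hca : c * a < 1.2017834 * a := mul_lt_mul_of_pos_right c2 ha
  have hca' : 1.2017833 * a < c * a := mul_lt_mul_of_pos_right c1 ha
  have hD0 : 0 < M - c * u := by
    have h1 : N - c * a < 0 := by linarith
    have h2 : 0 < (M - c * u) / (c * P) := by linarith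
    exact (div_pos_iff_of_pos_right hΦ).1 h2
  have hD1 : (M - c * u) * N ≤ 0.0001734 * a * t * M := by
    have h1 : (M - c * u) / (c * P) * (c * u / M) ≤ 0.0001734 * a := by
      have e : -((M - c * u) / (c * P)) * (c * u / M) = -((M - c * u) / (c * P) * (c * u / M)) := by
        ring
      rw [e] at k2
      linarith
    have h2 : (M - c * u) / (c * P) * (c * u / M) = (M - c * u) * u / (P * M) := by
      field_simp
    rw [h2, div_le_iff₀ (mul_pos hP hM0)] at h1
    have h3 : (M - c * u) * N * u ≤ (0.0001734 * a * t * M) * u := by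
      have h4 := mul_le_mul_of_nonneg_right h1 hN0.le
      have h5 : 0.0001734 * a * (P * M) * N = 0.0001734 * a * M * (P * N) := by
        ring
      rw [h5, hu] at h4
      linarith
    exact le_of_mul_le_mul_right h3 hu0
  have hD2 : M - c * u ≤ 0.0002335 * M := by
    have h1 : a * t * M ≤ (N / 1.20161) * 1.618034 * M := by
      have h2 : a ≤ N / 1.20161 := by
        rw [le_div_iff₀ (by norm_num)]; linarith
      gcongr
    have h3 : (M - c * u) * N ≤ 0.0001734 * ((N / 1.20161) * 1.618034 * M) := by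
      calc (M - c * u) * N ≤ 0.0001734 * a * t * M := hD1
        _ = 0.0001734 * (a * t * M) := by ring
        _ ≤ _ := by gcongr
    have h4 : 0.0001734 * ((N / 1.20161) * 1.618034 * M) ≤ (0.0002335 * M) * N := by
      have h5 : 0 < N * M := mul_pos hN0 hM0
      have e1 : 0.0001734 * ((N / 1.20161) * 1.618034 * M) =
        (0.0001734 * 1.618034 / 1.20161) * (N * M) := by ring
      have e2 : (0.0002335 * M) * N = 0.0002335 * (N * M) := by ring
      rw [e1, e2]
      refine mul_le_mul_of_nonneg_right ?_ h5.le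
      norm_num
    exact le_of_mul_le_mul_right (h3.trans h4) hN0
  have hcu : c * u ≤ 1.2017834 * u := mul_le_mul_of_nonneg_right c2.le hu0.le
  have hD3 : M - c * u ≤ 0.000281 * u := by linarith
  have hW : 0.000287 * u ≤ 0.007 * (P * N / (t * (L + 1.3))) := by
    rw [hu, mul_div_mul_left _ _ htau.ne', ← mul_div_assoc, le_div_iff₀ (by linarith)]
    have : u * L ≤ u * 23.08 := mul_le_mul_of_nonneg_left hL2.le hu0.le
    linarith
  refine le_trans ?_ hW
  rw [abs_le]
  constructor
  · have hΦ2 : c * P ≤ 0.000287 * u := by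
      have h1 : P * 100000 ≤ P * N := mul_le_mul_of_nonneg_left hN.le hP.le
      have h2 : t * u ≤ 1.618034 * u := mul_le_mul_of_nonneg_right t2.le hu0.le
      have h3 : c * P ≤ 1.2017834 * P := mul_le_mul_of_nonneg_right c2.le hP.le
      linarith
    linarith
  · linarith

theorem S_base {f : ℕ → ℕ} (hf : IsGol f) : |SS f 10534727210| ≤ 0.007 * WU 10534727210 := by
  obtain ⟨t1, t2, t3, t4, p1, p2⟩ := tau_facts
  obtain ⟨c1, c2⟩ := cc_bounds
  obtain ⟨l1, l2, -⟩ := log_vals
  obtain ⟨-, -, -, -, -, v1, v2⟩ := vals hf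
  have hM : Fs f 10534727210 = 12241649551538241 := by
    rw [← v2]
    unfold Ms
    rw [v1]
  have hNAC := (NAC hf).2 10534727210 (by norm_num) le_rfl
  have hFS := Fs_SS hf 10534727210 (by norm_num)
  rw [hM] at hNAC hFS
  have hnum : ((10534727210 : ℕ) : ℝ) = 10534727210 := by norm_num
  have hnum2 : ((12241649551538241 : ℕ) : ℝ) = 12241649551538241 := by norm_num
  rw [hnum, hnum2] at hNAC hFS
  have hkey := key_E 10534727210 12241649551538241 (by norm_num) (by norm_num)
  have hL1 : (23.07 : ℝ) < Real.log 10534727210 := by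
    rw [Real.lt_log_iff_exp_lt (by norm_num)]; exact l1
  have hL2 : Real.log 10534727210 < (23.08 : ℝ) := by
    rw [Real.log_lt_iff_lt_exp (by norm_num)]; exact l2
  have htp : tau = pp + 1 := by unfold pp; ring
  have hTP : (10534727210 : ℝ) ^ tau = (10534727210 : ℝ) ^ pp * 10534727210 := by
    rw [htp, Real.rpow_add_one (by norm_num)]
  have hP : 0 < (10534727210 : ℝ) ^ pp := Real.rpow_pos_of_pos (by norm_num) _
  have ha : 0 < (12241649551538241 : ℝ) ^ pp := Real.rpow_pos_of_pos (by norm_num) _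
  unfold WU
  rw [hTP] at hFS hkey ⊢
  exact S_base_S_base_core (SS f 10534727210) 10534727210 12241649551538241 _ _ _ cc tau (by norm_num)
    (by norm_num) hP ha t1 t2 c1 c2 hL1 hL2 hNAC.1 hNAC.2 hFS.1 hFS.2 hkey.1 hkey.2

end Pool.Agent.MP64d899
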