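import Pool.Agent.MP64d899.Defs
import Pool.Agent.MP64d899.L_log_vals
import Pool.Agent.MP64d899.L_gol_pos
import Pool.Agent.MP64d899.L_gol_le_iff
import Pool.Agent.MP64d899.L_gol_next
import Pool.Agent.MP64d899.L_vals
import Pool.Agent.MP64d899.L_MAC
import Pool.Agent.MP64d899.L_Fs_SS
import Pool.Agent.MP64d899.L_D1
import Pool.Agent.MP64d899.L_G3
import Pool.Agent.MP64d899.L_S_base
set_option autoImplicit false
namespace Pool.Agent.MP64d899

theorem glob {f : ℕ → ℕ} (hf : IsGol f) : (∀ n : ℕ, 10534727210 ≤ n → |SS f n| ≤ 0.007 * WU n) ∧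
    (∀ m : ℕ, 10534727210 < m → |EE f m| ≤ 0.007 * (m : ℝ) ^ pp / (Real.log m + 2)) := by
  obtain ⟨lv1, lv2, lv3, lv4, lv5, lv6, lv7⟩ := log_vals
  have hA : ∀ n : ℕ, 10534727210 ≤ n → (∀ m : ℕ, 10534727210 < m → m ≤ n →
      |EE f m| ≤ 0.007 * (m : ℝ) ^ pp / (Real.log m + 2)) → |SS f n| ≤ 0.007 * WU n := by
    intro n hn
    induction n, hn using Nat.le_induction with
    | base => intro _; exact_mod_cast S_base hf
    | succ n hn ih =>
      intro h
      have h1 := ih (fun m hm hmn => h m hm (by omega))
      have h2 := h (n+1) (by omega) le_rfl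
      have hS : SS f (n+1) = SS f n + EE f (n+1) := by
        unfold SS; rw [Finset.sum_Icc_succ_top (by omega)]
      have hn' : (10:ℝ)^9 ≤ (n:ℝ) := by
        have : ((10534727210:ℕ):ℝ) ≤ (n:ℝ) := by exact_mod_cast hn
        norm_num at this ⊢; linarith
      have hD := D1 (n:ℝ) hn'
      push_cast at h2
      rw [hS]
      push_cast
      have h3 : |SS f n + EE f (n+1)| ≤ |SS f n| + |EE f (n+1)| := abs_add_le _ _
      have h4 : 0.007 * ((n:ℝ) + 1) ^ pp / (Real.log ((n:ℝ)+1) + 2) = 0.007 * (((n:ℝ) + 1) ^ pp / (Real.log ((n:ℝ)+1) + 2)) := by ring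
      rw [h4] at h2
      linarith
  have hB : ∀ m : ℕ, 10534727210 < m → |EE f m| ≤ 0.007 * (m : ℝ) ^ pp / (Real.log m + 2) := by
    intro m
    induction m using Nat.strong_induction_on with
    | _ m ih =>
      intro hm
      have hm0 : (0:ℝ) < (m:ℝ) := by exact_mod_cast (by omega : 0 < m)
      have hmp : 0 < (m:ℝ)^pp := Real.rpow_pos_of_pos hm0 _
      have hlog1 : 20 < Real.log m := by
        rw [Real.lt_log_iff_exp_lt hm0]
        have h0 : (10534727210:ℝ) < (m:ℝ) := by exact_mod_cast hm
        have h00 : (10:ℝ)^9 < 10534727210 := by norm_num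
        linarith
      by_cases h1 : m ≤ 1080076187880
      · have := (MAC hf).1 m hm h1
        refine this.trans ?_
        have hl : Real.log m ≤ 27.71 := by
          rw [Real.log_le_iff_le_exp hm0]
          have h0 : (m:ℝ) ≤ (1080076187880:ℝ) := by exact_mod_cast h1
          linarith
        rw [le_div_iff₀ (by linarith)]
        nlinarith
      by_cases h2 : m ≤ 12241649551538241
      · have := (MAC hf).2 m (by omega) h2
        have hl : Real.log m ≤ 37.05 := by
          rw [Real.log_le_iff_le_exp hm0]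
          have h0 : (m:ℝ) ≤ (12241649551538241:ℝ) := by exact_mod_cast h2
          linarith
        rw [le_div_iff₀ (by linarith)]
        have h3 : |EE f m| ≤ 0.000174 * (m:ℝ)^pp := by
          rw [abs_le]; constructor <;> nlinarith
        nlinarith
      · obtain ⟨v1, v2, v3, v4, v5, v6, v7⟩ := vals hf
        have hFs : Fs f 10534727210 = 12241649551538241 := by
          have : Ms f 9066 = Fs f (Ns f 9066) := rfl
          rw [v6] at this; rw [← this]; exact v7
        have hfm : 10534727210 < f m := by
          by_contra hc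
          have := (gol_le_iff hf m 10534727210 (by omega) (by omega)).1 (by omega)
          omega
        obtain ⟨n, hn⟩ : ∃ n, f m = n + 1 := ⟨f m - 1, by omega⟩
        have hmle : m ≤ Fs f (n+1) := (gol_le_iff hf m (n+1) (by omega) (by omega)).1 (by omega)
        have hmgt : Fs f n < m := by
          by_contra hc
          have := (gol_le_iff hf m n (by omega) (by omega)).2 (by omega)
          omega
        have hnm : n + 1 < m := by
          have := (gol_next hf).2.2.2.2 n (by omega)
          omega
        have hS1 := hA n (by omega) (fun k hk hkn => ih k (by omega) hk)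
        have hS2 := hA (n+1) (by omega) (fun k hk hkn => ih k (by omega) hk)
        have hF1 := Fs_SS hf n (by omega)
        have hF2 := Fs_SS hf (n+1) (by omega)
        have hcast : (((n+1:ℕ):ℝ)) - 1 = (n:ℝ) := by push_cast; ring
        have hn' : (10:ℝ)^9 ≤ (n:ℝ) := by
          have : ((10534727210:ℕ):ℝ) ≤ (n:ℝ) := by exact_mod_cast (by omega : 10534727210 ≤ n)
          norm_num at this ⊢; linarith
        have := G3 ((n+1:ℕ):ℝ) (SS f n) (SS f (n+1)) (Fs f n) (Fs f (n+1)) m (by rw [hcast]; exact hn')
          (by rw [hcast]; exact hS1) (by rw [hcast]; exact hF1.1) (by rw [hcast]; exact hF1.2)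
          hS2 hF2.1 hF2.2 (by exact_mod_cast hmgt.le) (by exact_mod_cast hmle)
        have hE : EE f m = ((n+1:ℕ):ℝ) - cc * (m:ℝ)^pp := by unfold EE; rw [hn]
        rw [hE]; exact this
  exact ⟨fun n hn => hA n hn (fun m hm _ => hB m hm), hB⟩

end Pool.Agent.MP64d899
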