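import Pool.Agent.MP64d899.Defs
import Pool.Agent.MP64d899.L_tau_facts
import Pool.Agent.MP64d899.L_log_vals
import Pool.Agent.MP64d899.L_D2
import Pool.Agent.MP64d899.L_glob
set_option autoImplicit false
namespace Pool.Agent.MP64d899

theorem ST1_ST1_wl (x y : ℝ) (hx : Real.exp 27 ≤ x) (hxy : x ≤ y) :
    WL x ≤ Real.exp (-1.58 * (Real.log y - Real.log x)) * WL y := by
  have hx0 : 0 < x := (Real.exp_pos _).trans_le hx
  have hy0 : 0 < y := hx0.trans_le hxy
  obtain ⟨ht1, ht2, -, -, -, -⟩ := tau_facts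
  have hu : 27 ≤ Real.log x := (Real.le_log_iff_exp_le hx0).2 hx
  have huL : Real.log x ≤ Real.log y := Real.log_le_log hx0 hxy
  unfold WL
  rw [Real.rpow_def_of_pos hx0, Real.rpow_def_of_pos hy0]
  set u := Real.log x with hudef
  set L := Real.log y with hLdef
  have hu6 : 0 < u - 0.6 := by linarith
  have hL6 : 0 < L - 0.6 := by linarith
  have ht0 : 0 < tau := by linarith
  have h1 : L - 0.6 ≤ (u - 0.6) * Real.exp ((L - u) / (u - 0.6)) := by
    have h2 := Real.add_one_le_exp ((L - u) / (u - 0.6))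
    have h3 := mul_le_mul_of_nonneg_left h2 hu6.le
    refine le_trans (le_of_eq ?_) h3
    field_simp
    ring
  have h4 : (L - u) / (u - 0.6) ≤ (L - u) * 0.038 := by
    rw [div_le_iff₀ hu6]
    have h5 : 0 ≤ L - u := by linarith
    nlinarith
  have h6 : u * tau + (L - u) / (u - 0.6) ≤ -1.58 * (L - u) + L * tau := by
    have h5 : 0 ≤ L - u := by linarith
    nlinarith
  rw [← mul_div_assoc, div_le_div_iff₀ (mul_pos ht0 hu6) (mul_pos ht0 hL6)]
  rw [← Real.exp_add]
  calc Real.exp (u * tau) * (tau * (L - 0.6))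
      ≤ Real.exp (u * tau) * (tau * ((u - 0.6) * Real.exp ((L - u) / (u - 0.6)))) := by
        gcongr
    _ = Real.exp (u * tau + (L - u) / (u - 0.6)) * (tau * (u - 0.6)) := by
        rw [Real.exp_add]; ring
    _ ≤ Real.exp (-1.58 * (L - u) + L * tau) * (tau * (u - 0.6)) := by
        have := Real.exp_le_exp.2 h6
        exact mul_le_mul_of_nonneg_right this (mul_pos ht0 hu6).le

theorem ST1_ST1_wlpos (x : ℝ) (hx : Real.exp 27 ≤ x) : 0 < WL x := by
  have hx0 : 0 < x := (Real.exp_pos _).trans_le hx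
  obtain ⟨ht1, ht2, -, -, -, -⟩ := tau_facts
  have hu : 27 ≤ Real.log x := (Real.le_log_iff_exp_le hx0).2 hx
  unfold WL
  have h1 : 0 < x ^ tau := Real.rpow_pos_of_pos hx0 _
  have h2 : 0 < Real.log x - 0.6 := by linarith
  have h3 : 0 < tau := by linarith
  positivity

theorem ST1_ST1_wuwl (x : ℝ) (hx : Real.exp 27 ≤ x) : WU x ≤ WL x := by
  have hx0 : 0 < x := (Real.exp_pos _).trans_le hx
  obtain ⟨ht1, ht2, -, -, -, -⟩ := tau_facts
  have hu : 27 ≤ Real.log x := (Real.le_log_iff_exp_le hx0).2 hx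
  unfold WL WU
  have h1 : 0 < x ^ tau := Real.rpow_pos_of_pos hx0 _
  have h2 : 0 < Real.log x - 0.6 := by linarith
  have h3 : 0 < tau := by linarith
  apply div_le_div_of_nonneg_left h1.le (mul_pos h3 h2)
  apply mul_le_mul_of_nonneg_left _ h3.le
  linarith


theorem ST1 {f : ℕ → ℕ} (hf : IsGol f) (a b l al ep s : ℝ) (ha : 27.7 ≤ a) (hl : 0 ≤ l) (hal : 0 < al) (hs : s = 1 ∨ s = -1)
    (hep : (al + 0.007) * Real.exp (-1.58 * l) ≤ ep * al)
    (h : ∀ m : ℕ, Real.exp a < m → (m : ℝ) ≤ Real.exp b → al * (m : ℝ) ^ pp / Real.log m ≤ s * EE f m) :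
    ∀ n : ℕ, Real.exp (a + l) ≤ n → (n : ℝ) ≤ Real.exp b → al * (1 - ep) * WL n ≤ s * SS f n := by
  intro n hn1 hn2
  set n1 : ℕ := Nat.floor (Real.exp a) with hn1def
  obtain ⟨-, v2, -, -, -, -, v7⟩ := log_vals
  have hle : (n1 : ℝ) ≤ Real.exp a := Nat.floor_le (Real.exp_pos _).le
  have hlt : Real.exp a < (n1 : ℝ) + 1 := Nat.lt_floor_add_one _
  have hbig : (10534727210 : ℕ) ≤ n1 := by
    apply Nat.le_floor
    have h1 : Real.exp 23.08 ≤ Real.exp a := Real.exp_le_exp.2 (by linarith)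
    push_cast
    linarith
  have hn27 : Real.exp 27 ≤ (n1 : ℝ) := by
    have h1 : Real.exp 27.7 ≤ Real.exp a := Real.exp_le_exp.2 ha
    have h2 : Real.exp 27.7 = Real.exp 27 * Real.exp 0.7 := by
      rw [← Real.exp_add]; norm_num
    have h3 := Real.add_one_le_exp (0.7 : ℝ)
    have h4 : (2 : ℝ) ≤ Real.exp 27 := by
      have := Real.add_one_le_exp (27 : ℝ)
      linarith
    have h5 : Real.exp 27 * 1.7 ≤ Real.exp 27 * Real.exp 0.7 := by
      apply mul_le_mul_of_nonneg_left _ (Real.exp_pos _).le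
      linarith
    linarith
  have hna : Real.exp a ≤ (n : ℝ) := by
    refine le_trans (Real.exp_le_exp.2 ?_) hn1
    linarith
  have hn1n : n1 ≤ n := by
    have : (n1 : ℝ) ≤ n := hle.trans hna
    exact_mod_cast this
  have htel : ∀ k : ℕ, n1 ≤ k → (k : ℝ) ≤ Real.exp b →
      s * SS f n1 + al * (WL k - WL n1) ≤ s * SS f k := by
    intro k hk
    induction k, hk using Nat.le_induction with
    | base => intro _; simp
    | succ k hk ih =>
      intro hkb
      push_cast at hkb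
      have ih' := ih (by linarith)
      have e1 : SS f (k + 1) = SS f k + EE f (k + 1) := by
        unfold SS
        rw [Finset.sum_Icc_succ_top (by omega)]
      have hk1 : (n1 : ℝ) ≤ k := by exact_mod_cast hk
      have h9 : (10 : ℝ) ^ 9 ≤ k := by
        have : (10534727210 : ℝ) ≤ n1 := by exact_mod_cast hbig
        have h10 : (10 : ℝ) ^ 9 ≤ 10534727210 := by norm_num
        linarith
      have hD := D2 k h9
      have hE := h (k + 1) (by push_cast; linarith) (by push_cast; linarith)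
      push_cast at hE ⊢
      rw [e1, mul_add]
      have h11 : al * (WL (k + 1) - WL k) ≤ al * ((k + 1 : ℝ) ^ pp / Real.log (k + 1)) :=
        mul_le_mul_of_nonneg_left hD hal.le
      rw [← mul_div_assoc] at h11
      linarith
  have hT := htel n hn1n hn2
  have hG := (glob hf).1 n1 hbig
  have hSS : -(0.007 * WU n1) ≤ s * SS f n1 := by
    have h1 := abs_le.1 hG
    rcases hs with h2 | h2
    · rw [h2]; linarith [h1.1]
    · rw [h2]; linarith [h1.2]
  have hW1 := ST1_ST1_wuwl n1 hn27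
  have hnn : (n1 : ℝ) ≤ n := by exact_mod_cast hn1n
  have hW2 := ST1_ST1_wl n1 n hn27 hnn
  have hn0 : (0 : ℝ) < n := (Real.exp_pos _).trans_le hna
  have hn10 : (0 : ℝ) < n1 := (Real.exp_pos _).trans_le hn27
  have hL1 : a + l ≤ Real.log n := (Real.le_log_iff_exp_le hn0).2 hn1
  have hL2 : Real.log n1 ≤ a := (Real.log_le_iff_le_exp hn10).2 hle
  have hpos : 0 < WL n := ST1_ST1_wlpos n (hn27.trans hnn)
  have hW3 : WL n1 ≤ Real.exp (-1.58 * l) * WL n := by
    refine hW2.trans (mul_le_mul_of_nonneg_right (Real.exp_le_exp.2 ?_) hpos.le)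
    linarith
  have h12 : (al + 0.007) * WL n1 ≤ (al + 0.007) * (Real.exp (-1.58 * l) * WL n) :=
    mul_le_mul_of_nonneg_left hW3 (by linarith)
  have h13 : (al + 0.007) * Real.exp (-1.58 * l) * WL n ≤ ep * al * WL n :=
    mul_le_mul_of_nonneg_right hep hpos.le
  nlinarith

end Pool.Agent.MP64d899
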