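import Pool.Agent.MP64d899.Defs
import Pool.Agent.MP64d899.L_tau_facts
import Pool.Agent.MP64d899.L_cc_bounds
import Pool.Agent.MP64d899.L_log_vals
import Pool.Agent.MP64d899.L_G2
set_option autoImplicit false
namespace Pool.Agent.MP64d899

theorem STr_STr_d3 (t l : ℝ) (ht : 1.618033 < t) (hl : 20 ≤ l) : 2 ≤ t * l - 0.3 := by
  have h1 : (1.6 : ℝ) * 20 ≤ t * l :=
    mul_le_mul (by linarith) hl (by norm_num) (by linarith)
  linarith

theorem STr_STr_h2 (t l : ℝ) (ht : 1.618033 < t) (hl : 20 ≤ l) :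
    0.04248 * t ≤ (0.0021 + 0.00236 * t + 0.1416 * (t + 1) + 0.072 * t) * l := by
  have h0 : 0 ≤ 0.0021 + 0.00236 * t + 0.1416 * (t + 1) + 0.072 * t := by linarith
  have h1 := mul_le_mul_of_nonneg_left hl h0
  linarith

theorem STr_STr_V1 (t l : ℝ) (ht : 1.618033 < t) (hl : 20 ≤ l) : l + 0.004 ≤ l * (t * l - 0.3) := by
  have h1 := mul_le_mul_of_nonneg_left (STr_STr_d3 t l ht hl) (by linarith : (0:ℝ) ≤ l)
  linarith

theorem STr_STr_k3 (t l : ℝ) (key : 0.24 * (t * (l - 0.59)) * (t * l - 0.3) ≤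
    ((l - 0.007) * (t * l - 0.3) - (t * (l - 0.59)) * (l + 0.004)) * l) :
    0.24 * (l * (t * (l - 0.59)) * (l * (t * l - 0.3))) ≤
      ((l - 0.007) * (l * (t * l - 0.3)) - l * (t * (l - 0.59)) * (l + 0.004)) * l ^ 2 := by
  have h := mul_le_mul_of_nonneg_left key (sq_nonneg l)
  refine le_of_eq_of_le ?_ (h.trans_eq ?_) <;> ring

theorem STr_STr_sq (l r X : ℝ) (h0 : 20 ≤ l) (h : l ≤ r / (1 / 4)) (hr : r ^ 4 = X)
    (hX : 10 ^ 12 ≤ X) : l ^ 2 ≤ 0.00003 * X := by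
  have h1 : l ≤ 4 * r := by linarith
  have h3 : l ^ 2 ≤ (4 * r) ^ 2 := pow_le_pow_left₀ (by linarith) h1 2
  have h5 : r ^ 4 = r ^ 2 * r ^ 2 := by ring
  have h4 : 1000000 ≤ r ^ 2 := by
    by_contra hcon
    push Not at hcon
    have h6 : (r ^ 2) ^ 2 < 1000000 ^ 2 := pow_lt_pow_left₀ hcon (sq_nonneg r) two_ne_zero
    have h7 : (r ^ 2) ^ 2 = X := by rw [← hr]; ring
    rw [h7] at h6
    linarith
  have h8 : 1000000 * r ^ 2 ≤ r ^ 2 * r ^ 2 := mul_le_mul_of_nonneg_right h4 (sq_nonneg r)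
  have h9 : (4 * r) ^ 2 = 16 * r ^ 2 := by ring
  rw [h9] at h3
  have h10 := sq_nonneg r
  rw [← hr, h5]
  linarith




theorem STr_STr_STr_core (X ℓ al y Ly : ℝ) (hX : 10 ^ 12 ≤ X) (hℓ : 20 ≤ ℓ) (hℓX : ℓ ^ 2 ≤ 0.00003 * X) (hy : X ≤ y)
    (hL1 : ℓ ≤ Ly) (hL2 : Ly ≤ ℓ + 0.01) (ha : 0.0005 ≤ al) :
    al * (((X + 1) / cc) * (1 + 0.004 / ℓ) / (tau * ℓ - 0.3)) ≤
      al * y / (cc * tau * (Ly - 0.6)) * (1 - 0.007 / Ly) - 3 := by
  obtain ⟨ht1, ht2, ht3, -, -, -⟩ := tau_facts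
  obtain ⟨hc1, hc2⟩ := cc_bounds
  have hc0 : 0 < cc := by linarith
  have ht0 : 0 < tau := by linarith
  have hal : 0 < al := by linarith
  have hℓ0 : 0 < ℓ := by linarith
  have hX0 : 0 < X := by linarith
  obtain ⟨U, hU⟩ : ∃ U, U = (ℓ - 0.007) / (ℓ * (tau * (ℓ - 0.59))) := ⟨_, rfl⟩
  obtain ⟨V, hV⟩ : ∃ V, V = (ℓ + 0.004) / (ℓ * (tau * ℓ - 0.3)) := ⟨_, rfl⟩
  have hd1 : 0 < ℓ * (tau * (ℓ - 0.59)) := mul_pos hℓ0 (mul_pos ht0 (by linarith))
  have hd3 : 0 < tau * ℓ - 0.3 := lt_of_lt_of_le two_pos (STr_STr_d3 tau ℓ ht1 hℓ)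
  have hd2 : 0 < ℓ * (tau * ℓ - 0.3) := mul_pos hℓ0 hd3
  have hUV : 0.24 / ℓ ^ 2 ≤ U - V := by
    rw [hU, hV, div_sub_div _ _ hd1.ne' hd2.ne', div_le_div_iff₀ (by positivity) (mul_pos hd1 hd2)]
    have key : 0.24 * (tau * (ℓ - 0.59)) * (tau * ℓ - 0.3) ≤
        ((ℓ - 0.007) * (tau * ℓ - 0.3) - (tau * (ℓ - 0.59)) * (ℓ + 0.004)) * ℓ := by
      have e : ((ℓ - 0.007) * (tau * ℓ - 0.3) - (tau * (ℓ - 0.59)) * (ℓ + 0.004)) * ℓ
          - 0.24 * (tau * (ℓ - 0.59)) * (tau * ℓ - 0.3)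
          = (0.579 * tau - 0.3 - 0.24 * tau ^ (2:ℕ)) * ℓ ^ 2
            + (0.0021 + 0.00236 * tau + 0.1416 * tau ^ (2:ℕ) + 0.072 * tau) * ℓ - 0.04248 * tau := by
        ring
      have h1 : 0 ≤ (0.579 * tau - 0.3 - 0.24 * tau ^ (2:ℕ)) * ℓ ^ 2 := by
        rw [ht3]
        apply mul_nonneg _ (sq_nonneg _)
        linarith
      have h2 : 0.04248 * tau ≤ (0.0021 + 0.00236 * tau + 0.1416 * tau ^ (2:ℕ) + 0.072 * tau) * ℓ := by
        rw [ht3]
        exact STr_STr_h2 tau ℓ ht1 hℓ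
      linarith only [e, h1, h2]
    exact STr_STr_k3 tau ℓ key
  have hV1 : V ≤ 1 := by
    rw [hV, div_le_one hd2]
    exact STr_STr_V1 tau ℓ ht1 hℓ
  have hmain : 7999 ≤ X * U - (X + 1) * V := by
    have h1 : 8000 ≤ X * (0.24 / ℓ ^ 2) := by
      rw [mul_div_assoc', le_div_iff₀ (by positivity)]
      linarith
    have h2 := mul_le_mul_of_nonneg_left hUV hX0.le
    linarith
  have hL : al * (((X + 1) / cc) * (1 + 0.004 / ℓ) / (tau * ℓ - 0.3)) = al / cc * ((X + 1) * V) := by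
    rw [hV]
    field_simp
  have hR : al / cc * (X * U) ≤ al * y / (cc * tau * (Ly - 0.6)) * (1 - 0.007 / Ly) := by
    have e1 : al * y / (cc * tau * (Ly - 0.6)) * (1 - 0.007 / Ly)
        = al / cc * (y / (tau * (Ly - 0.6)) * (1 - 0.007 / Ly)) := by
      have : Ly - 0.6 ≠ 0 := by linarith
      field_simp
    have e2 : X * U = X / (tau * (ℓ - 0.59)) * (1 - 0.007 / ℓ) := by
      rw [hU]
      have : ℓ - 0.59 ≠ 0 := by linarith
      field_simp
    rw [e1, e2]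
    apply mul_le_mul_of_nonneg_left _ (by positivity)
    have h3 : 0.007 / Ly ≤ 0.007 / ℓ := div_le_div_of_nonneg_left (by norm_num) hℓ0 hL1
    have h4 : 0.007 / ℓ ≤ 1 := by
      rw [div_le_one hℓ0]; linarith
    apply mul_le_mul _ (by linarith) (by linarith)
    · exact div_nonneg (by linarith) (mul_nonneg ht0.le (by linarith))
    · apply div_le_div₀ (by linarith) hy (mul_pos ht0 (by linarith))
      apply mul_le_mul_of_nonneg_left (by linarith) ht0.le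
  rw [hL]
  have h5 : 3 ≤ al / cc * (X * U - (X + 1) * V) := by
    have h6 : 0.0005 / 1.2017834 ≤ al / cc := by
      apply div_le_div₀ hal.le ha hc0 hc2.le
    have h7 : (0:ℝ) ≤ 0.0005 / 1.2017834 := by norm_num
    calc (3:ℝ) ≤ 0.0005 / 1.2017834 * 7999 := by norm_num
      _ ≤ al / cc * (X * U - (X + 1) * V) := by
        apply mul_le_mul h6 hmain (by norm_num) (by positivity)
  have h8 : al / cc * (X * U - (X + 1) * V) = al / cc * (X * U) - al / cc * ((X + 1) * V) := by ring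
  linarith


theorem STr (x S1 S2 F1 F2 m al s : ℝ) (hx : 10 ^ 12 ≤ x - 1) (hS1 : |S1| ≤ 0.007 * WU (x - 1)) (h11 : S1 ≤ F1 - cc / tau * (x - 1) ^ tau)
    (h12 : F1 - cc / tau * (x - 1) ^ tau ≤ S1 + cc * (x - 1) ^ pp) (hS2 : |S2| ≤ 0.007 * WU x) (h21 : S2 ≤ F2 - cc / tau * x ^ tau)
    (h22 : F2 - cc / tau * x ^ tau ≤ S2 + cc * x ^ pp) (hm1 : F1 ≤ m) (hm2 : m ≤ F2) (hs : s = 1 ∨ s = -1) (ha1 : 0.0005 ≤ al)
    (hW1 : al * WL (x - 1) ≤ s * S1) (hW2 : al * WL x ≤ s * S2) :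
    al * m ^ pp / Real.log m ≤ -s * (x - cc * m ^ pp) := by
  obtain ⟨ht1, ht2, ht3, -, hp1, hp2⟩ := tau_facts
  obtain ⟨hc1, hc2⟩ := cc_bounds
  obtain ⟨-, -, -, -, -, -, he20⟩ := log_vals
  have hc0 : 0 < cc := by linarith
  have ht0 : 0 < tau := by linarith
  have hal : 0 < al := by linarith
  have hp0 : 0 < pp := by linarith
  have hX0 : 0 < x - 1 := by linarith
  have hx0 : 0 < x := by linarith
  have hX9 : 10 ^ 9 ≤ x - 1 := by linarith
  have hx9 : 10 ^ 9 ≤ x := by linarith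
  obtain ⟨hF1, hA1, -, -, hlF1, -⟩ := G2 (x - 1) S1 F1 hX9 hS1 h11 h12
  obtain ⟨hF2, hA2, -, hB2, -, -⟩ := G2 x S2 F2 hx9 hS2 h21 h22
  obtain ⟨ℓ, hℓdef⟩ : ∃ ℓ, ℓ = Real.log (x - 1) := ⟨_, rfl⟩
  obtain ⟨L, hLdef⟩ : ∃ L, L = Real.log x := ⟨_, rfl⟩
  have hℓ20 : 20 ≤ ℓ := by
    rw [hℓdef, Real.le_log_iff_exp_le hX0]
    linarith
  have hℓL : ℓ ≤ L := by
    rw [hℓdef, hLdef]
    exact Real.log_le_log hX0 (by linarith)
  have hLℓ : L ≤ ℓ + 0.01 := by
    have h1 : L - ℓ = Real.log (x / (x - 1)) := by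
      rw [hℓdef, hLdef, Real.log_div hx0.ne' hX0.ne']
    have h2 : Real.log (x / (x - 1)) ≤ x / (x - 1) - 1 := Real.log_le_sub_one_of_pos (by positivity)
    have h3 : x / (x - 1) - 1 = 1 / (x - 1) := by
      field_simp
      ring
    have h4 : 1 / (x - 1) ≤ 0.01 := by
      rw [div_le_iff₀ hX0]
      linarith
    linarith
  have hℓX : ℓ ^ 2 ≤ 0.00003 * (x - 1) := by
    refine STr_STr_sq ℓ ((x - 1) ^ (1 / 4 : ℝ)) (x - 1) hℓ20 ?_ ?_ hx
    · rw [hℓdef]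
      exact Real.log_le_rpow_div hX0.le (by norm_num)
    · rw [← Real.rpow_natCast, ← Real.rpow_mul hX0.le]
      norm_num
  have hm0 : 0 < m := by linarith
  have hlogm : tau * ℓ - 0.3 ≤ Real.log m := by
    rw [hℓdef]
    exact hlF1.trans (Real.log_le_log hF1 hm1)
  have hd3 : 0 < tau * ℓ - 0.3 := lt_of_lt_of_le two_pos (STr_STr_d3 tau ℓ ht1 hℓ20)
  have hmF2 : m ^ pp ≤ F2 ^ pp := Real.rpow_le_rpow hm0.le hm2 hp0.le
  have hF1m : F1 ^ pp ≤ m ^ pp := Real.rpow_le_rpow hF1.le hm1 hp0.le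
  have hℓ0 : 0 < ℓ := by linarith
  have hL0 : 0 < L := by linarith
  have hF2up : F2 ^ pp ≤ ((x - 1 + 1) / cc) * (1 + 0.004 / ℓ) := by
    rw [← hLdef] at hB2
    have h1 := (abs_le.1 hB2).1
    have h2 : 0.004 * x / L ≤ 0.004 * x / ℓ := div_le_div_of_nonneg_left (by positivity) hℓ0 hℓL
    have h3 : cc * F2 ^ pp ≤ x + 0.004 * x / ℓ := by linarith
    have h4 : ((x - 1 + 1) / cc) * (1 + 0.004 / ℓ) = (x + 0.004 * x / ℓ) / cc := by
      field_simp
      ring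
    rw [h4, le_div_iff₀ hc0]
    linarith
  have hleft : al * m ^ pp / Real.log m ≤ al * (((x - 1 + 1) / cc) * (1 + 0.004 / ℓ) / (tau * ℓ - 0.3)) := by
    rw [mul_div_assoc]
    apply mul_le_mul_of_nonneg_left _ hal.le
    apply div_le_div₀ _ (hmF2.trans hF2up) hd3 hlogm
    exact (Real.rpow_nonneg hF2.le _).trans hF2up
  refine hleft.trans ?_
  have hpt : tau - pp = 1 := by unfold pp; ring
  have hdivpow : ∀ y : ℝ, 0 < y → y ^ tau / y ^ pp = y := by
    intro y hy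
    rw [← Real.rpow_sub hy, hpt, Real.rpow_one]
  rcases hs with hs | hs
  · subst hs
    have hcore := STr_STr_STr_core (x - 1) ℓ al (x - 1) ℓ hx hℓ20 hℓX le_rfl le_rfl (by linarith) ha1
    refine hcore.trans ?_
    have hWLpos : 0 < WL (x - 1) := by
      unfold WL
      rw [← hℓdef]
      exact div_pos (by positivity) (mul_pos ht0 (by linarith))
    have hS1pos : 0 < S1 := by
      rw [one_mul] at hW1
      exact lt_of_lt_of_le (mul_pos hal hWLpos) hW1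
    rw [abs_of_pos hS1pos, ← hℓdef] at hA1
    obtain ⟨D, hD⟩ : ∃ D, D = S1 / (cc * (x - 1) ^ pp) := ⟨_, rfl⟩
    rw [← hD] at hA1
    have h1 := (abs_le.1 hA1).2
    have hDlow : al * (x - 1) / (cc * tau * (ℓ - 0.6)) ≤ D := by
      rw [hD]
      have e1 : al * (x - 1) / (cc * tau * (ℓ - 0.6)) = al * WL (x - 1) / (cc * (x - 1) ^ pp) := by
        unfold WL
        rw [← hℓdef]
        have h2 := hdivpow (x - 1) hX0
        have h3 : (x - 1) ^ tau = (x - 1) * (x - 1) ^ pp := by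
          rw [div_eq_iff (by positivity)] at h2
          exact h2
        rw [h3]
        have h4 : (x - 1) ^ pp ≠ 0 := by positivity
        have h5 : ℓ - 0.6 ≠ 0 := by linarith
        field_simp
      rw [e1]
      apply div_le_div_of_nonneg_right _ (by positivity)
      linarith
    have hk : 0 ≤ 1 - 0.007 / ℓ := by
      have : 0.007 / ℓ ≤ 1 := by
        rw [div_le_one hℓ0]; linarith
      linarith
    have h6 := mul_le_mul_of_nonneg_right hDlow hk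
    have h7 : cc * F1 ^ pp ≤ cc * m ^ pp := mul_le_mul_of_nonneg_left hF1m hc0.le
    have h8 : D * (1 - 0.007 / ℓ) = D - 0.007 / ℓ * D := by ring
    linarith
  · subst hs
    have hcore := STr_STr_STr_core (x - 1) ℓ al x L hx hℓ20 hℓX (by linarith) hℓL hLℓ ha1
    refine hcore.trans ?_
    have hWLpos : 0 < WL x := by
      unfold WL
      rw [← hLdef]
      exact div_pos (by positivity) (mul_pos ht0 (by linarith))
    have hS2neg : S2 < 0 := by
      have h0 := lt_of_lt_of_le (mul_pos hal hWLpos) hW2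
      rw [neg_one_mul] at h0
      exact neg_pos.1 h0
    rw [abs_of_neg hS2neg, ← hLdef] at hA2
    obtain ⟨D, hD⟩ : ∃ D, D = -S2 / (cc * x ^ pp) := ⟨_, rfl⟩
    have hD' : S2 / (cc * x ^ pp) = -D := by rw [hD]; ring
    rw [← hD, hD'] at hA2
    have h1 := (abs_le.1 hA2).1
    have hDlow : al * x / (cc * tau * (L - 0.6)) ≤ D := by
      rw [hD]
      have e1 : al * x / (cc * tau * (L - 0.6)) = al * WL x / (cc * x ^ pp) := by
        unfold WL
        rw [← hLdef]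
        have h2 := hdivpow x hx0
        have h3 : x ^ tau = x * x ^ pp := by
          rw [div_eq_iff (by positivity)] at h2
          exact h2
        rw [h3]
        have h4 : x ^ pp ≠ 0 := by positivity
        have h5 : L - 0.6 ≠ 0 := by linarith
        field_simp
      rw [e1]
      apply div_le_div_of_nonneg_right _ (by positivity)
      linarith
    have hk : 0 ≤ 1 - 0.007 / L := by
      have : 0.007 / L ≤ 1 := by
        rw [div_le_one hL0]; linarith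
      linarith
    have h6 := mul_le_mul_of_nonneg_right hDlow hk
    have h7 : cc * m ^ pp ≤ cc * F2 ^ pp := mul_le_mul_of_nonneg_left hmF2 hc0.le
    have h8 : D * (1 - 0.007 / L) = D - 0.007 / L * D := by ring
    linarith

end Pool.Agent.MP64d899
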