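import Pool.Agent.MP64d899.Defs
import Pool.Agent.MP64d899.L_tau_facts
import Pool.Agent.MP64d899.L_log_vals
import Pool.Agent.MP64d899.L_gol_pos
import Pool.Agent.MP64d899.L_gol_le_iff
import Pool.Agent.MP64d899.L_gol_next
import Pool.Agent.MP64d899.L_Fs_SS
import Pool.Agent.MP64d899.L_G2
import Pool.Agent.MP64d899.L_STr
import Pool.Agent.MP64d899.L_glob
import Pool.Agent.MP64d899.L_ST1
set_option autoImplicit false
namespace Pool.Agent.MP64d899

theorem ST {f : ℕ → ℕ} (hf : IsGol f) (a b l al ep s : ℝ) (ha : 27.7 ≤ a) (hl : 0 ≤ l) (hal : 0 < al) (hs : s = 1 ∨ s = -1)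
    (hep : (al + 0.007) * Real.exp (-1.58 * l) ≤ ep * al) (hal2 : 0.0005 ≤ al * (1 - ep))
    (h : ∀ m : ℕ, Real.exp a < m → (m : ℝ) ≤ Real.exp b → al * (m : ℝ) ^ pp / Real.log m ≤ s * EE f m) :
    ∀ m : ℕ, Real.exp (tau * (a + l)) < m → (m : ℝ) ≤ Real.exp (tau * b - 0.31) →
      al * (1 - ep) * (m : ℝ) ^ pp / Real.log m ≤ -s * EE f m := by
  intro m hm1 hm2
  obtain ⟨t1, t2, _, _, _, _⟩ := tau_facts
  obtain ⟨_, lv2, _, lv4, _, _, _⟩ := log_vals
  have ht : 0 < tau := by linarith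
  have hmp : (0 : ℝ) < m := (Real.exp_pos _).trans hm1
  have hm0 : 1 ≤ m := by
    have : 0 < m := by exact_mod_cast hmp
    omega
  have hn1 : 1 ≤ f m := gol_pos hf m hm0
  have hle : m ≤ Fs f (f m) := (gol_le_iff hf m (f m) hm0 hn1).1 le_rfl
  have hmono : StrictMono (Fs f) := strictMono_nat_of_lt_succ (gol_next hf).2.2.1
  have hlogm : tau * (a + l) < Real.log m := (Real.lt_log_iff_exp_lt hmp).2 hm1
  have hG : ∀ n : ℕ, 10534727210 ≤ n → tau * Real.log n - 0.3 ≤ Real.log (Fs f n : ℝ) ∧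
      Real.log (Fs f n : ℝ) ≤ tau * Real.log n - 0.29 := by
    intro n hn
    have hnr : (10534727210 : ℝ) ≤ n := by exact_mod_cast hn
    obtain ⟨h1, h2⟩ := Fs_SS hf n (by omega)
    obtain ⟨_, _, _, _, h3, h4⟩ := G2 (n : ℝ) (SS f n) (Fs f n : ℝ) (by linarith)
      ((glob hf).1 n hn) h1 h2
    exact ⟨h3, h4⟩
  have h27 : tau * 27.7 ≤ tau * (a + l) := mul_le_mul_of_nonneg_left (by linarith) ht.le
  -- step 1
  have hn0 : 10534727210 < f m := by
    by_contra hcon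
    obtain ⟨n0, hn0⟩ : ∃ n0 : ℕ, n0 = 10534727210 := ⟨_, rfl⟩
    have hcon' : f m ≤ n0 := by omega
    have h1 : m ≤ Fs f n0 := hle.trans (hmono.monotone hcon')
    have h2 := (hG n0 hn0.ge).2
    have h3 : Real.log m ≤ Real.log (Fs f n0 : ℝ) :=
      Real.log_le_log hmp (by exact_mod_cast h1)
    have h4 : Real.log (n0 : ℝ) < 23.08 := by
      have h6 : (n0 : ℝ) = 10534727210 := by rw [hn0]; norm_num
      rw [h6, Real.log_lt_iff_lt_exp (by norm_num)]
      exact lv2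
    have h5 : tau * Real.log (n0 : ℝ) ≤ tau * 23.08 :=
      mul_le_mul_of_nonneg_left h4.le ht.le
    linarith
  obtain ⟨k, hk⟩ : ∃ k, f m = k + 1 := ⟨f m - 1, by omega⟩
  have hk0 : 10534727210 ≤ k := by omega
  have hk0r : (10534727210 : ℝ) ≤ k := by exact_mod_cast hk0
  have hkp : (0 : ℝ) < k := by linarith
  have hk1p : (0 : ℝ) < ((k + 1 : ℕ) : ℝ) := by positivity
  have hgt : Fs f k < m := by
    by_contra hcon
    have h1 := (gol_le_iff hf m k hm0 (by omega)).2 (by omega)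
    omega
  rw [hk] at hle
  have hFkp : (0 : ℝ) < Fs f k := by
    have := (gol_next hf).2.2.2.1 k
    have h2 : 0 < Fs f k := by omega
    exact_mod_cast h2
  -- (a)
  obtain ⟨_, ha2⟩ := hG (k + 1) (by omega)
  have ha3 : Real.log m ≤ Real.log (Fs f (k + 1) : ℝ) := Real.log_le_log hmp (by exact_mod_cast hle)
  have ha4 : a + l + 0.17 ≤ Real.log ((k + 1 : ℕ) : ℝ) := by
    have h1 : tau * (a + l + 0.17) ≤ tau * Real.log ((k + 1 : ℕ) : ℝ) := by nlinarith
    exact le_of_mul_le_mul_left h1 ht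
  have ha5 : Real.exp (a + l + 0.17) ≤ ((k + 1 : ℕ) : ℝ) := by
    rw [← Real.le_log_iff_exp_le hk1p]
    exact ha4
  have hE27 : (1060000000000 : ℝ) ≤ Real.exp (a + l) := by
    have h1 : Real.exp 27.7 ≤ Real.exp (a + l) := Real.exp_le_exp.2 (by linarith)
    have h2 : Real.exp 27.7 = Real.exp 27.71 * Real.exp (-0.01) := by
      rw [← Real.exp_add]
      norm_num
    have h3 : (-0.01 : ℝ) + 1 ≤ Real.exp (-0.01) := Real.add_one_le_exp _
    have h4 : Real.exp 27.71 * (-0.01 + 1) ≤ Real.exp 27.71 * Real.exp (-0.01) :=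
      mul_le_mul_of_nonneg_left h3 (Real.exp_pos _).le
    linarith
  have ha6 : Real.exp (a + l) * 1.17 ≤ ((k + 1 : ℕ) : ℝ) := by
    have h1 : Real.exp (a + l + 0.17) = Real.exp (a + l) * Real.exp 0.17 := Real.exp_add _ _
    have h2 : (0.17 : ℝ) + 1 ≤ Real.exp 0.17 := Real.add_one_le_exp _
    have h3 := mul_le_mul_of_nonneg_left h2 (Real.exp_pos (a + l)).le
    linarith
  have hk1 : ((k + 1 : ℕ) : ℝ) = k + 1 := by push_cast; ring
  have hka : Real.exp (a + l) ≤ (k : ℝ) := by linarith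
  have hk12 : (10 : ℝ) ^ 12 ≤ k := by
    have h1 : (10 : ℝ) ^ 12 = 1000000000000 := by norm_num
    rw [h1]
    linarith
  -- (b)
  obtain ⟨hb1, _⟩ := hG k hk0
  have hb2 : Real.log (Fs f k : ℝ) ≤ tau * b - 0.31 := by
    rw [Real.log_le_iff_le_exp hFkp]
    have : (Fs f k : ℝ) < m := by exact_mod_cast hgt
    linarith
  have hb3 : Real.log (k : ℝ) ≤ b - 0.006 := by
    have h1 : tau * Real.log (k : ℝ) ≤ tau * (b - 0.006) := by nlinarith
    exact le_of_mul_le_mul_left h1 ht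
  have hb4 : (k : ℝ) ≤ Real.exp (b - 0.006) := by
    rw [← Real.log_le_iff_le_exp hkp]
    exact hb3
  have hb5 : (k : ℝ) * 1.006 ≤ Real.exp b := by
    have h1 : Real.exp b = Real.exp (b - 0.006) * Real.exp 0.006 := by
      rw [← Real.exp_add]
      congr 1
      ring
    have h2 : (0.006 : ℝ) + 1 ≤ Real.exp 0.006 := Real.add_one_le_exp _
    rw [h1]
    exact mul_le_mul hb4 (by linarith) (by norm_num) (Real.exp_pos _).le
  have hkb : ((k + 1 : ℕ) : ℝ) ≤ Real.exp b := by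
    rw [hk1]
    linarith
  -- conclusion
  have hst := ST1 hf a b l al ep s ha hl hal hs hep h
  have hw1 := hst k hka (by linarith)
  have hw2 := hst (k + 1) (by linarith) hkb
  obtain ⟨s11, s12⟩ := Fs_SS hf k (by omega)
  obtain ⟨s21, s22⟩ := Fs_SS hf (k + 1) (by omega)
  have hg1 := (glob hf).1 k hk0
  have hg2 := (glob hf).1 (k + 1) (by omega)
  have hx1 : ((k + 1 : ℕ) : ℝ) - 1 = k := by rw [hk1]; ring
  have key := STr ((k + 1 : ℕ) : ℝ) (SS f k) (SS f (k + 1)) (Fs f k : ℝ) (Fs f (k + 1) : ℝ) (m : ℝ)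
    (al * (1 - ep)) s (by rw [hx1]; exact hk12) (by rw [hx1]; exact hg1) (by rw [hx1]; exact s11)
    (by rw [hx1]; exact s12) hg2 s21 s22 (by exact_mod_cast hgt.le) (by exact_mod_cast hle) hs hal2
    (by rw [hx1]; exact hw1) hw2
  unfold EE
  rw [hk]
  exact key

end Pool.Agent.MP64d899
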