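import Pool.Agent.MP64d899.Defs
import Pool.Agent.MP64d899.L_tau_facts
import Pool.Agent.MP64d899.L_log_vals
import Pool.Agent.MP64d899.L_MAC
import Pool.Agent.MP64d899.L_ST
set_option autoImplicit false
namespace Pool.Agent.MP64d899

theorem chain_chain_exp (i : ℕ) : Real.exp (-1.58 * (2.25 + 0.44 * (i : ℝ))) ≤ (1 / 2) ^ (i + 5) := by
  have h1 : ((1 : ℝ) / 2) ^ (i + 5) = Real.exp (-(((i : ℝ) + 5) * Real.log 2)) := by
    rw [← Real.exp_log (show (0 : ℝ) < (1 / 2) ^ (i + 5) by positivity), Real.log_pow, one_div,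
      Real.log_inv]
    congr 1
    push_cast
    ring
  rw [h1]
  apply Real.exp_le_exp.2
  have h2 := Real.log_two_lt_d9
  have h3 : (0 : ℝ) ≤ i := Nat.cast_nonneg i
  nlinarith

theorem chain {f : ℕ → ℕ} (hf : IsGol f) : ∀ i : ℕ, ∃ a b : ℝ, 27.7 + i ≤ a ∧ a + 8.4 + 1.2 * i ≤ b ∧
    ∀ m : ℕ, Real.exp a < m → (m : ℝ) ≤ Real.exp b →
      0.001 * (1 + (1 / 2) ^ i) * (m : ℝ) ^ pp / Real.log m ≤ (-1) ^ (i + 1) * EE f m := by
  intro i
  induction i with
  | zero =>
    refine ⟨27.71, 37.03, by norm_num, by norm_num, ?_⟩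
    intro m hm1 hm2
    obtain ⟨-, -, -, c4, c5, -, -⟩ := log_vals
    have h1 : 1080076187880 < m := by
      have : (1080076187880 : ℝ) < m := c4.trans hm1
      exact_mod_cast this
    have h2 : m ≤ 12241649551538241 := by
      have : (m : ℝ) ≤ 12241649551538241 := hm2.trans c5.le
      exact_mod_cast this
    have h3 := ((MAC hf).2 m h1 h2).2
    have hm0 : (0 : ℝ) < m := lt_trans (Real.exp_pos _) hm1
    have hlog : 27.71 < Real.log m := (Real.lt_log_iff_exp_lt hm0).2 hm1
    have hp : 0 ≤ (m : ℝ) ^ pp := Real.rpow_nonneg hm0.le _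
    have h4 : 0.001 * (1 + (1 / 2 : ℝ) ^ 0) * (m : ℝ) ^ pp / Real.log m ≤ 0.000078 * (m : ℝ) ^ pp := by
      rw [div_le_iff₀ (by linarith)]
      have h5 : 0.000078 * (m : ℝ) ^ pp * 27.71 ≤ 0.000078 * (m : ℝ) ^ pp * Real.log m :=
        mul_le_mul_of_nonneg_left hlog.le (by positivity)
      rw [pow_zero]
      linarith
    have h6 : ((-1 : ℝ)) ^ (0 + 1) * EE f m = - EE f m := by norm_num
    rw [h6]
    linarith
  | succ i ih =>
    obtain ⟨a, b, ha, hb, hm⟩ := ih
    obtain ⟨t1, t2, -, -, -, -⟩ := tau_facts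
    have hi : (0 : ℝ) ≤ i := Nat.cast_nonneg i
    have hx0 : (0 : ℝ) < (1 / 2) ^ i := by positivity
    have hx1 : ((1 : ℝ) / 2) ^ i ≤ 1 := pow_le_one₀ (by norm_num) (by norm_num)
    have hexp := chain_chain_exp i
    have he5 : ((1 : ℝ) / 2) ^ (i + 5) = (1 / 2) ^ i / 32 := by rw [pow_add]; norm_num; ring
    have he1 : ((1 : ℝ) / 2) ^ (i + 1) = (1 / 2) ^ i / 2 := by rw [pow_add]; norm_num; ring
    have key := ST hf a b (2.25 + 0.44 * i) (0.001 * (1 + (1 / 2) ^ i)) ((1 / 2) ^ i / 4)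
      ((-1) ^ (i + 1)) (by linarith) (by positivity) (by positivity) (neg_one_pow_eq_or ℝ (i + 1))
      (by
        rw [he5] at hexp
        set x : ℝ := (1 / 2) ^ i with hx
        set e : ℝ := Real.exp (-1.58 * (2.25 + 0.44 * (i : ℝ))) with he
        have he0 : 0 < e := Real.exp_pos _
        have h1 : (0.001 * (1 + x) + 0.007) * e ≤ (0.008 * (1 + x)) * (x / 32) := by
          apply mul_le_mul _ hexp he0.le (by positivity)
          linarith
        refine h1.trans (le_of_eq ?_)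
        ring)
      (by
        set x : ℝ := (1 / 2) ^ i with hx
        nlinarith)
      hm
    refine ⟨tau * (a + (2.25 + 0.44 * i)), tau * b - 0.31, ?_, ?_, ?_⟩
    · push_cast
      have : 1.618033 * (a + (2.25 + 0.44 * i)) ≤ tau * (a + (2.25 + 0.44 * i)) :=
        mul_le_mul_of_nonneg_right t1.le (by linarith)
      linarith
    · push_cast
      have h1 : 6.15 + 0.76 * i ≤ b - (a + (2.25 + 0.44 * i)) := by linarith
      have h2 : 1.618033 * (6.15 + 0.76 * i) ≤ tau * (b - (a + (2.25 + 0.44 * i))) :=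
        mul_le_mul t1.le h1 (by positivity) (by linarith)
      have h3 : tau * (b - (a + (2.25 + 0.44 * i))) = tau * b - tau * (a + (2.25 + 0.44 * i)) := by
        ring
      rw [h3] at h2
      linarith
    · intro m hm1 hm2
      have h1 := key m hm1 hm2
      have h2 : (-1 : ℝ) ^ (i + 1 + 1) * EE f m = -(-1) ^ (i + 1) * EE f m := by
        rw [pow_succ]; ring
      rw [h2]
      refine le_trans ?_ h1
      have hm0 : (0 : ℝ) < m := lt_trans (Real.exp_pos _) hm1
      have hlog : tau * (a + (2.25 + 0.44 * i)) < Real.log m := (Real.lt_log_iff_exp_lt hm0).2 hm1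
      have hlog0 : 0 < Real.log m := by
        refine lt_trans ?_ hlog
        have : 0 < a + (2.25 + 0.44 * i) := by linarith
        exact mul_pos (by linarith) this
      have hp : 0 ≤ (m : ℝ) ^ pp := Real.rpow_nonneg hm0.le _
      apply div_le_div_of_nonneg_right _ hlog0.le
      apply mul_le_mul_of_nonneg_right _ hp
      rw [he1]
      set x : ℝ := (1 / 2) ^ i with hx
      nlinarith

end Pool.Agent.MP64d899
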