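import Pool.Agent.MP64d899.Defs
import Pool.Agent.MP64d899.L_tau_facts
import Pool.Agent.MP64d899.L_log_vals
import Pool.Agent.MP64d899.L_chain
set_option autoImplicit false
namespace Pool.Agent.MP64d899

lemma final_final_aux {f : ℕ → ℕ} (hf : IsGol f) (i : ℕ) : ∃ m : ℕ, i ≤ m ∧ 
    0.0005 * (m : ℝ) ^ pp / Real.log m < (-1) ^ (i + 1) * EE f m := by
  obtain ⟨a, b, ha, hb, h⟩ := chain hf i
  have hi : (0 : ℝ) ≤ i := Nat.cast_nonneg i
  have ha0 : (0 : ℝ) < Real.exp a := Real.exp_pos a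
  set m : ℕ := ⌊Real.exp a⌋₊ + 1 with hm
  have h1 : Real.exp a < m := by rw [hm]; push_cast; exact Nat.lt_floor_add_one _
  have h2 : (m : ℝ) ≤ Real.exp a + 1 := by
    rw [hm]; push_cast
    linarith [Nat.floor_le ha0.le]
  have hea : a + 1 ≤ Real.exp a := Real.add_one_le_exp a
  have h3 : Real.exp a + 1 ≤ Real.exp b := by
    have h4 : Real.exp (a + 1) ≤ Real.exp b := Real.exp_le_exp.mpr (by linarith)
    have h5 : Real.exp (a + 1) = Real.exp a * Real.exp 1 := Real.exp_add a 1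
    have h6 : (2 : ℝ) ≤ Real.exp 1 := by
      have := Real.add_one_le_exp (1 : ℝ); linarith
    have h7 : (1 : ℝ) ≤ Real.exp a := by linarith
    nlinarith
  have h4 := h m h1 (h2.trans h3)
  refine ⟨m, ?_, ?_⟩
  · have : (i : ℝ) ≤ m := by linarith
    exact_mod_cast this
  · have hm28 : (28 : ℝ) ≤ m := by linarith
    have hlog : 0 < Real.log m := Real.log_pos (by linarith)
    have hpw : 0 < (m : ℝ) ^ pp := Real.rpow_pos_of_pos (by linarith) _
    refine lt_of_lt_of_le ?_ h4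
    rw [div_lt_div_iff_of_pos_right hlog]
    have : (0 : ℝ) < (1 / 2) ^ i := by positivity
    nlinarith

theorem final {f : ℕ → ℕ} (hf : IsGol f) : ∃ c₁ c₂ : ℝ, 0 < c₁ ∧ 0 < c₂ ∧
    Set.Infinite {n : ℕ | EE f n > c₁ * (n : ℝ) ^ pp / Real.log n} ∧
    Set.Infinite {n : ℕ | EE f n < -(c₂ * (n : ℝ) ^ pp / Real.log n)} := by
  refine ⟨0.0005, 0.0005, by norm_num, by norm_num, ?_, ?_⟩
  · rw [Set.infinite_iff_exists_gt]
    intro k
    obtain ⟨m, hm1, hm2⟩ := final_final_aux hf (2 * k + 1)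
    refine ⟨m, ?_, by omega⟩
    have : ((-1 : ℝ)) ^ (2 * k + 1 + 1) = 1 := by
      rw [show 2 * k + 1 + 1 = 2 * (k + 1) by ring, pow_mul]; norm_num
    rw [this, one_mul] at hm2
    exact hm2
  · rw [Set.infinite_iff_exists_gt]
    intro k
    obtain ⟨m, hm1, hm2⟩ := final_final_aux hf (2 * (k + 1))
    refine ⟨m, ?_, by omega⟩
    have : ((-1 : ℝ)) ^ (2 * (k + 1) + 1) = -1 := by
      rw [pow_succ, pow_mul]; norm_num
    rw [this] at hm2
    show EE f m < _
    linarith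

end Pool.Agent.MP64d899
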